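import Pool.Agent.T6.H56.TSG.Stm
import Pool.Agent.T6.H26.ISGM

set_option autoImplicit false
set_option linter.unusedSectionVars false
set_option linter.unusedVariables false

/-! # Module ISO: weighted homogeneous polynomials with an isolated critical point -/

namespace Pool.Agent.T6.H56.TSG
namespace ModISO

open MvPolynomial
open Pool.Agent.T6.H26
open Pool.Agent.W574.SM (weyl)
open Pool.Agent.Y230.TH (kf W)

/-- **The root `-(∑ w_i) / d` of the reduced functional equation.** -/
theorem RDE {n : ℕ} (g : MvPolynomial (Fin n) ℂ) (w : Fin n → ℕ) (d : ℕ) (hd : 0 < d) (hw : ∀ i, w i < d)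
    (hg : IsWeightedHomogeneous w g d) (N : ℕ)
    (hN : ∀ i, X i ^ N ∈ Ideal.span (Set.range fun j => pderiv j g)) (q : Polynomial ℂ)
    (hq : (fun k : ℕ => q.eval (k : ℂ) • g ^ k) ∈ EN g) :
    q.eval (-((∑ i, w i : ℕ) : ℂ) / d) = 0 := by
  classical
  have hd0 : (d : ℂ) ≠ 0 := by exact_mod_cast hd.ne'
  have hc : ∀ i, constantCoeff (pderiv i g) = 0 := by
    intro i
    have h1 := (wh_toZ w g d hg).pderiv (i := i) (n' := (d : ℤ) - w i) (by simp only [wz]; ring)
    rw [constantCoeff_eq]
    by_contra h2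
    have h3 := h1 h2
    rw [map_zero] at h3
    have h4 := hw i
    omega
  set α : ℂ := -((∑ i, w i : ℕ) : ℂ) / d with hα
  have h1 : (fun k : ℕ => q.eval (k : ℂ) • g ^ k) ∈ EN g := hq
  have h2 : (fun k : ℕ => ((k : ℂ) - α) • g ^ k) ∈ EN g := by
    have h3 : (fun k : ℕ => ((k : ℂ) - α) • g ^ k) = ∑ i, ((w i : ℂ) / d) •
        fun k : ℕ => pderiv i (X i * pk g ((0 : ℕ) : ℤ) k) := by
      funext k
      rw [Finset.sum_apply]
      have h4 := hg.sum_weight_X_mul_pderiv
      have h5 := pk_mul g 0 k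
      rw [Int.cast_zero, zero_smul, add_zero, zero_add] at h5
      have h6 : ∀ i, (((w i : ℂ) / d) • fun k : ℕ => pderiv i (X i * pk g ((0 : ℕ) : ℤ) k)) k =
          ((w i : ℂ) / d) • g ^ k + ((1 : ℂ) / d) • ((w i • (X i * pderiv i g)) * pk g 1 k) := by
        intro i
        rw [Pi.smul_apply, Derivation.leibniz, pk_pderiv, pderiv_X_self, smul_eq_mul, smul_eq_mul,
          mul_one, Nat.cast_zero, zero_add, pk_zero, smul_add, add_comm]
        congr 1
        rw [nsmul_eq_mul, div_eq_mul_inv, one_div, mul_comm (w i : ℂ), mul_smul]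
        congr 1
        rw [smul_eq_C_mul]
        simp only [map_natCast]
        ring
      rw [Finset.sum_congr rfl fun i _ => h6 i, Finset.sum_add_distrib, ← Finset.sum_smul,
        ← Finset.smul_sum, ← Finset.sum_mul, h4, ← Finset.sum_div, nsmul_eq_mul, mul_assoc, ← h5,
        pk_zero]
      have h7 : ((d : ℕ) : MvPolynomial (Fin n) ℂ) = C (d : ℂ) := by simp
      rw [h7, ← smul_eq_C_mul, smul_smul, smul_smul, ← add_smul]
      congr 1
      rw [hα]
      push_cast
      field_simp
      ring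
    rw [h3]
    exact Submodule.sum_mem _ fun i _ => Submodule.smul_mem _ _ (Submodule.subset_span
      ⟨_, _, _, rfl⟩)
  obtain ⟨r, hr⟩ : (Polynomial.X - Polynomial.C α) ∣ q - Polynomial.C (q.eval α) := by
    rw [Polynomial.dvd_iff_isRoot, Polynomial.IsRoot, Polynomial.eval_sub, Polynomial.eval_C,
      sub_self]
  refine const_EN g N hN hc _ ?_
  refine (congrArg (· ∈ EN g) (funext fun k => ?_)).mp ((EN g).sub_mem h1 (EN_poly g r _ h2))
  have h3 := congrArg (fun P : Polynomial ℂ => P.eval (k : ℂ)) hr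
  simp only [Polynomial.eval_sub, Polynomial.eval_C, Polynomial.eval_mul, Polynomial.eval_X] at h3
  rw [Pi.sub_apply, smul_smul, ← sub_smul]
  congr 1
  linear_combination h3


theorem wz_pos {n : ℕ} (w : Fin n → ℕ) (hw : ∀ i, 1 ≤ w i) (s : Fin n →₀ ℕ) (hs : s ≠ 0) :
    0 < Finsupp.weight (wz w) s := by
  obtain ⟨i, hi⟩ : ∃ i, s i ≠ 0 := by
    by_contra hcon
    push Not at hcon
    exact hs (Finsupp.ext hcon)
  rw [Finsupp.weight_apply, Finsupp.sum]
  apply Finset.sum_pos'
  · intro j _
    simp only [wz]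
    positivity
  · refine ⟨i, Finsupp.mem_support_iff.mpr hi, ?_⟩
    have h1 : 0 < s i := Nat.pos_of_ne_zero hi
    have h2 : 0 < w i := hw i
    simp only [wz, nsmul_eq_mul]
    positivity

theorem comp0 {n : ℕ} (w : Fin n → ℕ) (hw : ∀ i, 1 ≤ w i) (G : MvPolynomial (Fin n) ℂ) (m : ℤ)
    (hG : IsWeightedHomogeneous (wz w) G m) (P : MvPolynomial (Fin n) ℂ) :
    weightedHomogeneousComponent (wz w) m (P * G) = constantCoeff P • G := by
  classical
  induction P using MvPolynomial.induction_on' with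
  | monomial s a =>
    by_cases hs : s = 0
    · subst hs
      have h1 : (monomial 0 a : MvPolynomial (Fin n) ℂ) * G = a • G := by
        rw [← C_apply, smul_eq_C_mul]
      rw [h1, map_smul, hG.weightedHomogeneousComponent_same]
      congr 1
      rw [← C_apply, constantCoeff_C]
    · have h3 := (isWeightedHomogeneous_monomial (wz w) s a rfl).mul hG
      have h4 := wz_pos w hw s hs
      rw [h3.weightedHomogeneousComponent_ne _ (by omega), constantCoeff_monomial, if_neg hs,
        zero_smul]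
  | add p q hp hq => rw [add_mul, map_add, hp, hq, map_add, add_smul]

theorem pow_memC {n : ℕ} (g : MvPolynomial (Fin n) ℂ)
    (h : ∀ z : Fin n → ℂ, (∀ i, eval z (pderiv i g) = 0) → z = 0) :
    ∃ N : ℕ, ∀ i, X i ^ N ∈ Ideal.span (Set.range fun j => pderiv j g) := by
  classical
  have h1 : ∀ i : Fin n, ∃ N : ℕ, X i ^ N ∈ Ideal.span (Set.range fun j => pderiv j g) := by
    intro i
    have h2 : (X i : MvPolynomial (Fin n) ℂ) ∈
        (Ideal.span (Set.range fun j => pderiv j g)).radical := by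
      rw [← vanishingIdeal_zeroLocus_eq_radical (K := ℂ), mem_vanishingIdeal_iff]
      intro z hz
      rw [mem_zeroLocus_iff] at hz
      have h3 : z = 0 := h z fun l => by
        have := hz _ (Ideal.subset_span ⟨l, rfl⟩)
        rwa [aeval_eq_eval] at this
      rw [aeval_X, h3]
      rfl
    exact h2
  choose N hN using h1
  refine ⟨∑ i, N i, fun i => ?_⟩
  obtain ⟨k, hk⟩ := Nat.exists_eq_add_of_le
    (Finset.single_le_sum (f := N) (fun _ _ => Nat.zero_le _) (Finset.mem_univ i))
  rw [hk, pow_add]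
  exact Ideal.mul_mem_right _ _ (hN i)

end ModISO

open ModISO MvPolynomial Pool.Agent.T6.H26 in
theorem iso : StmISO := by
  intro n g w d h B P hP
  obtain ⟨N, hN⟩ := pow_memC g h.iso
  have hd : 0 < d := (Nat.zero_le _).trans_lt (h.lt 0)
  have hW := W_of_RE g B P hP
  have h2 := Pc_W g w d hd h.lt h.hom _ hW
  have h3 : (fun k : ℕ => (B.map constantCoeff).eval (k : ℂ) • g ^ k) ∈ EN g := by
    refine (congrArg (· ∈ EN g) (funext fun k => ?_)).mp h2
    change weightedHomogeneousComponent (wz w) ((d : ℤ) * k) (B.eval (k : MvPolynomial _ ℂ) *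
      g ^ k) = _
    have h3 := pk_wh g w d h.hom 0 k
    rw [pk_zero, sub_zero] at h3
    rw [comp0 w h.pos (g ^ k) _ h3, Polynomial.eval_natCast_map]
  have h4 := RDE g w d hd h.lt h.hom N hN _ h3
  rw [← constantCoeff_C (σ := Fin (n + 1)) (-((∑ i, w i : ℕ) : ℂ) / d), Polynomial.eval_map,
    Polynomial.eval₂_hom] at h4
  rw [← h4]
  show eval 0 _ = _
  rw [MvPolynomial.eval_zero]

end Pool.Agent.T6.H56.TSG
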