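import Pool.Agent.T6.H56.TSG.Stm

set_option autoImplicit false
set_option linter.unusedSectionVars false
set_option linter.unusedVariables false

/-! # Module POW: reduced forced roots of powers -/

namespace Pool.Agent.T6.H56.TSG
namespace ModPOW

open MvPolynomial
open Pool.Agent.W574.SM (weyl)
open Pool.Agent.W574.HS (Seq act_pow)
open Pool.Agent.Y230.TH (kf W)

/-- finitely many operators on the powers of `F`, one exponent -/
theorem common {τ ι : Type} (F : MvPolynomial τ ℂ) (s : Finset ι) (Q : ι → weyl τ) :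
    ∃ K₀ : ℕ, ∀ K : ℕ, K₀ ≤ K → ∃ r : ι → Polynomial (MvPolynomial τ ℂ), ∀ i ∈ s, ∀ n : ℕ,
      F ^ K * (Q i : Module.End ℂ (MvPolynomial τ ℂ)) (F ^ n) =
        (r i).eval (n : MvPolynomial τ ℂ) * F ^ n := by
  classical
  have h1 : ∀ i, Seq F fun n => (Q i : Module.End ℂ (MvPolynomial τ ℂ)) (F ^ n) := fun i =>
    act_pow F (Q i).1 (Q i).2 _ ⟨0, 1, fun n => by simp⟩
  choose k r hr using h1
  refine ⟨∑ i ∈ s, k i, fun K hK =>
    ⟨fun i => Polynomial.C (F ^ (K - k i)) * r i, fun i hi n => ?_⟩⟩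
  have h2 : k i ≤ K := (Finset.single_le_sum (f := k) (fun _ _ => Nat.zero_le _) hi).trans hK
  have h3 : F ^ K = F ^ (K - k i) * F ^ k i := by rw [← pow_add, Nat.sub_add_cancel h2]
  have h4 : F ^ k i * (Q i : Module.End ℂ (MvPolynomial τ ℂ)) (F ^ n) =
    (r i).eval (n : MvPolynomial τ ℂ) * F ^ n := hr i n
  rw [h3, Polynomial.eval_mul, Polynomial.eval_C, mul_assoc, h4, mul_assoc]

theorem coef (a : ℕ) (ha : 0 < a) (m n : ℕ) :
    (Polynomial.C (a : ℂ) * (ascPochhammer ℂ (a - 1)).comp (Polynomial.X + 1) *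
      (Polynomial.C (1 / (a : ℂ)) * Polynomial.X) ^ m).eval (n : ℂ) * kf n a =
    (a : ℂ) / ((n : ℂ) + a) * ((n : ℂ) / a) ^ m := by
  have ha0 : (a : ℂ) ≠ 0 := by exact_mod_cast ha.ne'
  have hna : (n : ℂ) + a ≠ 0 := by
    have : n + a ≠ 0 := by omega
    exact_mod_cast this
  have h1 : (ascPochhammer ℂ (a - 1)).eval ((n : ℂ) + 1) * (n.factorial : ℂ) =
      ((n + (a - 1)).factorial : ℂ) := by
    have h2 := ascPochhammer_eval_cast (S := ℂ) (a - 1) (n + 1)
    rw [ascPochhammer_nat_eq_ascFactorial] at h2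
    push_cast at h2
    rw [← h2, mul_comm]
    have h3 := Nat.factorial_mul_ascFactorial n (a - 1)
    exact_mod_cast h3
  have h2 : ((n + a).factorial : ℂ) = ((n : ℂ) + a) * ((n + (a - 1)).factorial : ℂ) := by
    have h3 : n + a = (n + (a - 1)) + 1 := by omega
    have h4 : ((n + a : ℕ) : ℂ) = (n : ℂ) + a := by push_cast; ring
    rw [h3, Nat.factorial_succ, ← h3, Nat.cast_mul, h4]
  have h3 : ((n + (a - 1)).factorial : ℂ) ≠ 0 := by
    exact_mod_cast (n + (a - 1)).factorial_ne_zero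
  unfold kf
  simp only [Polynomial.eval_mul, Polynomial.eval_C, Polynomial.eval_comp, Polynomial.eval_add,
    Polynomial.eval_X, Polynomial.eval_one, Polynomial.eval_pow]
  rw [h2]
  have h5 : (1 / (a : ℂ) * n) = (n : ℂ) / a := by field_simp
  rw [h5]
  have h6 : (a : ℂ) * Polynomial.eval ((n : ℂ) + 1) (ascPochhammer ℂ (a - 1)) * ((n : ℂ) / a) ^ m *
      ((n.factorial : ℂ) / (((n : ℂ) + a) * ((n + (a - 1)).factorial : ℂ))) =
      (a : ℂ) * ((n : ℂ) / a) ^ m * ((Polynomial.eval ((n : ℂ) + 1) (ascPochhammer ℂ (a - 1)) *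
        (n.factorial : ℂ)) / (((n : ℂ) + a) * ((n + (a - 1)).factorial : ℂ))) := by ring
  rw [h6, h1]
  field_simp

end ModPOW

open ModPOW MvPolynomial Pool.Agent.Y230.TH Pool.Agent.Y230.TL Pool.Agent.W574.SM in
theorem pow_ : StmPOW := by
  classical
  intro σ F hF a ha s₀ h B P hP
  have ha0 : (a : ℂ) ≠ 0 := by exact_mod_cast ha.ne'
  obtain ⟨K, hK⟩ := common F P.support (fun m => P m)
  obtain ⟨r, hr⟩ := hK K le_rfl
  set G : Polynomial (MvPolynomial σ ℂ) :=
    (Polynomial.X + 1) * B * Polynomial.C (F ^ K) - Polynomial.C (F ^ a) *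
      ∑ m ∈ P.support, Polynomial.X ^ m *
        (r m).comp (Polynomial.C (a : MvPolynomial σ ℂ) * Polynomial.X +
          Polynomial.C (a : MvPolynomial σ ℂ)) with hG
  have hG0 : G = 0 := by
    apply Pool.Agent.Y21.TH.poly_zero
    intro k
    have hFk : F ^ (a * k) ≠ 0 := pow_ne_zero _ hF
    apply mul_right_cancel₀ hFk
    have h2 := hP k
    rw [Finsupp.sum, smul_eq_C_mul, ← pow_mul, ← pow_mul] at h2
    have h3 : (C ((k : ℂ) + 1) : MvPolynomial σ ℂ) = (k : MvPolynomial σ ℂ) + 1 := by simp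
    have h4 : F ^ K * ∑ m ∈ P.support, ((k : ℂ) ^ m) •
        (P m : Module.End ℂ (MvPolynomial σ ℂ)) (F ^ (a * (k + 1))) =
        ∑ m ∈ P.support, (k : MvPolynomial σ ℂ) ^ m *
          ((r m).eval ((a : MvPolynomial σ ℂ) * k + a) * (F ^ a * F ^ (a * k))) := by
      rw [Finset.mul_sum]
      refine Finset.sum_congr rfl fun m hm => ?_
      have h5 := hr m hm (a * (k + 1))
      have h6 : ((a * (k + 1) : ℕ) : MvPolynomial σ ℂ) = (a : MvPolynomial σ ℂ) * k + a := by
        push_cast; ring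
      have h7 : F ^ (a * (k + 1)) = F ^ a * F ^ (a * k) := by rw [← pow_add]; congr 1; ring
      have h8 : ((k : ℂ) ^ m) • (P m : Module.End ℂ (MvPolynomial σ ℂ)) (F ^ (a * (k + 1))) =
          (k : MvPolynomial σ ℂ) ^ m *
            (P m : Module.End ℂ (MvPolynomial σ ℂ)) (F ^ (a * (k + 1))) := by
        rw [smul_eq_C_mul, map_pow, map_natCast]
      rw [h8, mul_left_comm, h5, h6, h7]
    rw [← h2, h3] at h4
    rw [hG, zero_mul]
    simp only [Polynomial.eval_sub, Polynomial.eval_mul, Polynomial.eval_add, Polynomial.eval_X,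
      Polynomial.eval_one, Polynomial.eval_C, Polynomial.eval_finsetSum, Polynomial.eval_pow,
      Polynomial.eval_comp]
    have h9 : ∑ m ∈ P.support, (k : MvPolynomial σ ℂ) ^ m *
          ((r m).eval ((a : MvPolynomial σ ℂ) * k + a) * (F ^ a * F ^ (a * k))) =
        F ^ a * (∑ m ∈ P.support, (k : MvPolynomial σ ℂ) ^ m *
          (r m).eval ((a : MvPolynomial σ ℂ) * k + a)) * F ^ (a * k) := by
      rw [Finset.mul_sum, Finset.sum_mul]
      refine Finset.sum_congr rfl fun m _ => ?_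
      ring
    rw [h9] at h4
    linear_combination h4
  set B' : Polynomial (MvPolynomial σ ℂ) :=
    B.comp (Polynomial.C (C (1 / (a : ℂ))) * Polynomial.X) with hB'
  -- the sequence
  have key : ∀ n : ℕ, ((n : ℂ) / a + 1) • (B'.eval (n : MvPolynomial σ ℂ) * F ^ n) =
      ∑ m ∈ P.support, (((n : ℂ) / a) ^ m) •
        (P m : Module.End ℂ (MvPolynomial σ ℂ)) (F ^ (n + a)) := by
    intro n
    apply mul_left_cancel₀ (pow_ne_zero K hF)
    have h1 := congrArg (fun p : Polynomial (MvPolynomial σ ℂ) => p.eval (C ((n : ℂ) / a))) hG0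
    beta_reduce at h1
    rw [hG, Polynomial.eval_zero] at h1
    simp only [Polynomial.eval_sub, Polynomial.eval_mul, Polynomial.eval_add, Polynomial.eval_X,
      Polynomial.eval_one, Polynomial.eval_C, Polynomial.eval_finsetSum, Polynomial.eval_pow,
      Polynomial.eval_comp] at h1
    have h2 : B'.eval (n : MvPolynomial σ ℂ) = B.eval (C ((n : ℂ) / a)) := by
      rw [hB', Polynomial.eval_comp, Polynomial.eval_mul, Polynomial.eval_C, Polynomial.eval_X]
      congr 1
      have h4 : (n : MvPolynomial σ ℂ) = C (n : ℂ) := by simp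
      rw [h4, ← C_mul]
      congr 1
      field_simp
    have h3 : (a : MvPolynomial σ ℂ) * C ((n : ℂ) / a) + (a : MvPolynomial σ ℂ) =
        ((n + a : ℕ) : MvPolynomial σ ℂ) := by
      have h4 : (a : MvPolynomial σ ℂ) = C (a : ℂ) := by simp
      have h5 : ((n + a : ℕ) : MvPolynomial σ ℂ) = C ((n + a : ℕ) : ℂ) := by simp
      rw [h4, h5, ← C_mul, ← C_add]
      congr 1
      push_cast
      field_simp
    rw [h3] at h1
    have h4 : F ^ K * ∑ m ∈ P.support, (((n : ℂ) / a) ^ m) •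
        (P m : Module.End ℂ (MvPolynomial σ ℂ)) (F ^ (n + a)) =
        F ^ a * (∑ m ∈ P.support, (C ((n : ℂ) / a) : MvPolynomial σ ℂ) ^ m *
          (r m).eval ((n + a : ℕ) : MvPolynomial σ ℂ)) * F ^ n := by
      rw [Finset.mul_sum, Finset.mul_sum, Finset.sum_mul]
      refine Finset.sum_congr rfl fun m hm => ?_
      have h5 := hr m hm (n + a)
      rw [smul_eq_C_mul, map_pow, mul_left_comm, h5, pow_add]
      ring
    rw [h4, h2, smul_eq_C_mul, C_add, C_1]
    linear_combination F ^ n * h1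
  have hW : (fun n : ℕ => B'.eval (n : MvPolynomial σ ℂ) * F ^ n) ∈ W F := by
    have h1 : (fun n : ℕ => B'.eval (n : MvPolynomial σ ℂ) * F ^ n) =
        ∑ m ∈ P.support, fun n : ℕ => ((Polynomial.C (a : ℂ) *
          (ascPochhammer ℂ (a - 1)).comp (Polynomial.X + 1) *
          (Polynomial.C (1 / (a : ℂ)) * Polynomial.X) ^ m).eval (n : ℂ) * kf n a) •
          (P m : Module.End ℂ (MvPolynomial σ ℂ)) (F ^ (n + a)) := by
      funext n
      have h5 : (n : ℂ) / a + 1 ≠ 0 := by
        intro h6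
        have h7 : (n : ℂ) + a = 0 := by
          field_simp at h6
          simpa using h6
        have h8 : n + a ≠ 0 := by omega
        exact h8 (by exact_mod_cast h7)
      have h2 := congrArg (fun u => ((n : ℂ) / a + 1)⁻¹ • u) (key n)
      beta_reduce at h2
      rw [smul_smul, inv_mul_cancel₀ h5, one_smul, Finset.smul_sum] at h2
      rw [h2, Finset.sum_apply]
      refine Finset.sum_congr rfl fun m _ => ?_
      rw [coef a ha m n, smul_smul]
      congr 2
      have hna : (n : ℂ) + a ≠ 0 := by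
        have : n + a ≠ 0 := by omega
        exact_mod_cast this
      field_simp
    rw [h1]
    exact (W F).sum_mem fun m _ => W_poly F a ha (P m) _
  obtain ⟨P', hP'⟩ := tA F hF B' hW
  have h1 := h B' P' hP'
  rw [hB', Polynomial.eval_comp, Polynomial.eval_mul, Polynomial.eval_C, Polynomial.eval_X,
    ← C_mul] at h1
  have h2 : 1 / (a : ℂ) * ((a : ℂ) * s₀) = s₀ := by field_simp
  rw [h2] at h1
  exact h1

end Pool.Agent.T6.H56.TSG
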