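import Pool.Agent.T6.H56.TSG.Stm
import Pool.Agent.T6.H56.TSG.POW

set_option autoImplicit false
set_option linter.unusedSectionVars false
set_option linter.unusedVariables false

/-! # Module PRO: `-1` is a reduced forced root of products in disjoint variables -/

namespace Pool.Agent.T6.H56.TSG
namespace ModPRO

open MvPolynomial
open Pool.Agent.W574.SM (weyl)
open Pool.Agent.W574.RO (weyl_splits Splits sumAlg_inl sumAlg_inr)

/-- the extension of a functional to the polynomials with coefficients in `R` -/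
noncomputable def La {σ κ : Type} (la : MvPolynomial σ ℂ →ₗ[ℂ] ℂ) :
    MvPolynomial σ (MvPolynomial κ ℂ) →ₗ[MvPolynomial κ ℂ] MvPolynomial κ ℂ :=
  (basisMonomials σ (MvPolynomial κ ℂ)).constr (MvPolynomial κ ℂ)
    fun m => C (la (monomial m 1))

theorem La_monomial {σ κ : Type} (la : MvPolynomial σ ℂ →ₗ[ℂ] ℂ) (m : σ →₀ ℕ)
    (c : MvPolynomial κ ℂ) : La la (monomial m c) = c * C (la (monomial m 1)) := by
  have h1 : (monomial m c : MvPolynomial σ (MvPolynomial κ ℂ)) =
      c • basisMonomials σ (MvPolynomial κ ℂ) m := by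
    rw [coe_basisMonomials, smul_monomial, smul_eq_mul, mul_one]
  rw [h1, map_smul, La, Module.Basis.constr_basis, smul_eq_mul]

theorem La_map {σ κ : Type} (la : MvPolynomial σ ℂ →ₗ[ℂ] ℂ) (p : MvPolynomial σ ℂ) :
    La la (MvPolynomial.map (C : ℂ →+* MvPolynomial κ ℂ) p) = C (la p) := by
  induction p using MvPolynomial.induction_on' with
  | monomial m a =>
    rw [map_monomial, La_monomial, ← C_mul]
    congr 1
    have h1 : (monomial m a : MvPolynomial σ ℂ) = a • monomial m 1 := by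
      rw [smul_monomial, smul_eq_mul, mul_one]
    rw [h1, map_smul, smul_eq_mul]
  | add p q hp hq => simp only [map_add, hp, hq]

/-- the product of two functionals -/
theorem exists_prod {σ κ : Type} (la : MvPolynomial σ ℂ →ₗ[ℂ] ℂ) (lb : MvPolynomial κ ℂ →ₗ[ℂ] ℂ) :
    ∃ L : MvPolynomial (σ ⊕ κ) ℂ →ₗ[ℂ] ℂ, ∀ p q,
      L (rename Sum.inl p * rename Sum.inr q) = la p * lb q := by
  refine ⟨lb ∘ₗ ((La la).restrictScalars ℂ) ∘ₗ (sumAlgEquiv ℂ σ κ).toLinearMap, fun p q => ?_⟩
  change lb (La la (sumAlgEquiv ℂ σ κ (rename Sum.inl p * rename Sum.inr q))) = _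
  rw [map_mul, sumAlg_inl, sumAlg_inr, mul_comm, ← smul_eq_C_mul, map_smul, La_map, smul_eq_mul,
    mul_comm, ← smul_eq_C_mul, map_smul, smul_eq_mul]

/-- the functional on one side -/
theorem exists_la {σ : Type} (F : MvPolynomial σ ℂ) (hF : F ≠ 0) (hF0 : constantCoeff F = 0)
    (K : ℕ) : ∃ la : MvPolynomial σ ℂ →ₗ[ℂ] ℂ, (∀ a, la (F ^ (K + 1) * a) = 0) ∧
      ∀ a, la (F ^ K * a) = constantCoeff a := by
  obtain ⟨lam, h1, h2⟩ := ext_fun (LinearMap.mulLeft ℂ (F ^ K))
    (LinearMap.range (LinearMap.mulLeft ℂ (F ^ (K + 1)))) (MvPolynomial.lcoeff ℂ (0 : σ →₀ ℕ)) (by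
      rintro a ⟨c, hc⟩
      rw [LinearMap.mulLeft_apply, LinearMap.mulLeft_apply, pow_succ, mul_assoc] at hc
      have h3 : F * c = a := mul_left_cancel₀ (pow_ne_zero K hF) hc
      rw [MvPolynomial.lcoeff_apply, ← constantCoeff_eq, ← h3, map_mul, hF0, zero_mul])
  refine ⟨lam, fun a => h1 _ ⟨a, rfl⟩, fun a => ?_⟩
  have h3 := h2 a
  rw [LinearMap.mulLeft_apply, MvPolynomial.lcoeff_apply, ← constantCoeff_eq] at h3
  exact h3

end ModPRO

open ModPOW ModPRO MvPolynomial Pool.Agent.Y230.TH Pool.Agent.Y230.TL Pool.Agent.W574.SM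
  Pool.Agent.W574.RO in
theorem pro : StmPRO := by
  classical
  intro σ κ F G hF hG hF0 hG0 B P hP
  set iF : MvPolynomial σ ℂ →+* MvPolynomial (σ ⊕ κ) ℂ :=
    (rename Sum.inl : MvPolynomial σ ℂ →ₐ[ℂ] MvPolynomial (σ ⊕ κ) ℂ).toRingHom with hiF
  set iG : MvPolynomial κ ℂ →+* MvPolynomial (σ ⊕ κ) ℂ :=
    (rename Sum.inr : MvPolynomial κ ℂ →ₐ[ℂ] MvPolynomial (σ ⊕ κ) ℂ).toRingHom with hiG
  have eF : ∀ p, rename Sum.inl p = iF p := fun _ => rfl
  have eG : ∀ p, rename Sum.inr p = iG p := fun _ => rfl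
  have hiF0 : iF F ≠ 0 := by
    rw [← eF]
    intro h0
    exact hF (rename_injective _ Sum.inl_injective (by rw [h0, map_zero]))
  have hiG0 : iG G ≠ 0 := by
    rw [← eG]
    intro h0
    exact hG (rename_injective _ Sum.inr_injective (by rw [h0, map_zero]))
  choose M Q Q' hQ using fun m : ℕ => weyl_splits (P m).1 (P m).2
  set s : Finset (Σ m : ℕ, Fin (M m)) := P.support.sigma fun _ => Finset.univ with hs
  obtain ⟨K₁, hK₁⟩ := common F s (fun i => Q i.1 i.2)
  obtain ⟨K₂, hK₂⟩ := common G s (fun i => Q' i.1 i.2)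
  set K : ℕ := K₁ + K₂ with hK
  obtain ⟨r, hr⟩ := hK₁ (K + 1) (by omega)
  obtain ⟨r', hr'⟩ := hK₂ (K + 1) (by omega)
  -- the polynomial identity
  set H : Polynomial (MvPolynomial (σ ⊕ κ) ℂ) :=
    (Polynomial.X + 1) * B * Polynomial.C (iF F ^ K * iG G ^ K) -
      ∑ i ∈ s, Polynomial.X ^ i.1 * (((r i).map iF).comp (Polynomial.X + 1) *
        ((r' i).map iG).comp (Polynomial.X + 1)) with hH
  have hH0 : H = 0 := by
    apply Pool.Agent.Y21.TH.poly_zero
    intro k
    have hFk : iF F ^ (k + 1) * iG G ^ (k + 1) ≠ 0 :=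
      mul_ne_zero (pow_ne_zero _ hiF0) (pow_ne_zero _ hiG0)
    apply mul_right_cancel₀ hFk
    have h2 := hP k
    rw [Finsupp.sum, smul_eq_C_mul, eF, eG] at h2
    have h3 : (C ((k : ℂ) + 1) : MvPolynomial (σ ⊕ κ) ℂ) =
        (k : MvPolynomial (σ ⊕ κ) ℂ) + 1 := by simp
    have h4 : (iF F ^ (K + 1) * iG G ^ (K + 1)) * ∑ m ∈ P.support, ((k : ℂ) ^ m) •
        (P m : Module.End ℂ (MvPolynomial (σ ⊕ κ) ℂ)) ((iF F * iG G) ^ (k + 1)) =
        ∑ i ∈ s, (k : MvPolynomial (σ ⊕ κ) ℂ) ^ i.1 *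
          ((iF ((r i).eval ((k : MvPolynomial σ ℂ) + 1)) *
            iG ((r' i).eval ((k : MvPolynomial κ ℂ) + 1))) *
              (iF F ^ (k + 1) * iG G ^ (k + 1))) := by
      rw [hs, Finset.sum_sigma, Finset.mul_sum]
      refine Finset.sum_congr rfl fun m hm => ?_
      have h5 : (iF F * iG G) ^ (k + 1) = rename Sum.inl (F ^ (k + 1)) *
          rename Sum.inr (G ^ (k + 1)) := by
        rw [mul_pow, eF, eG, map_pow, map_pow]
      have h8 : ((k : ℂ) ^ m) • (P m : Module.End ℂ (MvPolynomial (σ ⊕ κ) ℂ))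
          ((iF F * iG G) ^ (k + 1)) =
          (k : MvPolynomial (σ ⊕ κ) ℂ) ^ m *
            (P m : Module.End ℂ (MvPolynomial (σ ⊕ κ) ℂ)) ((iF F * iG G) ^ (k + 1)) := by
        rw [smul_eq_C_mul, map_pow, map_natCast]
      have h9 : (P m : Module.End ℂ (MvPolynomial (σ ⊕ κ) ℂ)) (rename Sum.inl (F ^ (k + 1)) *
          rename Sum.inr (G ^ (k + 1))) = _ := hQ m (F ^ (k + 1)) (G ^ (k + 1))
      rw [h8, h5, h9, mul_left_comm, Finset.mul_sum, Finset.mul_sum]
      refine Finset.sum_congr rfl fun j _ => ?_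
      have hj : (⟨m, j⟩ : Σ m : ℕ, Fin (M m)) ∈ s := by
        rw [hs, Finset.mem_sigma]
        exact ⟨hm, Finset.mem_univ _⟩
      have h10 := congrArg iF (hr ⟨m, j⟩ hj (k + 1))
      have h11 := congrArg iG (hr' ⟨m, j⟩ hj (k + 1))
      rw [map_mul, map_mul, map_pow iF, map_pow iF] at h10
      rw [map_mul, map_mul, map_pow iG, map_pow iG] at h11
      rw [Nat.cast_add, Nat.cast_one] at h10 h11
      rw [eF, eG]
      congr 1
      linear_combination (iG G ^ (K + 1) * iG ((Q' m j : Module.End ℂ (MvPolynomial κ ℂ))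
        (G ^ (k + 1)))) * h10 + (iF ((r ⟨m, j⟩).eval ((k : MvPolynomial σ ℂ) + 1)) *
          iF F ^ (k + 1)) * h11
    rw [← h2, h3] at h4
    have h12 : ∀ i, (((r i).map iF).comp (Polynomial.X + 1)).eval
        (k : MvPolynomial (σ ⊕ κ) ℂ) = iF ((r i).eval ((k : MvPolynomial σ ℂ) + 1)) := by
      intro i
      have h13 : ((k : MvPolynomial (σ ⊕ κ) ℂ) + 1) = ((k + 1 : ℕ) : MvPolynomial (σ ⊕ κ) ℂ) := by
        push_cast; rfl
      have h14 : ((k : MvPolynomial σ ℂ) + 1) = ((k + 1 : ℕ) : MvPolynomial σ ℂ) := by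
        push_cast; rfl
      rw [Polynomial.eval_comp, Polynomial.eval_add, Polynomial.eval_X, Polynomial.eval_one, h13,
        h14, Polynomial.eval_natCast_map]
    have h12' : ∀ i, (((r' i).map iG).comp (Polynomial.X + 1)).eval
        (k : MvPolynomial (σ ⊕ κ) ℂ) = iG ((r' i).eval ((k : MvPolynomial κ ℂ) + 1)) := by
      intro i
      have h13 : ((k : MvPolynomial (σ ⊕ κ) ℂ) + 1) = ((k + 1 : ℕ) : MvPolynomial (σ ⊕ κ) ℂ) := by
        push_cast; rfl
      have h14 : ((k : MvPolynomial κ ℂ) + 1) = ((k + 1 : ℕ) : MvPolynomial κ ℂ) := by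
        push_cast; rfl
      rw [Polynomial.eval_comp, Polynomial.eval_add, Polynomial.eval_X, Polynomial.eval_one, h13,
        h14, Polynomial.eval_natCast_map]
    rw [hH, zero_mul]
    simp only [Polynomial.eval_sub, Polynomial.eval_mul, Polynomial.eval_add, Polynomial.eval_X,
      Polynomial.eval_one, Polynomial.eval_C, Polynomial.eval_finsetSum, Polynomial.eval_pow,
      h12, h12']
    have h9 : ∑ i ∈ s, (k : MvPolynomial (σ ⊕ κ) ℂ) ^ i.1 *
          ((iF ((r i).eval ((k : MvPolynomial σ ℂ) + 1)) *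
            iG ((r' i).eval ((k : MvPolynomial κ ℂ) + 1))) *
              (iF F ^ (k + 1) * iG G ^ (k + 1))) =
        (∑ i ∈ s, (k : MvPolynomial (σ ⊕ κ) ℂ) ^ i.1 *
          (iF ((r i).eval ((k : MvPolynomial σ ℂ) + 1)) *
            iG ((r' i).eval ((k : MvPolynomial κ ℂ) + 1)))) *
              (iF F ^ (k + 1) * iG G ^ (k + 1)) := by
      rw [Finset.sum_mul]
      refine Finset.sum_congr rfl fun m _ => ?_
      ring
    rw [h9] at h4
    have h15 : (iF F * iG G) ^ k * (iF F * iG G) = iF F ^ (k + 1) * iG G ^ (k + 1) := by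
      rw [← pow_succ, mul_pow]
    linear_combination h4
  -- the derivative at `-1`
  have hD := congrArg (fun p : Polynomial (MvPolynomial (σ ⊕ κ) ℂ) =>
    (Polynomial.derivative p).eval (-1)) hH0
  beta_reduce at hD
  rw [hH, Polynomial.derivative_zero, Polynomial.eval_zero, Polynomial.derivative_sub,
    Polynomial.eval_sub, Polynomial.derivative_sum, Polynomial.eval_finsetSum] at hD
  have hD1 : (Polynomial.derivative ((Polynomial.X + 1) * B *
      Polynomial.C (iF F ^ K * iG G ^ K))).eval (-1) =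
      B.eval (-1) * (iF F ^ K * iG G ^ K) := by
    rw [Polynomial.derivative_mul, Polynomial.derivative_mul, Polynomial.derivative_C]
    simp
  -- the values at `0`
  have e0 : ∀ i ∈ s, (r i).eval 0 = F ^ (K + 1) *
      (Q i.1 i.2 : Module.End ℂ (MvPolynomial σ ℂ)) 1 := by
    intro i hi
    have h1 := hr i hi 0
    rw [Nat.cast_zero, pow_zero, mul_one] at h1
    exact h1.symm
  have e0' : ∀ i ∈ s, (r' i).eval 0 = G ^ (K + 1) *
      (Q' i.1 i.2 : Module.End ℂ (MvPolynomial κ ℂ)) 1 := by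
    intro i hi
    have h1 := hr' i hi 0
    rw [Nat.cast_zero, pow_zero, mul_one] at h1
    exact h1.symm
  obtain ⟨la, la1, la2⟩ := exists_la F hF hF0 K
  obtain ⟨lb, lb1, lb2⟩ := exists_la G hG hG0 K
  obtain ⟨Lm, hL⟩ := exists_prod la lb
  have hL' : ∀ p q, Lm (iF p * iG q) = la p * lb q := fun p q => hL p q
  have hev0 : ∀ (p : Polynomial (MvPolynomial σ ℂ)), (p.map iF).eval 0 = iF (p.eval 0) := by
    intro p
    simp
  have hev0' : ∀ (p : Polynomial (MvPolynomial κ ℂ)), (p.map iG).eval 0 = iG (p.eval 0) := by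
    intro p
    simp
  have hD2 : ∀ i ∈ s, Lm ((Polynomial.derivative (Polynomial.X ^ i.1 *
      (((r i).map iF).comp (Polynomial.X + 1) *
        ((r' i).map iG).comp (Polynomial.X + 1)))).eval (-1)) = 0 := by
    intro i hi
    have h1 : (Polynomial.derivative (Polynomial.X ^ i.1 *
      (((r i).map iF).comp (Polynomial.X + 1) *
        ((r' i).map iG).comp (Polynomial.X + 1)))).eval (-1) =
        (((i.1 : ℂ)) * (-1) ^ (i.1 - 1)) • (iF ((r i).eval 0) * iG ((r' i).eval 0)) +
        ((-1 : ℂ) ^ i.1) • (iF ((Polynomial.derivative (r i)).eval 0) * iG ((r' i).eval 0)) +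
        ((-1 : ℂ) ^ i.1) • (iF ((r i).eval 0) * iG ((Polynomial.derivative (r' i)).eval 0)) := by
      simp only [Polynomial.derivative_mul, Polynomial.derivative_X_pow, Polynomial.eval_add,
        Polynomial.eval_mul, Polynomial.derivative_comp, Polynomial.eval_comp,
        Polynomial.eval_pow, Polynomial.eval_X, Polynomial.eval_one, Polynomial.eval_C,
        Polynomial.derivative_add, Polynomial.derivative_X, Polynomial.derivative_one,
        Polynomial.derivative_map, neg_add_cancel, hev0, hev0', smul_eq_C_mul, map_mul, map_pow,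
        map_neg, map_one, map_natCast, add_zero, one_mul, Polynomial.eval_natCast]
      ring
    rw [h1, map_add, map_add, map_smul, map_smul, map_smul, hL', hL', hL', e0 i hi, e0' i hi,
      la1, lb1]
    simp
  have hfin : Lm (B.eval (-1) * (iF F ^ K * iG G ^ K)) = 0 := by
    have h1 : B.eval (-1) * (iF F ^ K * iG G ^ K) = ∑ i ∈ s, (Polynomial.derivative
        (Polynomial.X ^ i.1 * (((r i).map iF).comp (Polynomial.X + 1) *
          ((r' i).map iG).comp (Polynomial.X + 1)))).eval (-1) := by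
      rw [hD1] at hD
      exact sub_eq_zero.1 hD
    rw [h1, map_sum]
    exact Finset.sum_eq_zero hD2
  have hid : ∀ c : MvPolynomial (σ ⊕ κ) ℂ, Lm (c * (iF F ^ K * iG G ^ K)) = constantCoeff c := by
    intro c
    have hc := span_prod c
    induction hc using Submodule.span_induction with
    | mem c hc =>
      obtain ⟨a, b, rfl⟩ := hc
      have h1 : rename Sum.inl a * rename Sum.inr b * (iF F ^ K * iG G ^ K) =
          iF (F ^ K * a) * iG (G ^ K * b) := by
        rw [eF, eG, map_mul, map_mul, map_pow, map_pow]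
        ring
      rw [h1, hL', la2, lb2, map_mul, constantCoeff_rename, constantCoeff_rename]
    | zero => rw [zero_mul, map_zero, map_zero]
    | add c d _ _ hc hd => rw [add_mul, map_add, hc, hd, map_add]
    | smul r c _ hc => rw [smul_mul_assoc, map_smul, hc, smul_eq_C_mul, map_mul, constantCoeff_C,
        smul_eq_mul]
  rw [hid] at hfin
  have h1 : (C (-1) : MvPolynomial (σ ⊕ κ) ℂ) = -1 := by simp
  rw [h1]
  change eval (0 : σ ⊕ κ → ℂ) _ = 0
  rw [MvPolynomial.eval_zero]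
  exact hfin

end Pool.Agent.T6.H56.TSG
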