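import Pool.Agent.T6.H56.TSG.StmR

set_option autoImplicit false
set_option linter.unusedSectionVars false
set_option linter.unusedVariables false

/-! # Module RED: `-1` is a reduced forced root of reducible germs -/

namespace Pool.Agent.T6.H56.TSG
namespace ModRED

open MvPolynomial
open Pool.Agent.W574.SM (weyl)

/-! ## Regular sequences -/

section Reg

variable {R : Type} [CommRing R] [IsDomain R]

theorem dvd_pow_left (h k : R) (H : ∀ c, k ∣ c * h → k ∣ c) (n : ℕ) (c : R)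
    (hc : k ∣ c * h ^ n) : k ∣ c := by
  induction n with
  | zero => rwa [pow_zero, mul_one] at hc
  | succ n ih =>
    apply ih
    apply H
    rwa [mul_assoc, ← pow_succ]

theorem pow_dvd_left (h k : R) (hk : k ≠ 0) (H : ∀ c, k ∣ c * h → k ∣ c) (n t : ℕ) :
    ∀ c : R, k ^ t ∣ c * h ^ n → k ^ t ∣ c := by
  induction t with
  | zero => intro c _; rw [pow_zero]; exact one_dvd _
  | succ t ih =>
    intro c hc
    have h1 : k ∣ c := dvd_pow_left h k H n c ((dvd_pow_self k (Nat.succ_ne_zero t)).trans hc)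
    obtain ⟨d, rfl⟩ := h1
    have h2 : k ^ t ∣ d * h ^ n := by
      rw [pow_succ', mul_assoc] at hc
      exact (mul_dvd_mul_iff_left hk).1 hc
    rw [pow_succ']
    exact mul_dvd_mul_left k (ih d h2)

theorem swap (h k : R) (hk : k ≠ 0) (H : ∀ c, k ∣ c * h → k ∣ c) (c : R) (hc : h ∣ c * k) :
    h ∣ c := by
  obtain ⟨d, hd⟩ := hc
  obtain ⟨e, rfl⟩ := H d ⟨c, by rw [mul_comm d, ← hd, mul_comm]⟩
  refine ⟨e, mul_right_cancel₀ hk ?_⟩
  rw [hd]
  ring

theorem reg_main (h k : R) (hh : h ≠ 0) (hk : k ≠ 0) (H : ∀ c, k ∣ c * h → k ∣ c) (t : ℕ)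
    (b A A' : R) (e : b * (h * k) ^ t = h ^ (t + 1) * A + k ^ (t + 1) * A') :
    ∃ x y, b = h * x + k * y := by
  have h1 : k ^ t ∣ A * h ^ (t + 1) := by
    refine ⟨b * h ^ t - k * A', ?_⟩
    rw [mul_pow] at e
    linear_combination -e
  obtain ⟨A1, rfl⟩ := pow_dvd_left h k hk H (t + 1) t A h1
  have e2 : b * h ^ t = h ^ (t + 1) * A1 + k * A' := by
    apply mul_right_cancel₀ (pow_ne_zero t hk)
    rw [mul_pow] at e
    linear_combination e
  have h2 : h ^ t ∣ A' * k ^ 1 := ⟨b - h * A1, by rw [pow_one]; linear_combination -e2⟩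
  obtain ⟨A2, rfl⟩ := pow_dvd_left k h hh (swap h k hk H) 1 t A' h2
  refine ⟨A1, A2, ?_⟩
  apply mul_right_cancel₀ (pow_ne_zero t hh)
  linear_combination e2

end Reg

variable {σ : Type}

theorem coe_sub' (a b : MvPolynomial σ ℂ) :
    ((a - b : MvPolynomial σ ℂ) : MvPowerSeries σ ℂ) = (a : MvPowerSeries σ ℂ) - b :=
  map_sub (MvPolynomial.coeToMvPowerSeries.ringHom : MvPolynomial σ ℂ →+* MvPowerSeries σ ℂ) a b

theorem coe_nat' (n : ℕ) :
    (((n : MvPolynomial σ ℂ)) : MvPowerSeries σ ℂ) = (n : MvPowerSeries σ ℂ) :=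
  map_natCast (MvPolynomial.coeToMvPowerSeries.ringHom :
    MvPolynomial σ ℂ →+* MvPowerSeries σ ℂ) n

theorem coe_neg_one' : (((-1 : MvPolynomial σ ℂ)) : MvPowerSeries σ ℂ) = -1 := by
  have h := map_neg (MvPolynomial.coeToMvPowerSeries.ringHom :
    MvPolynomial σ ℂ →+* MvPowerSeries σ ℂ) 1
  rw [map_one] at h
  exact h

/-- the derivative of the coefficients -/
theorem exists_dc (i : σ) (p : Polynomial (MvPolynomial σ ℂ)) :
    ∃ p' : Polynomial (MvPolynomial σ ℂ), (∀ n : ℕ,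
      pderiv i (p.eval (n : MvPolynomial σ ℂ)) = p'.eval (n : MvPolynomial σ ℂ)) ∧
      ∀ n, p'.coeff n = pderiv i (p.coeff n) := by
  induction p using Polynomial.induction_on' with
  | add p q hp hq =>
    obtain ⟨p', hp, hp'⟩ := hp
    obtain ⟨q', hq, hq'⟩ := hq
    refine ⟨p' + q', fun n => by rw [Polynomial.eval_add, map_add, hp, hq, Polynomial.eval_add],
      fun n => by rw [Polynomial.coeff_add, Polynomial.coeff_add, map_add, hp', hq']⟩
  | monomial m a =>
    refine ⟨Polynomial.monomial m (pderiv i a), fun n => ?_, fun n => ?_⟩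
    · rw [Polynomial.eval_monomial, Polynomial.eval_monomial, ← Nat.cast_pow, mul_comm, mul_comm _
        (((n ^ m : ℕ)) : MvPolynomial σ ℂ), ← nsmul_eq_mul, ← nsmul_eq_mul]
      exact map_nsmul (pderiv i) _ _
    · rw [Polynomial.coeff_monomial, Polynomial.coeff_monomial]
      split_ifs
      · rfl
      · rw [map_zero]

/-- the sequences `g n = r(n) F ^ (n - K)`, with the conditions on `r(0)` and `r'(0)` -/
def GoodK (F : MvPolynomial σ ℂ) (h k : MvPowerSeries σ ℂ) (K : ℕ)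
    (g : ℕ → MvPolynomial σ ℂ) : Prop :=
  ∃ (r : Polynomial (MvPolynomial σ ℂ)) (c α β : MvPowerSeries σ ℂ),
    (∀ n : ℕ, F ^ K * g n = r.eval (n : MvPolynomial σ ℂ) * F ^ n) ∧
    ((r.coeff 0 : MvPolynomial σ ℂ) : MvPowerSeries σ ℂ) = (h * k) ^ K * c ∧
    ((r.coeff 1 : MvPolynomial σ ℂ) : MvPowerSeries σ ℂ) = h ^ K * α + k ^ K * β

theorem goodK_raise (F : MvPolynomial σ ℂ) (h k : MvPowerSeries σ ℂ)
    (hF : (F : MvPowerSeries σ ℂ) = h * k) (K L : ℕ) (hKL : K ≤ L) (g : ℕ → MvPolynomial σ ℂ)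
    (hg : GoodK F h k K g) : GoodK F h k L g := by
  obtain ⟨j, rfl⟩ := Nat.exists_eq_add_of_le hKL
  obtain ⟨r, c, α, β, h1, h2, h3⟩ := hg
  refine ⟨Polynomial.C (F ^ j) * r, c, k ^ j * α, h ^ j * β, fun n => ?_, ?_, ?_⟩
  · rw [Polynomial.eval_mul, Polynomial.eval_C, pow_add]
    linear_combination F ^ j * h1 n
  · rw [Polynomial.coeff_C_mul, MvPolynomial.coe_mul, MvPolynomial.coe_pow, hF, h2, pow_add]
    ring
  · rw [Polynomial.coeff_C_mul, MvPolynomial.coe_mul, MvPolynomial.coe_pow, hF, h3, pow_add,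
      pow_add, mul_pow]
    ring

/-- the derivation of formal power series -/
theorem goodK_D (F : MvPolynomial σ ℂ) (h k : MvPowerSeries σ ℂ)
    (hF : (F : MvPowerSeries σ ℂ) = h * k) (K : ℕ) (g : ℕ → MvPolynomial σ ℂ)
    (hg : GoodK F h k K g) (i : σ) : GoodK F h k (K + 1) (fun n => pderiv i (g n)) := by
  obtain ⟨r, c, α, β, h1, h2, h3⟩ := hg
  obtain ⟨p', hp', hc'⟩ := exists_dc i r
  obtain ⟨D, hD⟩ : ∃ D : Derivation ℂ (MvPowerSeries σ ℂ) (MvPowerSeries σ ℂ),
      D = MvPowerSeries.pderiv ℂ i := ⟨_, rfl⟩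
  have hco : ∀ a : MvPolynomial σ ℂ, ((pderiv i a : MvPolynomial σ ℂ) : MvPowerSeries σ ℂ) =
      D (a : MvPowerSeries σ ℂ) := fun a => by
    rw [hD, MvPowerSeries.pderiv_coe]
  have hDF : ((pderiv i F : MvPolynomial σ ℂ) : MvPowerSeries σ ℂ) = h * D k + k * D h := by
    rw [hco, hF, Derivation.leibniz, smul_eq_mul, smul_eq_mul]
  have hpw : ∀ (a : MvPowerSeries σ ℂ), a * ((K : MvPowerSeries σ ℂ) * a ^ (K - 1)) =
      (K : MvPowerSeries σ ℂ) * a ^ K := by
    intro a
    rcases K with _ | m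
    · simp
    · rw [Nat.add_sub_cancel, pow_succ]; ring
  have hDp : ∀ (a : MvPowerSeries σ ℂ), D (a ^ K) = (K : MvPowerSeries σ ℂ) * a ^ (K - 1) * D a := by
    intro a
    rw [Derivation.leibniz_pow, smul_eq_mul, nsmul_eq_mul, mul_assoc]
  refine ⟨Polynomial.C F * p' + Polynomial.X * (r * Polynomial.C (pderiv i F)) -
      Polynomial.C ((K : MvPolynomial σ ℂ) * pderiv i F) * r, D c,
      k * D α - (K : MvPowerSeries σ ℂ) * D k * α + k ^ K * c * D k,
      h * D β - (K : MvPowerSeries σ ℂ) * D h * β + h ^ K * c * D h, fun n => ?_, ?_, ?_⟩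
  · have h4 := congrArg (pderiv i) (h1 n)
    rw [Derivation.leibniz, Derivation.leibniz, Derivation.leibniz_pow, Derivation.leibniz_pow,
      smul_eq_mul, smul_eq_mul, hp', smul_eq_mul, smul_eq_mul, smul_eq_mul, smul_eq_mul,
      nsmul_eq_mul, nsmul_eq_mul] at h4
    have h5 : ∀ m : ℕ, F * ((m : MvPolynomial σ ℂ) * F ^ (m - 1)) = m * F ^ m := by
      intro m
      rcases m with _ | m
      · simp
      · rw [Nat.add_sub_cancel, pow_succ]; ring
    change F ^ (K + 1) * pderiv i (g n) = _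
    rw [Polynomial.eval_sub, Polynomial.eval_add, Polynomial.eval_mul, Polynomial.eval_mul,
      Polynomial.eval_mul, Polynomial.eval_mul, Polynomial.eval_C, Polynomial.eval_C,
      Polynomial.eval_C, Polynomial.eval_X, pow_succ]
    linear_combination F * h4 + (r.eval (n : MvPolynomial σ ℂ) * pderiv i F) * h5 n -
      g n * pderiv i F * h5 K - (K : MvPolynomial σ ℂ) * pderiv i F * h1 n
  · rw [Polynomial.coeff_sub, Polynomial.coeff_add, Polynomial.coeff_C_mul,
      Polynomial.coeff_X_mul_zero, Polynomial.coeff_C_mul, hc', add_zero, coe_sub',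
      MvPolynomial.coe_mul, MvPolynomial.coe_mul, MvPolynomial.coe_mul, hco (r.coeff 0), h2,
      Derivation.leibniz, hDp, hF, smul_eq_mul, smul_eq_mul, hco F, hF]
    have h6 : (((K : MvPolynomial σ ℂ)) : MvPowerSeries σ ℂ) = (K : MvPowerSeries σ ℂ) :=
      coe_nat' K
    rw [h6]
    linear_combination (c * D (h * k)) * hpw (h * k)
  · rw [Polynomial.coeff_sub, Polynomial.coeff_add, Polynomial.coeff_C_mul,
      show (1 : ℕ) = 0 + 1 from rfl, Polynomial.coeff_X_mul, Polynomial.coeff_mul_C,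
      Polynomial.coeff_C_mul, hc', zero_add, coe_sub', MvPolynomial.coe_add,
      MvPolynomial.coe_mul, MvPolynomial.coe_mul, MvPolynomial.coe_mul, MvPolynomial.coe_mul,
      hco (r.coeff 1), h3, h2, hDF, hF, map_add, Derivation.leibniz, Derivation.leibniz, hDp, hDp,
      smul_eq_mul, smul_eq_mul, smul_eq_mul, smul_eq_mul]
    have h6 : (((K : MvPolynomial σ ℂ)) : MvPowerSeries σ ℂ) = (K : MvPowerSeries σ ℂ) :=
      coe_nat' K
    rw [h6, mul_pow]
    linear_combination (k * α * D h) * hpw h + (h * β * D k) * hpw k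

theorem good_act (F : MvPolynomial σ ℂ) (h k : MvPowerSeries σ ℂ)
    (hF : (F : MvPowerSeries σ ℂ) = h * k) (Q : Module.End ℂ (MvPolynomial σ ℂ))
    (hQ : Q ∈ Pool.Agent.H628R4.TP.weylS σ) :
    ∀ g : ℕ → MvPolynomial σ ℂ, (∃ K, GoodK F h k K g) → ∃ K, GoodK F h k K fun n => Q (g n) := by
  classical
  induction hQ using Algebra.adjoin_induction with
  | mem Q hQ =>
    intro g hg
    obtain ⟨K, hg⟩ := hg
    rcases hQ with ⟨i, rfl⟩ | ⟨i, rfl⟩
    · obtain ⟨r, c, α, β, h1, h2, h3⟩ := hg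
      refine ⟨K, Polynomial.C (X i) * r, (X i : MvPolynomial σ ℂ) * c,
        (X i : MvPolynomial σ ℂ) * α, (X i : MvPolynomial σ ℂ) * β, fun n => ?_, ?_, ?_⟩
      · change F ^ K * (X i * g n) = _
        rw [Polynomial.eval_mul, Polynomial.eval_C]
        linear_combination X i * h1 n
      · rw [Polynomial.coeff_C_mul, MvPolynomial.coe_mul, h2]
        ring
      · rw [Polynomial.coeff_C_mul, MvPolynomial.coe_mul, h3]
        ring
    · exact ⟨K + 1, goodK_D F h k hF K g hg i⟩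
  | algebraMap a =>
    intro g hg
    obtain ⟨K, r, c, α, β, h1, h2, h3⟩ := hg
    refine ⟨K, Polynomial.C (C a) * r, (C a : MvPolynomial σ ℂ) * c,
      (C a : MvPolynomial σ ℂ) * α, (C a : MvPolynomial σ ℂ) * β, fun n => ?_, ?_, ?_⟩
    · change F ^ K * (a • g n) = _
      rw [Polynomial.eval_mul, Polynomial.eval_C, ← C_mul']
      linear_combination C a * h1 n
    · rw [Polynomial.coeff_C_mul, MvPolynomial.coe_mul, h2]
      ring
    · rw [Polynomial.coeff_C_mul, MvPolynomial.coe_mul, h3]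
      ring
  | add Q1 Q2 _ _ h1 h2 =>
    intro g hg
    obtain ⟨K1, h1⟩ := h1 g hg
    obtain ⟨K2, h2⟩ := h2 g hg
    obtain ⟨r, c, α, β, a1, a2, a3⟩ := goodK_raise F h k hF K1 (K1 + K2) (by omega) _ h1
    obtain ⟨r', c', α', β', b1, b2, b3⟩ := goodK_raise F h k hF K2 (K1 + K2) (by omega) _ h2
    refine ⟨K1 + K2, r + r', c + c', α + α', β + β', fun n => ?_, ?_, ?_⟩
    · change F ^ (K1 + K2) * (Q1 (g n) + Q2 (g n)) = _
      rw [Polynomial.eval_add]
      linear_combination a1 n + b1 n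
    · rw [Polynomial.coeff_add, MvPolynomial.coe_add, a2, b2]
      ring
    · rw [Polynomial.coeff_add, MvPolynomial.coe_add, a3, b3]
      ring
  | mul Q1 Q2 _ _ h1 h2 =>
    intro g hg
    exact h1 _ (h2 g hg)

end ModRED

open ModRED MvPolynomial Pool.Agent.W574.SM Pool.Agent.Y230.TL in
theorem red : StmRED := by
  classical
  intro σ F h k hF0 hF hh hk hreg B P hP
  have hdom : IsDomain (MvPowerSeries σ ℂ) := NoZeroDivisors.to_isDomain _
  have hFne : (F : MvPowerSeries σ ℂ) ≠ 0 := by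
    intro h0
    apply hF0
    have : (F : MvPowerSeries σ ℂ) = ((0 : MvPolynomial σ ℂ) : MvPowerSeries σ ℂ) := by
      rw [h0, MvPolynomial.coe_zero]
    exact MvPolynomial.coe_injective σ ℂ this
  have hh0 : h ≠ 0 := by
    rintro rfl
    rw [zero_mul] at hF
    exact hFne hF
  have hk0 : k ≠ 0 := by
    rintro rfl
    rw [mul_zero] at hF
    exact hFne hF
  have hpow : GoodK F h k 0 fun n => F ^ n := by
    refine ⟨1, 1, 0, 0, fun n => by simp, ?_, ?_⟩
    · rw [Polynomial.coeff_one_zero, MvPolynomial.coe_one, pow_zero, one_mul]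
    · rw [Polynomial.coeff_one, if_neg (by norm_num), MvPolynomial.coe_zero]
      ring
  have h1 : ∀ m : ℕ, ∃ K, GoodK F h k K fun n =>
      (P m : Module.End ℂ (MvPolynomial σ ℂ)) (F ^ n) := fun m =>
    good_act F h k hF (P m).1 (P m).2 _ ⟨0, hpow⟩
  choose Km hKm using h1
  obtain ⟨t, ht⟩ : ∃ t : ℕ, t = ∑ m ∈ P.support, Km m := ⟨_, rfl⟩
  have hle : ∀ m ∈ P.support, Km m ≤ t + 1 := fun m hm => by
    have := Finset.single_le_sum (f := Km) (fun _ _ => Nat.zero_le _) hm
    omega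
  have h2 : ∀ m : ℕ, ∃ (r : Polynomial (MvPolynomial σ ℂ)) (c α β : MvPowerSeries σ ℂ),
      m ∈ P.support →
      (∀ n : ℕ, F ^ (t + 1) * (P m : Module.End ℂ (MvPolynomial σ ℂ)) (F ^ n) =
        r.eval (n : MvPolynomial σ ℂ) * F ^ n) ∧
      ((r.coeff 0 : MvPolynomial σ ℂ) : MvPowerSeries σ ℂ) = (h * k) ^ (t + 1) * c ∧
      ((r.coeff 1 : MvPolynomial σ ℂ) : MvPowerSeries σ ℂ) =
        h ^ (t + 1) * α + k ^ (t + 1) * β := by
    intro m
    by_cases hm : m ∈ P.support
    · obtain ⟨r, c, α, β, h3⟩ := goodK_raise F h k hF _ (t + 1) (hle m hm) _ (hKm m)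
      exact ⟨r, c, α, β, fun _ => h3⟩
    · exact ⟨0, 0, 0, 0, fun h => absurd h hm⟩
  choose r c α β hr using h2
  set G : Polynomial (MvPolynomial σ ℂ) := (Polynomial.X + 1) * B * Polynomial.C (F ^ t) -
    ∑ m ∈ P.support, Polynomial.X ^ m * (r m).comp (Polynomial.X + 1) with hG
  have hG0 : G = 0 := by
    apply Pool.Agent.Y21.TH.poly_zero
    intro n
    have hne : F ^ (n + 1) ≠ 0 := pow_ne_zero _ hF0
    apply mul_right_cancel₀ hne
    have h3 := hP n
    rw [Finsupp.sum, smul_eq_C_mul] at h3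
    have h4 : (C ((n : ℂ) + 1) : MvPolynomial σ ℂ) = (n : MvPolynomial σ ℂ) + 1 := by simp
    rw [h4] at h3
    have h5 : F ^ (t + 1) * ∑ m ∈ P.support, ((n : ℂ) ^ m) •
        (P m : Module.End ℂ (MvPolynomial σ ℂ)) (F ^ (n + 1)) =
        (∑ m ∈ P.support, (n : MvPolynomial σ ℂ) ^ m *
          (r m).eval ((n : MvPolynomial σ ℂ) + 1)) * F ^ (n + 1) := by
      rw [Finset.mul_sum, Finset.sum_mul]
      refine Finset.sum_congr rfl fun m hm => ?_
      have h6 := (hr m hm).1 (n + 1)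
      rw [Nat.cast_add, Nat.cast_one] at h6
      have h7 : ((n : ℂ) ^ m) • (P m : Module.End ℂ (MvPolynomial σ ℂ)) (F ^ (n + 1)) =
          (n : MvPolynomial σ ℂ) ^ m *
            (P m : Module.End ℂ (MvPolynomial σ ℂ)) (F ^ (n + 1)) := by
        rw [smul_eq_C_mul, map_pow, map_natCast]
      rw [h7]
      linear_combination (n : MvPolynomial σ ℂ) ^ m * h6
    rw [← h3] at h5
    rw [hG, zero_mul]
    simp only [Polynomial.eval_sub, Polynomial.eval_mul, Polynomial.eval_add, Polynomial.eval_X,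
      Polynomial.eval_one, Polynomial.eval_C, Polynomial.eval_finsetSum, Polynomial.eval_pow,
      Polynomial.eval_comp]
    linear_combination h5
  have hD := congrArg (fun p : Polynomial (MvPolynomial σ ℂ) =>
    (Polynomial.derivative p).eval (-1)) hG0
  beta_reduce at hD
  rw [hG, Polynomial.derivative_zero, Polynomial.eval_zero, Polynomial.derivative_sub,
    Polynomial.eval_sub, Polynomial.derivative_sum, Polynomial.eval_finsetSum] at hD
  have hD1 : (Polynomial.derivative ((Polynomial.X + 1) * B *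
      Polynomial.C (F ^ t))).eval (-1) = B.eval (-1) * F ^ t := by
    rw [Polynomial.derivative_mul, Polynomial.derivative_mul, Polynomial.derivative_C]
    simp
  have hD2 : ∀ m ∈ P.support, (Polynomial.derivative (Polynomial.X ^ m *
      (r m).comp (Polynomial.X + 1))).eval (-1) =
      (m : MvPolynomial σ ℂ) * (-1) ^ (m - 1) * (r m).coeff 0 + (-1) ^ m * (r m).coeff 1 := by
    intro m _
    have h6 : (r m).derivative.eval 0 = (r m).coeff 1 := by
      rw [← Polynomial.coeff_zero_eq_eval_zero, Polynomial.coeff_derivative]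
      simp
    rw [Polynomial.derivative_mul, Polynomial.derivative_X_pow, Polynomial.derivative_comp]
    simp only [Polynomial.eval_add, Polynomial.eval_mul, Polynomial.eval_comp,
      Polynomial.eval_pow, Polynomial.eval_X, Polynomial.eval_one, Polynomial.eval_C,
      Polynomial.derivative_add, Polynomial.derivative_X, Polynomial.derivative_one,
      neg_add_cancel, add_zero, h6, Polynomial.coeff_zero_eq_eval_zero]
    ring
  rw [hD1, Finset.sum_congr rfl hD2, sub_eq_zero] at hD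
  have hps := congrArg (fun p : MvPolynomial σ ℂ => (p : MvPowerSeries σ ℂ)) hD
  beta_reduce at hps
  have hsum : ((∑ m ∈ P.support, ((m : MvPolynomial σ ℂ) * (-1) ^ (m - 1) * (r m).coeff 0 +
      (-1) ^ m * (r m).coeff 1) : MvPolynomial σ ℂ) : MvPowerSeries σ ℂ) =
      h ^ (t + 1) * (∑ m ∈ P.support, ((m : MvPowerSeries σ ℂ) * (-1) ^ (m - 1) *
        k ^ (t + 1) * c m + (-1) ^ m * α m)) + k ^ (t + 1) * ∑ m ∈ P.support, (-1) ^ m * β m := by
    have e0 : ∀ (s : Finset ℕ) (p : ℕ → MvPolynomial σ ℂ),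
        ((∑ m ∈ s, p m : MvPolynomial σ ℂ) : MvPowerSeries σ ℂ) =
          ∑ m ∈ s, ((p m : MvPolynomial σ ℂ) : MvPowerSeries σ ℂ) := fun s p =>
      map_sum (MvPolynomial.coeToMvPowerSeries.ringHom : MvPolynomial σ ℂ →+* MvPowerSeries σ ℂ)
        p s
    rw [e0, Finset.mul_sum, Finset.mul_sum, ← Finset.sum_add_distrib]
    refine Finset.sum_congr rfl fun m hm => ?_
    obtain ⟨-, h7, h8⟩ := hr m hm
    have e1 : (((m : MvPolynomial σ ℂ)) : MvPowerSeries σ ℂ) = (m : MvPowerSeries σ ℂ) :=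
      coe_nat' m
    have e2 : (((-1 : MvPolynomial σ ℂ)) : MvPowerSeries σ ℂ) = -1 := coe_neg_one'
    rw [MvPolynomial.coe_add, MvPolynomial.coe_mul, MvPolynomial.coe_mul, MvPolynomial.coe_mul,
      MvPolynomial.coe_pow, MvPolynomial.coe_pow, e1, e2, h7, h8, mul_pow]
    ring
  rw [hsum, MvPolynomial.coe_mul, MvPolynomial.coe_pow, hF] at hps
  obtain ⟨x, y, hxy⟩ := reg_main h k hh0 hk0 hreg t _ _ _ hps
  have hcc : MvPowerSeries.constantCoeff (((B.eval (-1) : MvPolynomial σ ℂ)) :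
      MvPowerSeries σ ℂ) = 0 := by
    rw [hxy, map_add, map_mul, map_mul, hh, hk]
    ring
  have h9 : (C (-1) : MvPolynomial σ ℂ) = -1 := by simp
  rw [h9]
  change eval (0 : σ → ℂ) _ = 0
  rw [MvPolynomial.eval_zero]
  have h10 : MvPowerSeries.constantCoeff (((B.eval (-1) : MvPolynomial σ ℂ)) :
      MvPowerSeries σ ℂ) = constantCoeff (B.eval (-1)) := by
    rw [← MvPowerSeries.coeff_zero_eq_constantCoeff_apply, MvPolynomial.coeff_coe]
    rfl
  rw [← h10]
  exact hcc

end Pool.Agent.T6.H56.TSG
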