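import Pool.Agent.T6.H56.TSG.Stm

set_option autoImplicit false
set_option linter.unusedSectionVars false

/-! # Units (module UNI) -/

namespace Pool.Agent.T6.H56.TSG

namespace ModUNI

open MvPolynomial
open Pool.Agent.W574.SM (weyl)
open Pool.Agent.W574.RO (mulLeft_memW)
open Pool.Agent.W574.HS (act_pow Seq)
open Pool.Agent.Y230.TL (RE RF)

variable {σ : Type}

/-- the functions `n ↦ ∑ n ^ j Q_j` with `Q_j` in the Weyl algebra -/
noncomputable def Sp (σ : Type) : Submodule ℂ (ℕ → Module.End ℂ (MvPolynomial σ ℂ)) :=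
  Submodule.span ℂ {f | ∃ (j : ℕ) (Q : weyl σ), f = fun n : ℕ =>
    ((n : ℂ) ^ j) • (Q : Module.End ℂ (MvPolynomial σ ℂ))}

theorem gen_mem (j : ℕ) (Q : Module.End ℂ (MvPolynomial σ ℂ)) (hQ : Q ∈ weyl σ) :
    (fun n : ℕ => ((n : ℂ) ^ j) • Q) ∈ Sp σ :=
  Submodule.subset_span ⟨j, ⟨Q, hQ⟩, rfl⟩

theorem const_mem (Q : Module.End ℂ (MvPolynomial σ ℂ)) (hQ : Q ∈ weyl σ) :
    (fun _ : ℕ => Q) ∈ Sp σ := by
  have := gen_mem 0 Q hQ
  simpa using this

theorem mul_mem1 (j : ℕ) (Q : weyl σ) {g : ℕ → Module.End ℂ (MvPolynomial σ ℂ)}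
    (hg : g ∈ Sp σ) : (fun n : ℕ => (((n : ℂ) ^ j) •
      (Q : Module.End ℂ (MvPolynomial σ ℂ))) * g n) ∈ Sp σ := by
  unfold Sp at hg
  induction hg using Submodule.span_induction with
  | mem g hg =>
    obtain ⟨i, R, rfl⟩ := hg
    have h1 := gen_mem (j + i) ((Q : Module.End ℂ (MvPolynomial σ ℂ)) *
      (R : Module.End ℂ (MvPolynomial σ ℂ))) ((weyl σ).mul_mem Q.2 R.2)
    have h2 : (fun n : ℕ => (((n : ℂ) ^ j) • (Q : Module.End ℂ (MvPolynomial σ ℂ))) *
        (((n : ℂ) ^ i) • (R : Module.End ℂ (MvPolynomial σ ℂ)))) =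
        fun n : ℕ => ((n : ℂ) ^ (j + i)) • ((Q : Module.End ℂ (MvPolynomial σ ℂ)) *
          (R : Module.End ℂ (MvPolynomial σ ℂ))) := by
      funext n
      rw [smul_mul_smul_comm, pow_add]
    rw [h2]
    exact h1
  | zero =>
    have h2 : (fun n : ℕ => (((n : ℂ) ^ j) • (Q : Module.End ℂ (MvPolynomial σ ℂ))) *
        (0 : ℕ → Module.End ℂ (MvPolynomial σ ℂ)) n) = 0 := by
      funext n
      rw [Pi.zero_apply, mul_zero]
    rw [h2]
    exact (Sp σ).zero_mem
  | add a b _ _ ha hb =>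
    have h2 : (fun n : ℕ => (((n : ℂ) ^ j) • (Q : Module.End ℂ (MvPolynomial σ ℂ))) *
        (a + b) n) = (fun n : ℕ => (((n : ℂ) ^ j) • (Q : Module.End ℂ (MvPolynomial σ ℂ))) *
        a n) + (fun n : ℕ => (((n : ℂ) ^ j) • (Q : Module.End ℂ (MvPolynomial σ ℂ))) * b n) := by
      funext n
      rw [Pi.add_apply, Pi.add_apply, mul_add]
    rw [h2]
    exact (Sp σ).add_mem ha hb
  | smul c a _ ha =>
    have h2 : (fun n : ℕ => (((n : ℂ) ^ j) • (Q : Module.End ℂ (MvPolynomial σ ℂ))) *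
        (c • a) n) = c • (fun n : ℕ => (((n : ℂ) ^ j) • (Q : Module.End ℂ (MvPolynomial σ ℂ))) *
        a n) := by
      funext n
      rw [Pi.smul_apply, Pi.smul_apply, mul_smul_comm]
    rw [h2]
    exact (Sp σ).smul_mem c ha

theorem mul_mem {f g : ℕ → Module.End ℂ (MvPolynomial σ ℂ)} (hf : f ∈ Sp σ) (hg : g ∈ Sp σ) :
    (fun n => f n * g n) ∈ Sp σ := by
  unfold Sp at hf
  induction hf using Submodule.span_induction with
  | mem f hf =>
    obtain ⟨j, Q, rfl⟩ := hf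
    exact mul_mem1 j Q hg
  | zero =>
    have h2 : (fun n : ℕ => (0 : ℕ → Module.End ℂ (MvPolynomial σ ℂ)) n * g n) = 0 := by
      funext n
      rw [Pi.zero_apply, zero_mul]
    rw [h2]
    exact (Sp σ).zero_mem
  | add a b _ _ ha hb =>
    have h2 : (fun n : ℕ => (a + b) n * g n) = (fun n => a n * g n) + (fun n => b n * g n) := by
      funext n
      rw [Pi.add_apply, Pi.add_apply, add_mul]
    rw [h2]
    exact (Sp σ).add_mem ha hb
  | smul c a _ ha =>
    have h2 : (fun n : ℕ => (c • a) n * g n) = c • (fun n => a n * g n) := by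
      funext n
      rw [Pi.smul_apply, Pi.smul_apply, smul_mul_assoc]
    rw [h2]
    exact (Sp σ).smul_mem c ha

theorem lin_mem (a : ℂ) (j : ℕ) : (fun n : ℕ => (((n : ℂ) + a) ^ j) •
    (1 : Module.End ℂ (MvPolynomial σ ℂ))) ∈ Sp σ := by
  induction j with
  | zero =>
    have := const_mem (1 : Module.End ℂ (MvPolynomial σ ℂ)) (weyl σ).one_mem
    simpa using this
  | succ j ih =>
    have h1 : (fun n : ℕ => ((n : ℂ) + a) • (1 : Module.End ℂ (MvPolynomial σ ℂ))) ∈ Sp σ := by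
      have h2 := (Sp σ).add_mem (gen_mem 1 (1 : Module.End ℂ (MvPolynomial σ ℂ)) (weyl σ).one_mem)
        ((Sp σ).smul_mem a (const_mem (1 : Module.End ℂ (MvPolynomial σ ℂ)) (weyl σ).one_mem))
      convert h2 using 1
      funext n
      simp only [Pi.add_apply, Pi.smul_apply, pow_one, add_smul]
    convert mul_mem ih h1 using 2 with n
    rw [smul_mul_smul_comm, one_mul, pow_succ]

theorem shift_mem {f : ℕ → Module.End ℂ (MvPolynomial σ ℂ)} (hf : f ∈ Sp σ) (M : ℕ) :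
    (fun n => f (n + M)) ∈ Sp σ := by
  refine Submodule.span_induction (p := fun f _ => (fun n => f (n + M)) ∈ Sp σ) ?_ ?_ ?_ ?_ hf
  · rintro _ ⟨j, Q, rfl⟩
    convert mul_mem (lin_mem (σ := σ) (M : ℂ) j) (const_mem Q.1 Q.2) using 2 with n
    rw [smul_mul_assoc, one_mul]
    push_cast
    rfl
  · exact (Sp σ).zero_mem
  · intro a b _ _ ha hb
    exact (Sp σ).add_mem ha hb
  · intro c a _ ha
    exact (Sp σ).smul_mem c ha

theorem unshift {f : ℕ → Module.End ℂ (MvPolynomial σ ℂ)} (hf : f ∈ Sp σ) (M : ℕ) :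
    ∃ g ∈ Sp σ, ∀ n, g (n + M) = f n := by
  refine Submodule.span_induction (p := fun f _ => ∃ g ∈ Sp σ, ∀ n, g (n + M) = f n)
    ?_ ?_ ?_ ?_ hf
  · rintro _ ⟨j, Q, rfl⟩
    refine ⟨_, mul_mem (lin_mem (σ := σ) (-(M : ℂ)) j) (const_mem Q.1 Q.2), fun n => ?_⟩
    rw [smul_mul_assoc, one_mul]
    push_cast
    rw [add_neg_cancel_right]
  · exact ⟨0, (Sp σ).zero_mem, fun n => rfl⟩
  · rintro a b _ _ ⟨g, hg, h1⟩ ⟨g', hg', h2⟩
    refine ⟨g + g', (Sp σ).add_mem hg hg', fun n => ?_⟩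
    rw [Pi.add_apply, Pi.add_apply, h1, h2]
  · rintro c a _ ⟨g, hg, h1⟩
    refine ⟨c • g, (Sp σ).smul_mem c hg, fun n => ?_⟩
    rw [Pi.smul_apply, Pi.smul_apply, h1]

theorem sum_mem {κ : Type} (s : Finset κ) (f : κ → ℕ → Module.End ℂ (MvPolynomial σ ℂ))
    (hf : ∀ i ∈ s, f i ∈ Sp σ) : (fun n => ∑ i ∈ s, f i n) ∈ Sp σ := by
  have := (Sp σ).sum_mem hf
  convert this using 1
  funext n
  rw [Finset.sum_apply]

/-- Step 1 -/
theorem step1 (U : MvPolynomial σ ℂ) (Q : Module.End ℂ (MvPolynomial σ ℂ)) (hQ : Q ∈ weyl σ) :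
    ∃ M : ℕ, ∃ f ∈ Sp σ, ∀ (n : ℕ) (v : MvPolynomial σ ℂ), Q (U ^ (n + M) * v) = U ^ n * f n v := by
  classical
  induction hQ using Algebra.adjoin_induction with
  | mem Q hQ =>
    rcases hQ with ⟨i, rfl⟩ | ⟨i, rfl⟩
    · refine ⟨0, _, const_mem _ (mulLeft_memW (X i)), fun n v => ?_⟩
      rw [LinearMap.mulLeft_apply, LinearMap.mulLeft_apply, add_zero]
      ring
    · have hd : (((pderiv i : Derivation ℂ (MvPolynomial σ ℂ)
        (MvPolynomial σ ℂ)) : MvPolynomial σ ℂ →ₗ[ℂ] MvPolynomial σ ℂ) :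
          Module.End ℂ (MvPolynomial σ ℂ)) ∈ weyl σ :=
        Algebra.subset_adjoin (Or.inr ⟨i, rfl⟩)
      refine ⟨1, _, (Sp σ).add_mem (const_mem _ ((weyl σ).mul_mem (mulLeft_memW U) hd))
        (mul_mem (lin_mem (σ := σ) 1 1) (const_mem _ (mulLeft_memW (pderiv i U)))),
        fun n v => ?_⟩
      rw [Pi.add_apply, LinearMap.add_apply, Module.End.mul_apply, LinearMap.mulLeft_apply,
        pow_one, smul_mul_assoc, one_mul, LinearMap.smul_apply, LinearMap.mulLeft_apply]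
      change pderiv i (U ^ (n + 1) * v) = U ^ n * (U * pderiv i v + _)
      rw [Derivation.leibniz, Derivation.leibniz_pow, Nat.add_sub_cancel, smul_eq_mul, smul_eq_mul,
        nsmul_eq_mul, smul_eq_mul, smul_eq_C_mul, map_add, map_one, map_natCast]
      push_cast
      ring
  | algebraMap c =>
    refine ⟨0, _, const_mem _ ((weyl σ).algebraMap_mem c), fun n v => ?_⟩
    rw [Module.algebraMap_end_apply, Module.algebraMap_end_apply, add_zero, mul_smul_comm]
  | add Q1 Q2 _ _ h1 h2 =>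
    obtain ⟨M1, f1, hf1, e1⟩ := h1
    obtain ⟨M2, f2, hf2, e2⟩ := h2
    refine ⟨M1 + M2, _, (Sp σ).add_mem
      (mul_mem (const_mem _ (mulLeft_memW (U ^ M2))) (shift_mem hf1 M2))
      (mul_mem (const_mem _ (mulLeft_memW (U ^ M1))) (shift_mem hf2 M1)), fun n v => ?_⟩
    rw [LinearMap.add_apply, Pi.add_apply, LinearMap.add_apply, Module.End.mul_apply,
      Module.End.mul_apply, LinearMap.mulLeft_apply, LinearMap.mulLeft_apply,
      show n + (M1 + M2) = (n + M2) + M1 by omega, e1,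
      show (n + M2) + M1 = (n + M1) + M2 by omega, e2, pow_add, pow_add]
    ring
  | mul Q1 Q2 _ _ h1 h2 =>
    obtain ⟨M1, f1, hf1, e1⟩ := h1
    obtain ⟨M2, f2, hf2, e2⟩ := h2
    refine ⟨M1 + M2, _, mul_mem hf1 (shift_mem hf2 M1), fun n v => ?_⟩
    rw [Module.End.mul_apply, Module.End.mul_apply, ← add_assoc, e2, e1]

/-- The form of the equations `RE`. -/
theorem toP {f : ℕ → Module.End ℂ (MvPolynomial σ ℂ)} (hf : f ∈ Sp σ) :
    ∃ P : ℕ →₀ weyl σ, ∀ (k : ℕ) (v : MvPolynomial σ ℂ), f k v =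
      P.sum fun m Q => ((k : ℂ) ^ m) • (Q : Module.End ℂ (MvPolynomial σ ℂ)) v := by
  classical
  refine Submodule.span_induction (p := fun f _ => ∃ P : ℕ →₀ weyl σ,
    ∀ (k : ℕ) (v : MvPolynomial σ ℂ), f k v =
      P.sum fun m Q => ((k : ℂ) ^ m) • (Q : Module.End ℂ (MvPolynomial σ ℂ)) v) ?_ ?_ ?_ ?_ hf
  · rintro _ ⟨j, Q, rfl⟩
    refine ⟨Finsupp.single j Q, fun k v => ?_⟩
    rw [Finsupp.sum_single_index]
    · rfl
    · rw [ZeroMemClass.coe_zero, LinearMap.zero_apply, smul_zero]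
  · exact ⟨0, fun k v => by rw [Finsupp.sum_zero_index]; rfl⟩
  · rintro a b _ _ ⟨P, hP⟩ ⟨P', hP'⟩
    refine ⟨P + P', fun k v => ?_⟩
    rw [Finsupp.sum_add_index', Pi.add_apply, LinearMap.add_apply, hP, hP']
    · intro m
      rw [ZeroMemClass.coe_zero, LinearMap.zero_apply, smul_zero]
    · intro m Q Q'
      rw [AddMemClass.coe_add, LinearMap.add_apply, smul_add]
  · rintro c a _ ⟨P, hP⟩
    refine ⟨c • P, fun k v => ?_⟩
    rw [Finsupp.sum_smul_index', Pi.smul_apply, LinearMap.smul_apply, hP, Finsupp.smul_sum]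
    · refine Finsupp.sum_congr fun m _ => ?_
      rw [SetLike.val_smul, LinearMap.smul_apply, smul_comm]
    · intro m
      rw [ZeroMemClass.coe_zero, LinearMap.zero_apply, smul_zero]

/-- The action on the powers. -/
theorem toR (F : MvPolynomial σ ℂ) {f : ℕ → Module.End ℂ (MvPolynomial σ ℂ)} (hf : f ∈ Sp σ) :
    ∃ (L : ℕ) (r : Polynomial (MvPolynomial σ ℂ)), ∀ k : ℕ,
      F ^ L * f k (F ^ (k + 1)) = r.eval (k : MvPolynomial σ ℂ) * F ^ (k + 1) := by
  classical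
  refine Submodule.span_induction (p := fun f _ => ∃ (L : ℕ) (r : Polynomial (MvPolynomial σ ℂ)),
    ∀ k : ℕ, F ^ L * f k (F ^ (k + 1)) = r.eval (k : MvPolynomial σ ℂ) * F ^ (k + 1))
    ?_ ?_ ?_ ?_ hf
  · rintro _ ⟨j, Q, rfl⟩
    obtain ⟨L, r, h⟩ := act_pow F Q.1 Q.2 (fun n => F ^ n) ⟨0, 1, fun n => by simp⟩
    refine ⟨L, Polynomial.X ^ j * r.comp (Polynomial.X + 1), fun k => ?_⟩
    have h1 := h (k + 1)
    rw [Polynomial.eval_mul, Polynomial.eval_pow, Polynomial.eval_X, Polynomial.eval_comp,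
      Polynomial.eval_add, Polynomial.eval_X, Polynomial.eval_one, LinearMap.smul_apply,
      smul_eq_C_mul, map_pow, map_natCast]
    push_cast at h1
    linear_combination (k : MvPolynomial σ ℂ) ^ j * h1
  · exact ⟨0, 0, fun k => by simp⟩
  · rintro a b _ _ ⟨L1, r1, h1⟩ ⟨L2, r2, h2⟩
    refine ⟨L1 + L2, Polynomial.C (F ^ L2) * r1 + Polynomial.C (F ^ L1) * r2, fun k => ?_⟩
    rw [Polynomial.eval_add, Polynomial.eval_mul, Polynomial.eval_mul, Polynomial.eval_C,
      Polynomial.eval_C, Pi.add_apply, LinearMap.add_apply, pow_add]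
    linear_combination F ^ L2 * h1 k + F ^ L1 * h2 k
  · rintro c a _ ⟨L, r, h⟩
    refine ⟨L, Polynomial.C (C c) * r, fun k => ?_⟩
    rw [Polynomial.eval_mul, Polynomial.eval_C, Pi.smul_apply, LinearMap.smul_apply, smul_eq_C_mul]
    linear_combination C c * h k

end ModUNI

open MvPolynomial in
open Pool.Agent.W574.SM (weyl) in
open Pool.Agent.W574.RO (mulLeft_memW) in
open Pool.Agent.Y230.TL (RE RF) in
open ModUNI in
theorem uni : StmUNI := by
  classical
  intro σ F U hF hU s₀ h B P hRE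
  -- the operators
  choose M0 f0 hf0 e0 using fun m : ℕ => step1 U (P m).1 (P m).2
  obtain ⟨K, hK⟩ : ∃ K : ℕ, ∀ m ∈ P.support, M0 m ≤ K :=
    ⟨∑ m ∈ P.support, M0 m, fun m hm =>
      Finset.single_le_sum (f := M0) (fun _ _ => Nat.zero_le _) hm⟩
  -- `M = K + 1`
  have hg : ∀ m ∈ P.support, ∃ g ∈ Sp σ, ∀ (n : ℕ) (v : MvPolynomial σ ℂ),
      (P m).1 (U ^ (n + (K + 1)) * v) = U ^ n * g (n + K) v := by
    intro m hm
    have hle := hK m hm
    obtain ⟨g, hg, e⟩ := unshift (mul_mem (const_mem _ (mulLeft_memW (U ^ (K + 1 - M0 m))))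
      (shift_mem (hf0 m) (K + 1 - M0 m))) K
    refine ⟨g, hg, fun n v => ?_⟩
    rw [e, Module.End.mul_apply, LinearMap.mulLeft_apply,
      show n + (K + 1) = (n + (K + 1 - M0 m)) + M0 m by omega, e0, pow_add]
    ring
  choose! g hgm hg' using hg
  obtain ⟨H, hHd⟩ : ∃ H : ℕ → Module.End ℂ (MvPolynomial σ ℂ), H = fun k : ℕ =>
      ∑ m ∈ P.support, ((k : ℂ) ^ m • (1 : Module.End ℂ (MvPolynomial σ ℂ))) * g m k := ⟨_, rfl⟩
  have hH : H ∈ Sp σ := by
    rw [hHd]
    exact sum_mem _ _ fun m hm => mul_mem (gen_mem m _ (weyl σ).one_mem) (hgm m hm)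
  have hU0 : U ≠ 0 := by
    rintro rfl
    exact hU (map_zero _)
  have h1 : ∀ n : ℕ, ((n + K : ℕ) + 1 : MvPolynomial σ ℂ) * (U ^ K *
      (B.eval ((n + K : ℕ) : MvPolynomial σ ℂ) * F ^ (n + K))) = H (n + K) (F ^ (n + K + 1)) := by
    intro n
    have h2 := hRE (n + K)
    have h3 : (P.sum fun m Q => (((n + K : ℕ) : ℂ) ^ m) •
        (Q : Module.End ℂ (MvPolynomial σ ℂ)) ((U * F) ^ (n + K + 1))) =
        U ^ n * H (n + K) (F ^ (n + K + 1)) := by
      rw [Finsupp.sum, hHd]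
      beta_reduce
      rw [LinearMap.sum_apply, Finset.mul_sum]
      refine Finset.sum_congr rfl fun m hm => ?_
      rw [smul_mul_assoc, one_mul, LinearMap.smul_apply, mul_smul_comm, mul_pow,
        show U ^ (n + K + 1) = U ^ (n + (K + 1)) by rw [add_assoc]]
      congr 1
      exact hg' m hm n _
    rw [h3, smul_eq_C_mul] at h2
    have h4 : (C ((((n + K : ℕ) : ℂ)) + 1) : MvPolynomial σ ℂ) = ((n + K : ℕ) : MvPolynomial σ ℂ) + 1 := by
      rw [map_add, map_one, map_natCast]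
    rw [h4, mul_pow] at h2
    apply mul_left_cancel₀ (pow_ne_zero n hU0)
    rw [← h2, pow_add U n K]
    ring
  obtain ⟨L, r, hr⟩ := toR F hH
  -- the identity of polynomials
  have h5 : (Polynomial.X + 1) * (Polynomial.C (U ^ K * F ^ L) * B) = r * Polynomial.C F := by
    apply Polynomial.eq_of_infinite_eval_eq
    refine Set.Infinite.mono ?_ (Set.infinite_range_of_injective
      (f := fun n : ℕ => ((n + K : ℕ) : MvPolynomial σ ℂ)) ?_)
    · rintro _ ⟨n, rfl⟩
      change Polynomial.eval _ _ = Polynomial.eval _ _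
      have h6 := hr (n + K)
      rw [← h1 n] at h6
      simp only [Polynomial.eval_mul, Polynomial.eval_add, Polynomial.eval_X, Polynomial.eval_one,
        Polynomial.eval_C]
      apply mul_left_cancel₀ (pow_ne_zero (n + K) hF)
      rw [pow_succ] at h6
      linear_combination h6
    · intro a b hab
      have := Nat.cast_injective hab
      omega
  have h6 : ∀ k : ℕ, ((k : MvPolynomial σ ℂ) + 1) * (U ^ K *
      (B.eval (k : MvPolynomial σ ℂ) * F ^ k)) = H k (F ^ (k + 1)) := by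
    intro k
    have h7 := congrArg (Polynomial.eval (k : MvPolynomial σ ℂ)) h5
    simp only [Polynomial.eval_mul, Polynomial.eval_add, Polynomial.eval_X, Polynomial.eval_one,
        Polynomial.eval_C] at h7
    apply mul_left_cancel₀ (pow_ne_zero L hF)
    rw [hr k, pow_succ]
    linear_combination F ^ k * h7
  obtain ⟨P', hP'⟩ := toP hH
  have h8 : RE F (Polynomial.C (U ^ K) * B) P' := by
    intro k
    rw [← hP', ← h6, Polynomial.eval_mul, Polynomial.eval_C, smul_eq_C_mul, map_add, map_one,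
      map_natCast, mul_assoc]
  have h9 := h _ _ h8
  rw [Polynomial.eval_mul, Polynomial.eval_C, map_mul, map_pow] at h9
  rcases mul_eq_zero.1 h9 with h10 | h10
  · exfalso
    apply hU
    have h11 := eq_zero_of_pow_eq_zero h10
    rw [← h11, MvPolynomial.eval_zero]
  · exact h10

end Pool.Agent.T6.H56.TSG
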