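import Pool.Agent.T6.H56.TSG.Fin

set_option autoImplicit false
set_option linter.unusedSectionVars false
set_option linter.unusedVariables false

/-! # Reduced forced roots of `f(x) + g(z) + c f(x) g(z)` -/

namespace Pool.Agent.T6.H56.TSG

open MvPolynomial
open Pool.Agent.Y230.TL (RE RF tA)
open Pool.Agent.T6.H26 (cor cor_mul)
open scoped TensorProduct

variable {σ κ : Type}

/-- multiplication with `b T ^ j` -/
noncomputable def sM (j : ℤ) (b : MvPolynomial σ ℂ) : L σ →ₗ[ℂ] L σ :=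
  op j fun _ => LinearMap.mulLeft ℂ b

theorem sM_single (j : ℤ) (b : MvPolynomial σ ℂ) (k : ℤ) (a : MvPolynomial σ ℂ) :
    sM j b (Finsupp.single k a) = Finsupp.single (k + j) (b * a) := by
  rw [sM, op_single]
  rfl

theorem l_ext {φ ψ : L σ →ₗ[ℂ] L κ}
    (h : ∀ (j : ℤ) (a : MvPolynomial σ ℂ), φ (Finsupp.single j a) = ψ (Finsupp.single j a))
    (u : L σ) : φ u = ψ u := by
  have e : φ = ψ := Finsupp.lhom_ext h
  rw [e]

theorem D_sM (A : MvPolynomial σ ℂ) (i : σ) (j : ℤ) (b : MvPolynomial σ ℂ) (h : L σ) :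
    Dl A i (sM j b h) = sM j b (Dl A i h) + sM j (pderiv i b) h :=
  l_ext (φ := Dl A i ∘ₗ sM j b) (ψ := sM j b ∘ₗ Dl A i + sM j (pderiv i b))
    (fun k a => by
      change Dl A i (sM j b (Finsupp.single k a)) =
        sM j b (Dl A i (Finsupp.single k a)) + sM j (pderiv i b) (Finsupp.single k a)
      rw [sM_single, Dl_single, Dl_single, map_add, sM_single, sM_single, sM_single,
        Derivation.leibniz, smul_eq_mul, smul_eq_mul, Finsupp.single_add]
      have e1 : k + j + 1 = k + 1 + j := by ring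
      have e2 : pderiv i A * (b * a) = b * (pderiv i A * a) := by ring
      have e3 : a * pderiv i b = pderiv i b * a := by ring
      rw [e1, e2, e3]
      abel) h

theorem S_sM (A : MvPolynomial σ ℂ) (j : ℤ) (b : MvPolynomial σ ℂ) (h : L σ) :
    Sl A (sM j b h) = sM j b (Sl A h) + (j : ℂ) • sM j b h :=
  l_ext (φ := Sl A ∘ₗ sM j b) (ψ := sM j b ∘ₗ Sl A + (j : ℂ) • sM j b)
    (fun k a => by
      change Sl A (sM j b (Finsupp.single k a)) =
        sM j b (Sl A (Finsupp.single k a)) + (j : ℂ) • sM j b (Finsupp.single k a)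
      rw [sM_single, Sl_single, Sl_single, map_add, sM_single, sM_single, Finsupp.smul_single]
      have e1 : k + j + 1 = k + 1 + j := by ring
      have e2 : A * (b * a) = b * (A * a) := by ring
      have e3 : (((k + j : ℤ) : ℂ)) • (b * a) = b * ((k : ℂ) • a) + (j : ℂ) • (b * a) := by
        rw [mul_smul_comm, ← add_smul]
        push_cast
        rfl
      rw [e1, e2, e3, Finsupp.single_add]
      abel) h

theorem D_add (A Q : MvPolynomial σ ℂ) (i : σ) (h : L σ) :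
    Dl (A + Q) i h = Dl A i h + sM 1 (pderiv i Q) h :=
  l_ext (φ := Dl (A + Q) i) (ψ := Dl A i + sM 1 (pderiv i Q)) (fun k a => by
    change _ = Dl A i (Finsupp.single k a) + sM 1 (pderiv i Q) (Finsupp.single k a)
    rw [Dl_single, Dl_single, sM_single, map_add, add_mul, Finsupp.single_add]
    abel) h

theorem S_add (A Q : MvPolynomial σ ℂ) (h : L σ) :
    Sl (A + Q) h = Sl A h + sM 1 Q h :=
  l_ext (φ := Sl (A + Q)) (ψ := Sl A + sM 1 Q) (fun k a => by
    change _ = Sl A (Finsupp.single k a) + sM 1 Q (Finsupp.single k a)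
    rw [Sl_single, Sl_single, sM_single, add_mul, Finsupp.single_add]
    abel) h

theorem sMsM (i j : ℤ) (a b : MvPolynomial σ ℂ) (h : L σ) :
    sM i a (sM j b h) = sM (j + i) (a * b) h :=
  l_ext (φ := sM i a ∘ₗ sM j b) (ψ := sM (j + i) (a * b)) (fun k c => by
    change sM i a (sM j b (Finsupp.single k c)) = sM (j + i) (a * b) (Finsupp.single k c)
    rw [sM_single, sM_single, sM_single, mul_assoc, add_assoc]) h

theorem mu_sM (c : MvPolynomial σ ℂ) (j : ℤ) (b : MvPolynomial σ ℂ) (h : L σ) :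
    mu c (sM j b h) = sM j b (mu c h) :=
  l_ext (φ := mu c ∘ₗ sM j b) (ψ := sM j b ∘ₗ mu c) (fun k a => by
    change mu c (sM j b (Finsupp.single k a)) = sM j b (mu c (Finsupp.single k a))
    rw [sM_single, mu_single, mu_single, sM_single]
    congr 1
    ring) h

theorem ta_sM (j : ℤ) (b : MvPolynomial σ ℂ) (h : L σ) :
    ta (sM j b h) = sM j b (ta h) :=
  l_ext (φ := ta ∘ₗ sM j b) (ψ := sM j b ∘ₗ ta) (fun k a => by
    change ta (sM j b (Finsupp.single k a)) = sM j b (ta (Finsupp.single k a))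
    rw [sM_single, ta_single, ta_single, sM_single]
    congr 1
    ring) h

theorem sM_mu (j : ℤ) (a b : MvPolynomial σ ℂ) (h : L σ) : sM j (a * b) h = sM j a (mu b h) :=
  l_ext (φ := sM j (a * b)) (ψ := sM j a ∘ₗ mu b) (fun k c => by
    change sM j (a * b) (Finsupp.single k c) = sM j a (mu b (Finsupp.single k c))
    rw [sM_single, mu_single, sM_single, mul_assoc]) h

theorem sM_smul (j : ℤ) (r : ℂ) (b : MvPolynomial σ ℂ) (h : L σ) :
    sM j (r • b) h = r • sM j b h :=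
  l_ext (φ := sM j (r • b)) (ψ := r • sM j b) (fun k a => by
    change sM j (r • b) (Finsupp.single k a) = r • sM j b (Finsupp.single k a)
    rw [sM_single, sM_single, Finsupp.smul_single, smul_mul_assoc]) h

/-- multiplication by the truncated exponential of `T Q` -/
noncomputable def eN (Q : MvPolynomial σ ℂ) : ℕ → L σ →ₗ[ℂ] L σ
  | 0 => sM 0 1
  | N + 1 => eN Q N + ((((N + 1).factorial : ℕ) : ℂ))⁻¹ • sM ((N + 1 : ℕ) : ℤ) (Q ^ (N + 1))

theorem eN_zero (Q : MvPolynomial σ ℂ) (h : L σ) : eN Q 0 h = h :=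
  l_ext (φ := eN Q 0) (ψ := LinearMap.id) (fun k a => by
    change sM 0 1 (Finsupp.single k a) = Finsupp.single k a
    rw [sM_single, one_mul, add_zero]) h

theorem eN_succ (Q : MvPolynomial σ ℂ) (N : ℕ) (h : L σ) : eN Q (N + 1) h = eN Q N h +
    ((((N + 1).factorial : ℕ) : ℂ))⁻¹ • sM ((N + 1 : ℕ) : ℤ) (Q ^ (N + 1)) h := rfl

theorem fac_inv (N : ℕ) : ((((N + 1).factorial : ℕ) : ℂ))⁻¹ * ((N : ℂ) + 1) =
    (((N.factorial : ℕ) : ℂ))⁻¹ := by
  rw [Nat.factorial_succ]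
  have h4 : (N.factorial : ℂ) ≠ 0 := by exact_mod_cast N.factorial_ne_zero
  have h5 : (N : ℂ) + 1 ≠ 0 := by exact_mod_cast Nat.succ_ne_zero N
  push_cast
  field_simp

theorem eN_D (A Q : MvPolynomial σ ℂ) (i : σ) (N : ℕ) (h : L σ) :
    Dl A i (eN Q N h) = eN Q N (Dl (A + Q) i h) -
      (((N.factorial : ℕ) : ℂ))⁻¹ • sM ((N : ℤ) + 1) (Q ^ N * pderiv i Q) h := by
  induction N with
  | zero =>
    rw [eN_zero, eN_zero, D_add]
    simp
  | succ N ih =>
    rw [eN_succ, eN_succ, map_add, ih, map_smul, D_sM, D_add A Q i h, map_add, map_add,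
      sMsM]
    have e1 : pderiv i (Q ^ (N + 1)) = ((N : ℂ) + 1) • (Q ^ N * pderiv i Q) := by
      rw [Derivation.leibniz_pow, Nat.add_sub_cancel, smul_eq_mul, ← Nat.cast_smul_eq_nsmul ℂ]
      push_cast
      rfl
    have e2 : (1 : ℤ) + ((N + 1 : ℕ) : ℤ) = ((N + 1 : ℕ) : ℤ) + 1 := by ring
    have e3 : ((N : ℤ) + 1) = ((N + 1 : ℕ) : ℤ) := by push_cast; ring
    rw [e1, sM_smul, smul_add, smul_smul, fac_inv, e2, e3, smul_add]
    abel

theorem eN_S (A Q : MvPolynomial σ ℂ) (N : ℕ) (h : L σ) :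
    Sl A (eN Q N h) = eN Q N (Sl (A + Q) h) -
      (((N.factorial : ℕ) : ℂ))⁻¹ • sM ((N : ℤ) + 1) (Q ^ N * Q) h := by
  induction N with
  | zero =>
    rw [eN_zero, eN_zero, S_add]
    simp
  | succ N ih =>
    rw [eN_succ, eN_succ, map_add, ih, map_smul, S_sM, S_add A Q h, map_add, map_add,
      sMsM]
    have e1 : (((N + 1 : ℕ) : ℤ) : ℂ) = (N : ℂ) + 1 := by push_cast; ring
    have e2 : (1 : ℤ) + ((N + 1 : ℕ) : ℤ) = ((N + 1 : ℕ) : ℤ) + 1 := by ring
    have e3 : ((N : ℤ) + 1) = ((N + 1 : ℕ) : ℤ) := by push_cast; ring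
    rw [e1, smul_add, smul_smul, fac_inv, e2, e3, smul_add, ← pow_succ]
    abel

theorem eN_mu (Q c : MvPolynomial σ ℂ) (N : ℕ) (h : L σ) :
    mu c (eN Q N h) = eN Q N (mu c h) := by
  induction N with
  | zero => rw [eN_zero, eN_zero]
  | succ N ih => rw [eN_succ, eN_succ, map_add, ih, map_smul, mu_sM]

theorem eN_ta (Q : MvPolynomial σ ℂ) (N : ℕ) (h : L σ) :
    ta (eN Q N h) = eN Q N (ta h) := by
  induction N with
  | zero => rw [eN_zero, eN_zero]
  | succ N ih => rw [eN_succ, eN_succ, map_add, ih, map_smul, ta_sM]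

/-! ### The perturbation lemma -/

/-- a submodule which is stable under the operators twisted by `A`, in which the powers of `T Q`
tend to zero -/
structure Stb (A Q : MvPolynomial σ ℂ) (S : Submodule ℂ (L σ)) : Prop where
  one : Finsupp.single 0 1 ∈ S
  X : ∀ i, ∀ w ∈ S, mu (MvPolynomial.X i) w ∈ S
  D : ∀ i, ∀ w ∈ S, Dl A i w ∈ S
  T : ∀ w ∈ S, Sl A w ∈ S
  Y : ∀ w ∈ S, ta w ∈ S
  q1 : ∀ j : ℕ, ∃ w ∈ S, sM ((j + 1 : ℕ) : ℤ) (Q ^ (j + 1)) (Finsupp.single 0 1) = ta w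
  qN : ∀ h : L σ, ∃ N0 : ℕ, ∀ N : ℕ, N0 ≤ N → ∃ w ∈ S, sM ((N : ℤ) + 1) (Q ^ N) h = ta w

variable {A Q : MvPolynomial σ ℂ} {S : Submodule ℂ (L σ)}

theorem Stb.mu (hS : Stb A Q S) (c : MvPolynomial σ ℂ) (v : L σ) (hv : v ∈ S) :
    TSG.mu c v ∈ S := by
  induction c using MvPolynomial.induction_on generalizing v with
  | C a => rw [mu_C]; exact S.smul_mem a hv
  | add p q hp hq => rw [mu_add]; exact S.add_mem (hp v hv) (hq v hv)
  | mul_X p i hp => rw [mu_mul]; exact hp _ (hS.X i v hv)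

/-- the elements with `e ^ (T Q) h ∈ S` -/
noncomputable def evn (Q : MvPolynomial σ ℂ) (S : Submodule ℂ (L σ)) : Submodule ℂ (L σ) where
  carrier := {h | ∃ N0 : ℕ, ∀ N : ℕ, N0 ≤ N → eN Q N h ∈ S}
  add_mem' := by
    rintro h h' ⟨N1, h1⟩ ⟨N2, h2⟩
    refine ⟨max N1 N2, fun N hN => ?_⟩
    rw [map_add]
    exact S.add_mem (h1 N (le_trans (le_max_left _ _) hN)) (h2 N (le_trans (le_max_right _ _) hN))
  zero_mem' := ⟨0, fun N _ => by rw [map_zero]; exact S.zero_mem⟩
  smul_mem' := by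
    rintro c h ⟨N1, h1⟩
    exact ⟨N1, fun N hN => by rw [map_smul]; exact S.smul_mem _ (h1 N hN)⟩

theorem Stb.mem (hS : Stb A Q S) : N (A + Q) ≤ evn Q S := by
  refine N_le _ _ ?_ ?_ ?_ ?_ ?_
  · refine ⟨0, fun N _ => ?_⟩
    induction N with
    | zero => rw [eN_zero]; exact hS.one
    | succ N ih =>
      rw [eN_succ]
      obtain ⟨w, hw, e⟩ := hS.q1 N
      rw [e]
      exact S.add_mem (ih (Nat.zero_le _)) (S.smul_mem _ (hS.Y w hw))
  · rintro i h ⟨N1, h1⟩
    exact ⟨N1, fun N hN => by rw [← eN_mu]; exact hS.X i _ (h1 N hN)⟩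
  · rintro i h ⟨N1, h1⟩
    obtain ⟨N2, h2⟩ := hS.qN (TSG.mu (pderiv i Q) h)
    refine ⟨max N1 N2, fun N hN => ?_⟩
    have e := eN_D A Q i N h
    obtain ⟨w, hw, e2⟩ := h2 N (le_trans (le_max_right _ _) hN)
    rw [sM_mu, e2] at e
    rw [eq_sub_iff_add_eq] at e
    rw [← e]
    exact S.add_mem (hS.D i _ (h1 N (le_trans (le_max_left _ _) hN)))
      (S.smul_mem _ (hS.Y w hw))
  · rintro h ⟨N1, h1⟩
    obtain ⟨N2, h2⟩ := hS.qN (TSG.mu Q h)
    refine ⟨max N1 N2, fun N hN => ?_⟩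
    have e := eN_S A Q N h
    obtain ⟨w, hw, e2⟩ := h2 N (le_trans (le_max_right _ _) hN)
    rw [sM_mu, e2] at e
    rw [eq_sub_iff_add_eq] at e
    rw [← e]
    exact S.add_mem (hS.T _ (h1 N (le_trans (le_max_left _ _) hN)))
      (S.smul_mem _ (hS.Y w hw))
  · rintro h ⟨N1, h1⟩
    exact ⟨N1, fun N hN => by rw [← eN_ta]; exact hS.Y _ (h1 N hN)⟩

/-- the powers of `S` -/
theorem Stb.sn (hS : Stb A Q S) (n : ℕ) : ∃ N0 : ℕ, ∀ N : ℕ, N0 ≤ N →
    ∃ w ∈ S, eN Q N (Sn (A + Q) n) = Sn A n + ta w := by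
  induction n with
  | zero =>
    refine ⟨0, fun N _ => ?_⟩
    rw [Sn_zero, Sn_zero]
    induction N with
    | zero => exact ⟨0, S.zero_mem, by rw [eN_zero, map_zero, add_zero]⟩
    | succ N ih =>
      obtain ⟨w, hw, e⟩ := ih (Nat.zero_le _)
      obtain ⟨w', hw', e'⟩ := hS.q1 N
      refine ⟨w + ((((N + 1).factorial : ℕ) : ℂ))⁻¹ • w', S.add_mem hw (S.smul_mem _ hw'), ?_⟩
      rw [eN_succ, e, e', map_add, map_smul, add_assoc]
  | succ n ih =>
    obtain ⟨N1, h1⟩ := ih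
    obtain ⟨N2, h2⟩ := hS.qN (TSG.mu Q (Sn (A + Q) n))
    refine ⟨max N1 N2, fun N hN => ?_⟩
    obtain ⟨w, hw, e1⟩ := h1 N (le_trans (le_max_left _ _) hN)
    obtain ⟨w', hw', e2⟩ := h2 N (le_trans (le_max_right _ _) hN)
    have e := eN_S A Q N (Sn (A + Q) n)
    have e3 : Sl A (ta w) = ta (Sl A w + (-1 : ℂ) • w) := by
      rw [map_add, map_smul, ta_Sl, neg_one_smul, add_neg_cancel_right]
    rw [sM_mu, e2, e1, map_add, e3, eq_sub_iff_add_eq, Sn_succ, Sn_succ] at e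
    refine ⟨(Sl A w + (-1 : ℂ) • w) + (((N.factorial : ℕ) : ℂ))⁻¹ • w',
      S.add_mem (S.add_mem (hS.T _ hw) (S.smul_mem _ hw)) (S.smul_mem _ hw'), ?_⟩
    rw [← e, map_add ta (Sl A w + (-1 : ℂ) • w), map_smul ta _ w', add_assoc]

theorem Stb.tb (hS : Stb A Q S) (B : Polynomial (MvPolynomial σ ℂ)) : ∃ N0 : ℕ, ∀ N : ℕ,
    N0 ≤ N → ∃ w ∈ S, eN Q N (Tb (A + Q) B) = Tb A B + ta w := by
  induction B using Polynomial.induction_on' with
  | add p q hp hq =>
    obtain ⟨N1, h1⟩ := hp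
    obtain ⟨N2, h2⟩ := hq
    refine ⟨max N1 N2, fun N hN => ?_⟩
    obtain ⟨w, hw, e1⟩ := h1 N (le_trans (le_max_left _ _) hN)
    obtain ⟨w', hw', e2⟩ := h2 N (le_trans (le_max_right _ _) hN)
    refine ⟨w + w', S.add_mem hw hw', ?_⟩
    rw [map_add, map_add, e1, e2, map_add, map_add]
    abel
  | monomial m c =>
    obtain ⟨N1, h1⟩ := hS.sn m
    refine ⟨N1, fun N hN => ?_⟩
    obtain ⟨w, hw, e1⟩ := h1 N hN
    refine ⟨TSG.mu c w, hS.mu c w hw, ?_⟩
    rw [Tb_monomial, Tb_monomial, ← eN_mu, e1, map_add, ta_mu]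

/-- **The perturbation lemma.** -/
theorem Stb.main (hS : Stb A Q S) (B : Polynomial (MvPolynomial σ ℂ)) (m : L σ)
    (hm : m ∈ N (A + Q)) (hB : Tb (A + Q) B = ta m) : ∃ w ∈ S, Tb A B = ta w := by
  obtain ⟨N1, h1⟩ := hS.mem hm
  obtain ⟨N2, h2⟩ := hS.tb B
  obtain ⟨w, hw, e⟩ := h2 (max N1 N2) (le_max_right _ _)
  rw [hB, ← eN_ta] at e
  refine ⟨eN Q (max N1 N2) m - w, S.sub_mem (h1 _ (le_max_left _ _)) hw, ?_⟩
  rw [map_sub, e, add_sub_cancel_right]

/-! ### Perturbations of sums -/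

/-- the elements `u (T f) ^ N` -/
theorem n_fp (f u : MvPolynomial σ ℂ) (k : ℕ) : Finsupp.single (k : ℤ) (u * f ^ k) ∈ N f := by
  induction k with
  | zero =>
    have h := N_mu f u _ (N_one f)
    rw [mu_single] at h
    rw [pow_zero]
    exact h
  | succ k ih =>
    have h := (N f).add_mem (N_S f _ ih) ((N f).smul_mem (-(k : ℂ)) ih)
    rw [Sl_single, Finsupp.smul_single] at h
    have e : Finsupp.single (k : ℤ) ((((k : ℕ) : ℤ) : ℂ) • (u * f ^ k)) +
        Finsupp.single ((k : ℤ) + 1) (f * (u * f ^ k)) +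
        Finsupp.single (k : ℤ) (-(k : ℂ) • (u * f ^ k)) =
        Finsupp.single (((k + 1 : ℕ) : ℤ)) (u * f ^ (k + 1)) := by
      rw [add_right_comm, ← Finsupp.single_add, ← add_smul]
      push_cast
      rw [add_neg_cancel, zero_smul, Finsupp.single_zero, zero_add]
      congr 1
      ring
    rw [e] at h
    exact h

theorem n_fpi (f u : MvPolynomial σ ℂ) (n : ℕ) (i : ℤ) (hi : i ≤ n) :
    Finsupp.single i (u * f ^ n) ∈ N f := by
  obtain ⟨k, hk⟩ : ∃ k : ℕ, (n : ℤ) = i + k := ⟨((n : ℤ) - i).toNat, by omega⟩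
  have key : ∀ k : ℕ, ∀ i : ℤ, (n : ℤ) = i + k → Finsupp.single i (u * f ^ n) ∈ N f := by
    intro k
    induction k with
    | zero =>
      intro i hi
      have : i = n := by omega
      rw [this]
      exact n_fp f u n
    | succ k ih =>
      intro i hi
      have h := N_T f _ (ih (i + 1) (by push_cast at hi ⊢; omega))
      rw [ta_single, add_sub_cancel_right] at h
      exact h
  exact key k i hk

theorem ps_mem2 (f : MvPolynomial σ ℂ) (g : MvPolynomial κ ℂ) {u : L σ} {v : L κ}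
    (hu : u ∈ N f) (hv : v ∈ N g) : ml u v ∈ (NN f g).map Phi :=
  ⟨u ⊗ₜ[ℂ] v, Submodule.subset_span ⟨u, hu, v, hv, rfl⟩, Phi_tmul _ _⟩

/-- **Perturbations of a sum.** -/
theorem stb_two (f : MvPolynomial σ ℂ) (g : MvPolynomial κ ℂ) (c : ℂ) :
    Stb (Fs f g) (C c * (rename Sum.inl f * rename Sum.inr g)) ((NN f g).map Phi) where
  one := ⟨_, NN_one f g, Phi_one⟩
  X := by
    rintro (i | i) _ ⟨t, ht, rfl⟩
    · exact ⟨_, NN_left f g _ (N_X f i) t ht, Phi_left _ _ (fun a b => ml_X_left i a b) t⟩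
    · exact ⟨_, NN_right f g _ (N_X g i) t ht, Phi_right _ _ (fun a b => ml_X_right i a b) t⟩
  D := by
    rintro (i | i) _ ⟨t, ht, rfl⟩
    · exact ⟨_, NN_left f g _ (N_D f i) t ht, Phi_left _ _ (fun a b => ml_D_left f g i a b) t⟩
    · exact ⟨_, NN_right f g _ (N_D g i) t ht, Phi_right _ _ (fun a b => ml_D_right f g i a b) t⟩
  T := by
    rintro _ ⟨t, ht, rfl⟩
    exact ⟨_, NN_SS f g t ht, Phi_SS f g t⟩
  Y := by
    rintro _ ⟨t, ht, rfl⟩
    exact ⟨_, NN_right f g _ (N_T g) t ht, Phi_right _ _ (fun a b => ml_ta_right a b) t⟩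
  q1 j := by
    refine ⟨c ^ (j + 1) • ml (Finsupp.single ((j + 1 : ℕ) : ℤ) (1 * f ^ (j + 1)))
      (Finsupp.single 1 (1 * g ^ (j + 1))), Submodule.smul_mem _ _
      (ps_mem2 f g (n_fp f _ _) (n_fpi g _ _ _ (by push_cast; omega))), ?_⟩
    rw [sM_single, map_smul, ml_single, ta_single, Finsupp.smul_single]
    congr 1
    · ring
    · rw [smul_eq_C_mul]
      simp only [mul_one, one_mul, map_mul, map_pow]
      ring
  qN h := by
    induction h using Finsupp.induction_linear with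
    | zero => exact ⟨0, fun N _ => ⟨0, Submodule.zero_mem _, by rw [map_zero, map_zero]⟩⟩
    | add u v hu hv =>
      obtain ⟨N1, h1⟩ := hu
      obtain ⟨N2, h2⟩ := hv
      refine ⟨max N1 N2, fun N hN => ?_⟩
      obtain ⟨w, hw, e⟩ := h1 N (le_trans (le_max_left _ _) hN)
      obtain ⟨w', hw', e'⟩ := h2 N (le_trans (le_max_right _ _) hN)
      exact ⟨w + w', Submodule.add_mem _ hw hw', by rw [map_add, map_add, e, e']⟩
    | single k a =>
      have ha := span_prod a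
      induction ha using Submodule.span_induction with
      | mem a ha =>
        obtain ⟨u, v, rfl⟩ := ha
        refine ⟨(k + 2).toNat, fun N hN => ⟨(c ^ N) • ml (Finsupp.single (N : ℤ) (u * f ^ N))
          (Finsupp.single (k + 2) (v * g ^ N)), Submodule.smul_mem _ _
          (ps_mem2 f g (n_fp f _ _) (n_fpi g _ _ _ (by omega))), ?_⟩⟩
        rw [sM_single, map_smul, ml_single, ta_single, Finsupp.smul_single]
        congr 1
        · ring
        · rw [smul_eq_C_mul]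
          simp only [map_mul, map_pow]
          ring
      | zero =>
        refine ⟨0, fun N _ => ⟨0, Submodule.zero_mem _, ?_⟩⟩
        rw [Finsupp.single_zero, map_zero, map_zero]
      | add a b _ _ ha hb =>
        obtain ⟨N1, h1⟩ := ha
        obtain ⟨N2, h2⟩ := hb
        refine ⟨max N1 N2, fun N hN => ?_⟩
        obtain ⟨w, hw, e⟩ := h1 N (le_trans (le_max_left _ _) hN)
        obtain ⟨w', hw', e'⟩ := h2 N (le_trans (le_max_right _ _) hN)
        exact ⟨w + w', Submodule.add_mem _ hw hw', by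
          rw [Finsupp.single_add, map_add, map_add, e, e']⟩
      | smul r a _ ha =>
        obtain ⟨N1, h1⟩ := ha
        refine ⟨N1, fun N hN => ?_⟩
        obtain ⟨w, hw, e⟩ := h1 N hN
        exact ⟨r • w, Submodule.smul_mem _ _ hw, by
          rw [← Finsupp.smul_single, map_smul, map_smul, e]⟩

/-- the main step, for elements of the larger module -/
theorem step' (f : MvPolynomial σ ℂ) (g : MvPolynomial κ ℂ) (lam : L σ →ₗ[ℂ] ℂ)
    (hlam : ∀ v ∈ N f, lam (ta v) = 0) (t : L σ ⊗[ℂ] L κ) (ht : t ∈ NN f g)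
    (w : L (σ ⊕ κ)) (hw : w ∈ (NN f g).map Phi) (h : Phi t = ta w) :
    ∃ u ∈ N g, Lam lam t = ta u := by
  obtain ⟨t', ht', rfl⟩ := hw
  have h1 : Phi (t + (-1 : ℂ) • LinearMap.lTensor (L σ) ta t') = 0 := by
    rw [map_add, map_smul, h, Phi_right _ ta (fun a b => ml_ta_right a b), neg_one_smul,
      add_neg_cancel]
  have h3 : t + (-1 : ℂ) • LinearMap.lTensor (L σ) ta t' ∈ NN f g :=
    (NN f g).add_mem ht ((NN f g).smul_mem _ (NN_right f g ta (N_T g) t' ht'))
  obtain ⟨u, hu, h2⟩ := star_t f g lam hlam _ h3 h1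
  refine ⟨u + Lam lam t', (N g).add_mem hu (Lam_mem f g lam t' ht'), ?_⟩
  rw [map_add, map_smul, Lam_ta, neg_one_smul] at h2
  rw [map_add, ← h2, neg_add_cancel_right]

/-- the final step of the proof -/
theorem fin_step (f : MvPolynomial σ ℂ) (g : MvPolynomial κ ℂ) (hf : f ≠ 0) (hg : g ≠ 0)
    (p : σ → ℂ) (q : κ → ℂ) (α β : ℂ) (h1 : RF f p α) (h2 : RF g q β)
    (B : Polynomial (MvPolynomial (σ ⊕ κ) ℂ)) (w : L (σ ⊕ κ)) (hw : w ∈ (NN f g).map Phi)
    (hw2 : Tb (Fs f g) B = ta w) : evl (Sum.elim p q) (α + β) B = 0 := by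
  classical
  obtain ⟨la, la1, la2⟩ := exists_lam f hf p α h1
  obtain ⟨lb, lb1, lb2⟩ := exists_lam g hg q β h2
  -- the powers
  have hpow : ∀ (a : MvPolynomial σ ℂ) (b : MvPolynomial κ ℂ) (m i j : ℕ),
      lb (Lam la (LinearMap.rTensor (L κ) (mu a) (LinearMap.lTensor (L σ) (mu b)
        (ps (SS f g) (Polynomial.X ^ m) (Sn f i ⊗ₜ[ℂ] Sn g j))))) =
      (eval p a * α ^ i) * (eval q b * β ^ j) * (α + β) ^ m := by
    intro a b m
    induction m with
    | zero =>
      intro i j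
      rw [pow_zero, ← Polynomial.C_1, ps_C, one_smul, LinearMap.lTensor_tmul,
        LinearMap.rTensor_tmul, Lam_tmul, la2, map_smul, lb2, smul_eq_mul, pow_zero, mul_one]
    | succ m ih =>
      intro i j
      rw [pow_succ, ps_mul, ps_X, SS_tmul, Sn_succ, Sn_succ]
      simp only [map_add]
      rw [ih, ih]
      ring
  -- the tensors
  have hc : ∀ (m : ℕ) (c : MvPolynomial (σ ⊕ κ) ℂ), ∃ t ∈ NN f g,
      Phi t = mu c (Sn (Fs f g) m) ∧
        lb (Lam la t) = eval (Sum.elim p q) c * (α + β) ^ m := by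
    intro m c
    have hc := span_prod c
    induction hc using Submodule.span_induction with
    | mem c hc =>
      obtain ⟨a, b, rfl⟩ := hc
      refine ⟨_, NN_left f g (mu a) (N_mu f a) _ (NN_right f g (mu b) (N_mu g b) _
        (ps_mem _ _ (NN_SS f g) (Polynomial.X ^ m) _ (NN_one f g))), ?_, ?_⟩
      · rw [Phi_left _ _ (fun x y => ml_mu_left a x y), Phi_right _ _ (fun x y => ml_mu_right b x y),
          ps_comm (SS f g) (Sl (Fs f g)) Phi (Phi_SS f g), Phi_one, mu_mul]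
        rfl
      · have h3 := hpow a b m 0 0
        rw [Sn_zero, Sn_zero] at h3
        rw [h3, map_mul, eval_rename, eval_rename, pow_zero, pow_zero, mul_one, mul_one]
        rfl
    | zero =>
      refine ⟨0, (NN f g).zero_mem, ?_, ?_⟩
      · have h3 := mu_C (0 : ℂ) (Sn (Fs f g) m)
        rw [C_0, zero_smul] at h3
        rw [h3, map_zero]
      · rw [map_zero, map_zero, map_zero, zero_mul]
    | add c d _ _ hc hd =>
      obtain ⟨t, ht, h3, h4⟩ := hc
      obtain ⟨t', ht', h3', h4'⟩ := hd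
      exact ⟨t + t', (NN f g).add_mem ht ht', by rw [map_add, h3, h3', mu_add],
        by rw [map_add, map_add, h4, h4', map_add, add_mul]⟩
    | smul r c _ hc =>
      obtain ⟨t, ht, h3, h4⟩ := hc
      refine ⟨r • t, (NN f g).smul_mem r ht, ?_, ?_⟩
      · rw [map_smul, h3, smul_eq_C_mul, mu_mul, mu_C]
      · rw [map_smul, map_smul, h4, smul_eval, smul_eq_mul, mul_assoc]
  have hB : ∃ t ∈ NN f g, Phi t = Tb (Fs f g) B ∧
      lb (Lam la t) = evl (Sum.elim p q) (α + β) B := by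
    clear hw2 hw
    induction B using Polynomial.induction_on' with
    | add A B hA hB =>
      obtain ⟨t, ht, h3, h4⟩ := hA
      obtain ⟨t', ht', h3', h4'⟩ := hB
      exact ⟨t + t', (NN f g).add_mem ht ht', by rw [map_add, h3, h3', map_add],
        by rw [map_add, map_add, h4, h4', map_add]⟩
    | monomial m c =>
      obtain ⟨t, ht, h3, h4⟩ := hc m c
      refine ⟨t, ht, by rw [h3, Tb_monomial], ?_⟩
      rw [h4]
      change _ = eval (Sum.elim p q) ((Polynomial.monomial m c).eval (C (α + β)))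
      rw [Polynomial.eval_monomial, map_mul, map_pow, eval_C]
  obtain ⟨t, ht, h3, h4⟩ := hB
  obtain ⟨u, hu, h5⟩ := step' f g la la1 t ht w hw (by rw [h3, hw2])
  rw [h5, lb1 u hu] at h4
  exact h4.symm

/-- **Reduced forced roots of `f(x) + g(z) + c f(x) g(z)`.** -/
theorem rf_kap (f : MvPolynomial σ ℂ) (g : MvPolynomial κ ℂ) (c : ℂ) (hf : f ≠ 0) (hg : g ≠ 0)
    (hF : Fs f g + C c * (rename Sum.inl f * rename Sum.inr g) ≠ 0) (p : σ → ℂ) (q : κ → ℂ)
    (α β : ℂ) (h1 : RF f p α) (h2 : RF g q β) :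
    RF (Fs f g + C c * (rename Sum.inl f * rename Sum.inr g)) (Sum.elim p q) (α + β) := by
  classical
  intro B P hP
  obtain ⟨w, hw, hw1⟩ := mem_Psi _ _ (W_of_RE _ B P hP)
  have hw2 : Tb (Fs f g + C c * (rename Sum.inl f * rename Sum.inr g)) B = ta w := by
    rw [← sub_eq_zero]
    refine Psi_inj _ hF _ ?_
    rw [map_sub, hw1, sub_eq_zero]
    funext k
    rw [Psi_Tb]
  obtain ⟨w', hw', e⟩ := (stb_two f g c).main B w hw hw2
  exact fin_step f g hf hg p q α β h1 h2 B w' hw' e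

theorem kap_ne (f : MvPolynomial σ ℂ) (g : MvPolynomial κ ℂ) (c : ℂ) (hf : f ≠ 0)
    (hgc : constantCoeff g = 0) : Fs f g + C c * (rename Sum.inl f * rename Sum.inr g) ≠ 0 := by
  intro h0
  have h1 : cor (0 : κ →₀ ℕ) (Fs f g + C c * (rename Sum.inl f * rename Sum.inr g)) = f := by
    have h2 : Fs f g + C c * (rename Sum.inl f * rename Sum.inr g) =
        rename Sum.inl f * rename Sum.inr 1 + rename Sum.inl 1 * rename Sum.inr g +
          rename Sum.inl (C c * f) * rename Sum.inr g := by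
      rw [map_one, map_one, mul_one, one_mul, map_mul, rename_C, mul_assoc]
    rw [h2, map_add, map_add, cor_mul, cor_mul, cor_mul]
    have h3 : coeff 0 g = 0 := by rw [← constantCoeff_eq]; exact hgc
    rw [h3, zero_smul, zero_smul, add_zero, add_zero]
    simp
  rw [h0, map_zero] at h1
  exact hf h1.symm

end Pool.Agent.T6.H56.TSG
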