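import Pool.Agent.W574.SM.ZetaDefs

set_option autoImplicit false

/-! # Twisted topological zeta functions of plane curves

Let `f` be a germ at the origin, with an embedded resolution with the divisors `E_i` and the numerical
data `(N_i, ν_i)`. The twisted local topological zeta functions of Denef and Loeser are
`Z^(e)(s) = ∑_S χ(E_S° ∩ h⁻¹(0)) ∏_{i ∈ S} 1 / (N_i s + ν_i)`, the sum over all `S ≠ ∅` such that `e` divides
all `N_i`, `i ∈ S`; so `Z^(1)` is the local topological zeta function. -/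

namespace Pool.Agent.T6.H56.TSG

open MvPolynomial Pool.Agent.W574.SM

/-- The rational function `1 / (n + a s)` of `s` if `e` divides `a`, and `0` otherwise. -/
noncomputable def facE (e a n : ℕ) : RatFunc ℂ := if e ∣ a then fac a n else 0

/-- `LocalZetaE g a₀ n₀ a₁ n₁ Z`: the recursive computation of the twisted zeta functions
`Z e = Z^(e)` of an ideal `(g_j)` in two variables by blowing up points; see `LocalZeta`, with
`facE e a n` in place of `fac a n` (for `e = 1` it is the same function). -/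
inductive LocalZetaE {ι : Type} :
    (ι → MvPolynomial (Fin 2) ℂ) → ℕ → ℕ → ℕ → ℕ → (ℕ → RatFunc ℂ) → Prop
  | unit (g : ι → MvPolynomial (Fin 2) ℂ) (a₀ n₀ a₁ n₁ : ℕ) (j : ι)
      (hj : constantCoeff (g j) ≠ 0) :
      LocalZetaE g a₀ n₀ a₁ n₁ (fun e => facE e a₀ n₀ * facE e a₁ n₁)
  | curveV (g : ι → MvPolynomial (Fin 2) ℂ) (a₀ n₀ m : ℕ) (hm : 1 ≤ m)
      (h : MvPolynomial (Fin 2) ℂ) (k : ι → MvPolynomial (Fin 2) ℂ)
      (hg : ∀ j, g j = h ^ m * k j) (h0 : constantCoeff h = 0)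
      (h1 : constantCoeff (pderiv 1 h) ≠ 0) (j : ι) (hj : constantCoeff (k j) ≠ 0) :
      LocalZetaE g a₀ n₀ 0 1 (fun e => facE e a₀ n₀ * facE e m 1)
  | curveU (g : ι → MvPolynomial (Fin 2) ℂ) (a₁ n₁ m : ℕ) (hm : 1 ≤ m)
      (h : MvPolynomial (Fin 2) ℂ) (k : ι → MvPolynomial (Fin 2) ℂ)
      (hg : ∀ j, g j = h ^ m * k j) (h0 : constantCoeff h = 0)
      (h1 : constantCoeff (pderiv 0 h) ≠ 0) (j : ι) (hj : constantCoeff (k j) ≠ 0) :
      LocalZetaE g 0 1 a₁ n₁ (fun e => facE e a₁ n₁ * facE e m 1)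
  | blowup (g : ι → MvPolynomial (Fin 2) ℂ) (a₀ n₀ a₁ n₁ m : ℕ) (hm : 1 ≤ m)
      (gc : ℂ → ι → MvPolynomial (Fin 2) ℂ) (gI : ι → MvPolynomial (Fin 2) ℂ)
      (hgc : ∀ c j, aeval (chart c) (g j) = X 0 ^ m * gc c j)
      (hgI : ∀ j, aeval chartI (g j) = X 1 ^ m * gI j)
      (S : Finset ℂ) (h0S : 0 ∈ S) (hS : ∀ c ∉ S, ∃ j, constantCoeff (gc c j) ≠ 0)
      (Zc : ℂ → ℕ → RatFunc ℂ) (ZI : ℕ → RatFunc ℂ)
      (h0 : LocalZetaE (gc 0) (a₀ + a₁ + m) (n₀ + n₁) a₁ n₁ (Zc 0))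
      (hc : ∀ c ∈ S, c ≠ 0 → LocalZetaE (gc c) (a₀ + a₁ + m) (n₀ + n₁) 0 1 (Zc c))
      (hI : LocalZetaE gI a₀ n₀ (a₀ + a₁ + m) (n₀ + n₁) ZI) :
      LocalZetaE g a₀ n₀ a₁ n₁
        (fun e => ZI e + ∑ c ∈ S, Zc c e +
          (1 - (S.card : RatFunc ℂ)) * facE e (a₀ + a₁ + m) (n₀ + n₁))

/-- `g` is weighted homogeneous of degree `d` for positive weights `w_i < d`, and the origin is the
only common zero of its partial derivatives in `ℂ ^ (n + 1)`. -/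
structure IsoCritC {n : ℕ} (g : MvPolynomial (Fin (n + 1)) ℂ) (w : Fin (n + 1) → ℕ) (d : ℕ) :
    Prop where
  pos : ∀ i, 1 ≤ w i
  lt : ∀ i, w i < d
  hom : IsWeightedHomogeneous w g d
  iso : ∀ z : Fin (n + 1) → ℂ, (∀ i, eval z (pderiv i g) = 0) → z = 0

end Pool.Agent.T6.H56.TSG
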