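import Pool.Agent.T6.H56.TSG.Fin
import Pool.Agent.T6.H56.TSG.ZetaE

set_option autoImplicit false

/-! # Statements of the modules PRO, POW, ISO, UNI -/

namespace Pool.Agent.T6.H56.TSG

open MvPolynomial
open Pool.Agent.Y230.TL (RF)

/-- Module PRO: `-1` is a reduced forced root of products in disjoint variables. -/
def StmPRO : Prop := ∀ {σ κ : Type} (F : MvPolynomial σ ℂ) (G : MvPolynomial κ ℂ), F ≠ 0 → G ≠ 0 →
  constantCoeff F = 0 → constantCoeff G = 0 →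
  RF (rename Sum.inl F * rename Sum.inr G : MvPolynomial (σ ⊕ κ) ℂ) 0 (-1)

/-- Module POW: reduced forced roots of powers. -/
def StmPOW : Prop := ∀ {σ : Type} (F : MvPolynomial σ ℂ), F ≠ 0 → ∀ (a : ℕ), 0 < a → ∀ s₀ : ℂ,
  RF F 0 (a * s₀) → RF (F ^ a) 0 s₀

/-- Module ISO: the root `-(∑ w_i) / d` of weighted homogeneous polynomials with an isolated critical
point. -/
def StmISO : Prop := ∀ {n : ℕ} (g : MvPolynomial (Fin (n + 1)) ℂ) (w : Fin (n + 1) → ℕ) (d : ℕ),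
  IsoCritC g w d → RF g 0 (-((∑ i, w i : ℕ) : ℂ) / d)

/-- Module UNI: units. -/
def StmUNI : Prop := ∀ {σ : Type} (F U : MvPolynomial σ ℂ), F ≠ 0 → constantCoeff U ≠ 0 →
  ∀ s₀ : ℂ, RF F 0 s₀ → RF (U * F) 0 s₀

end Pool.Agent.T6.H56.TSG
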