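import Pool.Agent.T6.H56.TSG.SumDefs
import Pool.Agent.T6.H56.TSG.Stm
import Pool.Agent.T6.H56.TSG.KAP
import Pool.Agent.Y229.LP1

set_option autoImplicit false
set_option linter.unusedSectionVars false
set_option linter.unusedVariables false

/-! # The poles of the zeta functions of `f(x) + g(z)` -/

namespace Pool.Agent.T6.H56.TSG

open MvPolynomial Pool.Agent.W574.SM Pool.Agent.W574.CN Pool.Agent.Y229
open Pool.Agent.Y230.TL (RF)

/-- the conditions on the poles -/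
structure Po {σ : Type} (F : MvPolynomial σ ℂ) (Z : ℕ → RatFunc ℂ) : Prop where
  one : ∀ s, ((RatFunc.X + 1) * Z 1).denom.eval s = 0 → RF F 0 s
  two : ∀ e, 2 ≤ e → ∀ s, (Z e).denom.eval s = 0 → RF F 0 s

theorem exp_pole {σ : Type} {F : MvPolynomial σ ℂ} {Z : ℕ → RatFunc ℂ} (h : Po F Z)
    {u : ℕ → (ℂ × ℕ →₀ ℂ)} (hu : ExpOf Z u) (e : ℕ) (he : 1 ≤ e) (p : ℂ × ℕ)
    (hp : p ∈ (u e).support) : RF F 0 (-p.1) := by
  by_cases h1 : e = 1
  · subst h1
    exact h.one _ (pole_of_exp _ (u 1) hu.one hu.ne p hp)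
  · refine h.two e (by omega) _ ?_
    by_contra hne
    have h2 := mem_Reg_of_denom _ _ hne
    rw [hu.two e (by omega)] at h2
    have h3 := (Reg (-p.1)).neg_mem h2
    rw [neg_neg] at h3
    exact lap_pole _ p hp h3

theorem lap2_reg (v w : ℂ × ℕ →₀ ℂ) (s : ℂ)
    (h : ∀ p ∈ v.support, ∀ q ∈ w.support, s ≠ -p.1 + -q.1) : lap2 v w ∈ Reg s := by
  refine Subring.sum_mem _ fun p hp => Subring.sum_mem _ fun q hq => ?_
  refine (Reg s).mul_mem (C_reg s _) (lterm_reg s _ _ fun h1 => h p hp q hq ?_)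
  rw [h1]
  ring

variable {σ κ : Type}

theorem po_add (F : MvPolynomial σ ℂ) (G : MvPolynomial κ ℂ) (c : ℂ) (hF : F ≠ 0) (hG : G ≠ 0)
    (hFG : Fs F G + C c * (rename Sum.inl F * rename Sum.inr G) ≠ 0)
    (Z W : ℕ → RatFunc ℂ) (h : Po F Z) (h' : Po G W)
    (u v : ℕ → (ℂ × ℕ →₀ ℂ)) (hu : ExpOf Z u) (hv : ExpOf W v) (M : ℕ) [NeZero M] :
    Po (Fs F G + C c * (rename Sum.inl F * rename Sum.inr G)) (sumZ M u v) := by
  classical
  -- the main step
  have key : ∀ (s : ℂ) (i j : ℕ), 1 ≤ i → 1 ≤ j →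
      ¬ RF (Fs F G + C c * (rename Sum.inl F * rename Sum.inr G)) 0 s →
      lap2 (u i) (v j) ∈ Reg s := by
    intro s i j hi hj hs
    refine lap2_reg _ _ s fun p hp q hq hpq => hs ?_
    have h1 := rf_kap F G c hF hG hFG 0 0 _ _ (exp_pole h hu i hi p hp) (exp_pole h' hv j hj q hq)
    rw [← hpq] at h1
    have e : (Sum.elim 0 0 : σ ⊕ κ → ℂ) = 0 := by
      funext x
      rcases x with x | x <;> rfl
    rwa [e] at h1
  have hord : ∀ θ : ZMod M × ZMod M, 1 ≤ addOrderOf θ := fun θ =>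
    Nat.succ_le_of_lt (addOrderOf_pos θ)
  have hX : ∀ s : ℂ, (RatFunc.X + 1 : RatFunc ℂ) ∈ Reg s := fun s =>
    (Reg s).add_mem (X_reg s) (Reg s).one_mem
  have hX0 : (RatFunc.X + 1 : RatFunc ℂ) ≠ 0 := by
    have := XC_ne 1
    rwa [map_one] at this
  constructor
  · intro s hs
    by_contra hne
    refine Reg_denom s _ ?_ hs
    rw [sumZ, if_pos rfl, mul_comm, mul_assoc, inv_mul_cancel₀ hX0, mul_one]
    exact (Reg s).sub_mem (Reg s).one_mem ((Reg s).mul_mem (X_reg s)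
      (Subring.sum_mem _ fun θ _ => key s _ _ (hord θ) (hord (-θ)) hne))
  · intro e he s hs
    by_contra hne
    refine Reg_denom s _ ?_ hs
    rw [sumZ, if_neg (by omega)]
    split_ifs
    · exact (Reg s).neg_mem (Subring.sum_mem _ fun θ _ => key s _ _ (hord θ) (hord _) hne)
    · exact (Reg s).zero_mem

end Pool.Agent.T6.H56.TSG
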