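import Pool.Agent.Y229.LPDefs

set_option autoImplicit false

/-! # Twisted topological zeta functions of `f(x) + g(z)`

Let `f` be a germ with the numerical data `(N_i, ν_i)` of a resolution, and
`Z^(e)(s) = ∑_S χ(E_S° ∩ h⁻¹(0)) ∏_{i ∈ S} 1 / (N_i s + ν_i)`, the sum over all `S ≠ ∅` such that `e` divides
all `N_i`, `i ∈ S`. For `θ = (χ, ζ) ∈ (ℚ / ℤ) ^ 2` of the order `e` the function `Z^(e)` is the limit for `q → 1`
of the `p`-adic integrals `∫ χ(ac f) ζ^(ord f) |f|^s`, with a character `χ` of the residue field and a root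
of unity `ζ`. The formula for the convolution of `f` and `g` (the Thom-Sebastiani formula for zeta
functions) becomes the convolution on `(ℚ / ℤ) ^ 2`, if one uses the functions
`u_1 = V' + V` with `1 - Z^(1)(s) = s ∫ V(t) exp(- s t) dt`, that is
`1 - (s + 1) Z^(1)(s) = s ∫ u_1(t) exp(- s t) dt`, and `Z^(e)(s) = - ∫ u_e(t) exp(- s t) dt` for `e ≥ 2`. -/

namespace Pool.Agent.T6.H56.TSG

open Pool.Agent.Y229

/-- The exponential polynomials `u e` describe the twisted zeta functions `Z e`, `e ≥ 1`: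
`1 - (s + 1) Z^(1)(s) = s ∫ u_1(t) exp(- s t) dt`, where no constant function occurs in `u_1`, and
`Z^(e)(s) = - ∫ u_e(t) exp(- s t) dt` for `e ≥ 2`. -/
structure ExpOf (Z : ℕ → RatFunc ℂ) (u : ℕ → (ℂ × ℕ →₀ ℂ)) : Prop where
  one : 1 - (RatFunc.X + 1) * Z 1 = RatFunc.X * lap (u 1)
  ne : ∀ p ∈ (u 1).support, p.1 ≠ 0
  two : ∀ e, 2 ≤ e → Z e = - lap (u e)

/-- The twisted zeta functions of `f(x) + g(z)`, if `u` and `v` are the exponential polynomials of `f` and
`g`, and `u e = v e = 0` for all `e ≥ 1` which do not divide `M`. The exponential polynomials `w_e` of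
`f(x) + g(z)` are given by the convolution `w_e(t) = ∑ u_i(t) v_j(t)`, where the sum is over all pairs
`θ, θ'` in `(ℚ / ℤ) ^ 2`, of the orders `i` and `j`, such that `θ + θ'` is a given element of the order
`e`. -/
noncomputable def sumZ (M : ℕ) [NeZero M] (u v : ℕ → (ℂ × ℕ →₀ ℂ)) (e : ℕ) : RatFunc ℂ :=
  if e = 1 then
    (1 - RatFunc.X * ∑ θ : ZMod M × ZMod M, lap2 (u (addOrderOf θ)) (v (addOrderOf (-θ)))) *
      (RatFunc.X + 1)⁻¹
  else if e ∣ M then
    - ∑ θ : ZMod M × ZMod M, lap2 (u (addOrderOf θ))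
      (v (addOrderOf ((((M / e : ℕ) : ZMod M), (0 : ZMod M)) - θ)))
  else 0

end Pool.Agent.T6.H56.TSG
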