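import Pool.Agent.T6.H26.LCDefs
import Pool.Agent.T6.H56.TSG.ZetaE
import Pool.Agent.T6.H56.TSG.SumDefs
import Pool.Agent.H628R4.TP.LocDefs

set_option autoImplicit false

/-! # Classes of germs which are closed under sums, products and powers in disjoint variables -/

namespace Pool.Agent.T6.H56.TSG

open MvPolynomial Pool.Agent.W574.SM Pool.Agent.W574.RO Pool.Agent.Y229
open Pool.Agent.T6.H26
open Pool.Agent.Y230.TL (StrongHyp)
open Pool.Agent.Y230.TH (univFam)
open Pool.Agent.Y228.RR (FromRees)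
open Pool.Agent.Y230.RS (topZeta)
open Pool.Agent.H628R4.TP (IsLocalBFunction)

/-- The common zeros of the linear forms with the coefficients `c j`. -/
def zer {σ κ : Type} [Fintype σ] (c : κ → σ → ℂ) : Submodule ℂ (σ → ℂ) where
  carrier := {x | ∀ j, c j ⬝ᵥ x = 0}
  add_mem' := by
    intro x y hx hy j
    rw [dotProduct_add, hx j, hy j, add_zero]
  zero_mem' := by
    intro j
    rw [dotProduct_zero]
  smul_mem' := by
    intro r x hx j
    rw [dotProduct_smul, hx j, smul_zero]

/-- The multiplicity `∑ e s`, over the `s` with `G ⊆ H s`. -/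
noncomputable def mlt {V : Type} [AddCommGroup V] [Module ℂ V] {S : Type} [Fintype S]
    (H : S → Submodule ℂ V) (e : S → ℕ) (G : Submodule ℂ V) : ℕ :=
  open Classical in ∑ s, if G ≤ H s then e s else 0

/-- `G` is a Rees flat of the subspaces `H s`, `s ∈ A`: at least one of them contains `G`, and there
is a vector `u` which is contained in none of the `H s ⊇ G`, `s ∈ A`, such that the intersection of
the subspaces `H s + ℂ u`, over the `s ∈ A` with `G ⊆ H s`, is contained in `G + ℂ u`. -/
def IsRF {V : Type} [AddCommGroup V] [Module ℂ V] {S : Type} (H : S → Submodule ℂ V)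
    (A : S → Prop) (G : Submodule ℂ V) : Prop :=
  (∃ s, A s ∧ G ≤ H s) ∧ ∃ u : V, (∀ s, A s → G ≤ H s → u ∉ H s) ∧
    ∀ v : V, (∀ s, A s → G ≤ H s → v ∈ H s ⊔ Submodule.span ℂ {u}) →
      v ∈ G ⊔ Submodule.span ℂ {u}

/-- The ideals in the class `StrongD` of `WeightedConesLocal`. -/
inductive StrongS : Fam → RatFunc ℂ → Prop
  /-- the germs in `StrongLocal` (with finitely many variables) -/
  | loc (A : Fam) (Z : RatFunc ℂ) (hfin : Finite A.σ) (h : StrongLocal A Z) : StrongS A Z
  /-- the determinantal ideals -/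
  | det (A : Fam) (Z : RatFunc ℂ) (h : DetL A Z) : StrongS A Z
  /-- the product `∏ t, I_t ^ a t`, `I_t = (g t j)_j`, with `topZeta` for the divisors `E_i`, `i ∈ J`, of a
  log resolution, `m i t = ord_{E_i} I_t`, `k i = ord_{E_i} K`, and the Euler characteristics `χ S` of
  the parts of the strata over the origin, such that for all `E_i` which occur in a stratum with
  `χ S ≠ 0` the number `-(k i + 1) / ∑ t, a t * m i t` comes from Rees divisors near the origin -/
  | rees (σ T J : Type) [Fintype σ] [DecidableEq σ] [Fintype T] [DecidableEq T] [Fintype J]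
      [DecidableEq J] (κ : T → Type) [∀ t, Fintype (κ t)] [∀ t, DecidableEq (κ t)]
      (g : (t : T) → κ t → MvPolynomial σ ℂ) (hg : ∀ t, ∃ j, g t j ≠ 0) (a : T → ℕ)
      (k : J → ℕ) (m : J → T → ℕ) (χ : Finset J → ℤ)
      (h : ∀ i, 0 < ∑ t, a t * m i t → (∃ S, χ S ≠ 0 ∧ i ∈ S) →
        ∀ H : MvPolynomial σ ℂ, constantCoeff H ≠ 0 →
          FromRees g a H (k i + 1) (∑ t, a t * m i t)) :
      StrongS ⟨σ, (q : Σ t, Fin (a t)) → κ q.1, fun J => ∏ q, g q.1 (J q)⟩
        (topZeta (fun i => ∑ t, a t * m i t) k χ)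
  /-- the product `∏_s I(L_s) ^ e_s`, where `L_s = zer (c s)` is a proper linear subspace, with
  `topZeta` for the wonderful model of a building set `G` of Rees flats of the arrangement, with the
  Euler characteristics `χ` of the parts of the strata over the origin -/
  | arr (σ S I : Type) [Fintype σ] [DecidableEq σ] [Fintype S] [DecidableEq S] [Fintype I]
      [DecidableEq I] (κ : S → Type) [∀ s, Fintype (κ s)] (c : (s : S) → κ s → σ → ℂ)
      (hc : ∀ s, ∃ j, c s j ≠ 0) (e : S → ℕ) (G : I → Submodule ℂ (σ → ℂ))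
      (hG : ∀ i, IsRF (fun s => zer (c s)) (fun s => e s ≠ 0) (G i)) (χ : Finset I → ℤ) :
      StrongS ⟨σ, (p : Σ s, Fin (e s)) → κ p.1,
          fun J => ∏ p, ∑ i, C (c p.1 (J p) i) * X i⟩
        (topZeta (fun i => mlt (fun s => zer (c s)) e (G i))
        (fun i => Fintype.card σ - Module.finrank ℂ (G i) - 1) χ)

/-- The germ of `g` at the origin is a product of two power series `h`, `k` which vanish at the origin and
are relatively prime (in the form: if `k` divides `c h`, then `k` divides `c`). For plane curves this means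
that the germ has at least two branches. -/
def Reducible {σ : Type} (g : MvPolynomial σ ℂ) : Prop :=
  ∃ h k : MvPowerSeries σ ℂ, (g : MvPowerSeries σ ℂ) = h * k ∧
    MvPowerSeries.constantCoeff h = 0 ∧ MvPowerSeries.constantCoeff k = 0 ∧
    ∀ c, k ∣ c * h → k ∣ c

/-- The strong monodromy conjecture for the germ `F` at the origin, with the functions `Z e = Z^(e)`,
`e ≥ 1`, in the reduced form: for all the local functional equations
`(s + 1) q(s) F ^ s = P(s) F ^ (s + 1)`, for example if `q` is the reduced local Bernstein-Sato polynomial,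
`q` is zero at the poles of `(s + 1) Z^(1)` and of `Z^(e)`, `e ≥ 2`. -/
def Holds (σ : Type) (F : MvPolynomial σ ℂ) (Z : ℕ → RatFunc ℂ) : Prop :=
  Finite σ ∧ F ≠ 0 ∧ constantCoeff F = 0 ∧
    ∀ q : Polynomial ℂ, IsLocalBFunction F ((Polynomial.X + 1) * q) →
      (∀ s₀ : ℂ, ((RatFunc.X + 1) * Z 1).denom.eval s₀ = 0 → q.eval s₀ = 0) ∧
      ∀ e, 2 ≤ e → ∀ s₀ : ℂ, (Z e).denom.eval s₀ = 0 → q.eval s₀ = 0

/-- `RO Id Hy σ F Z`: the germ `F` at the origin is obtained by sums, products and powers in disjoint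
sets of variables, and by multiplication with units, from the germs in the class `Hy` (we take
`Hy = Holds`, all germs for which the conjecture holds), plane curves, linear forms over the ideals
in the class `Id` and weighted homogeneous polynomials with an isolated critical point; `Z e`,
`e ≥ 1`, are its twisted local topological zeta functions (see `ZetaE` and `SumDefs`).

The class is closed under the operations of read-once formulas at all points: if `A(x)`, `B(z)` are
polynomials with the values `a`, `b` at points `p`, `q`, and the germs of `A - a` at `p` and of `B - b` at `q` are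
in the class, then so are the germs at `(p, q)` of `A + B - (a + b)` and of `A B - a b` (if `a = b = 0`, by
`mul`; if `a b ≠ 0`, by `unit` and `add` with `c = 1 / (a b)`; if `a = 0 ≠ b`, by `extend` and `unit`), and the
germ at `p` of `A ^ k - a ^ k` (by `pow` if `a = 0`, and by `unit` if `a ≠ 0`). -/
inductive RO (Id : Fam → RatFunc ℂ → Prop)
    (Hy : (σ : Type) → MvPolynomial σ ℂ → (ℕ → RatFunc ℂ) → Prop) :
    (σ : Type) → MvPolynomial σ ℂ → (ℕ → RatFunc ℂ) → Prop
  /-- the germs in the class `Hy` -/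
  | given (σ : Type) (F : MvPolynomial σ ℂ) (Z : ℕ → RatFunc ℂ) (h : Hy σ F Z) : RO Id Hy σ F Z
  /-- the plane curves `g = 0`, `g(0) = 0`, with at least two branches at the origin -/
  | curve (g : MvPolynomial (Fin 2) ℂ) (hg : g ≠ 0) (h0 : constantCoeff g = 0)
      (Z : ℕ → RatFunc ℂ) (hZ : LocalZetaE (fun _ : Fin 1 => g) 0 1 0 1 Z)
      (hr : Reducible g) : RO Id Hy (Fin 2) g Z
  /-- the plane curves `g = 0`, `g(0) = 0`, for which the functions `(s + 1) Z^(1)` and `Z^(e)`, `e ≥ 2`,
  have no pole at `-1` (in particular the ones with one branch) -/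
  | curve' (g : MvPolynomial (Fin 2) ℂ) (hg : g ≠ 0) (h0 : constantCoeff g = 0)
      (Z : ℕ → RatFunc ℂ) (hZ : LocalZetaE (fun _ : Fin 1 => g) 0 1 0 1 Z)
      (h1 : ((RatFunc.X + 1) * Z 1).denom.eval (-1) ≠ 0)
      (h2 : ∀ e, 2 ≤ e → (Z e).denom.eval (-1) ≠ 0) : RO Id Hy (Fin 2) g Z
  /-- the linear forms `∑ y_j f_j(x)` over the ideals `(f_j)` in the class `Id` -/
  | univ (A : Fam) (Z : RatFunc ℂ) (hA : Id A Z) :
      RO Id Hy (A.ι ⊕ A.σ) ((univFam A).f 0)
        (fun e => if e = 1 then Z * (RatFunc.X + 1)⁻¹ else 0)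
  /-- weighted homogeneous polynomials with an isolated critical point: `c e` is the Euler
  characteristic of the set of the orbits of the multiplicative group in the set `g ≠ 0`, where only
  the orbits with a stabiliser of an order `k` such that `e k` divides `d` are considered, and each of
  them is counted `k` times; and `c'` is the same (for `e = 1`) for the set `g = 0` without the origin -/
  | iso (n : ℕ) (g : MvPolynomial (Fin (n + 1)) ℂ) (w : Fin (n + 1) → ℕ) (d : ℕ)
      (hg : IsoCritC g w d) (c : ℕ → ℤ) (c' : ℤ) :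
      RO Id Hy (Fin (n + 1)) g (fun e => if e = 1 then
          ((c 1 : RatFunc ℂ) + (c' : RatFunc ℂ) * (RatFunc.X + 1)⁻¹) * fac d (∑ i, w i)
        else if e ∣ d then (c e : RatFunc ℂ) * fac d (∑ i, w i) else 0)
  /-- a variable -/
  | var : RO Id Hy (Fin 1) (X 0) (fun e => if e = 1 then (RatFunc.X + 1)⁻¹ else 0)
  /-- multiplication with polynomials `U`, `U(0) ≠ 0` -/
  | unit (σ : Type) (F U : MvPolynomial σ ℂ) (Z : ℕ → RatFunc ℂ) (hU : constantCoeff U ≠ 0)
      (h : RO Id Hy σ F Z) : RO Id Hy σ (U * F) Z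
  /-- products in disjoint sets of variables -/
  | mul (σ κ : Type) (F : MvPolynomial σ ℂ) (G : MvPolynomial κ ℂ) (Z W : ℕ → RatFunc ℂ)
      (hF : RO Id Hy σ F Z) (hG : RO Id Hy κ G W) :
      RO Id Hy (σ ⊕ κ) (rename Sum.inl F * rename Sum.inr G) (fun e => Z e * W e)
  /-- powers: the function `Z^(e)` of `F ^ a` is `Z^(e / gcd(e, a))(a s)` -/
  | pow (σ : Type) (F : MvPolynomial σ ℂ) (a : ℕ) (ha : 0 < a) (p q : ℕ → Polynomial ℂ)
      (hq : ∀ e, q e ≠ 0)
      (h : RO Id Hy σ F (fun e => algebraMap (Polynomial ℂ) (RatFunc ℂ) (p e) /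
        algebraMap (Polynomial ℂ) (RatFunc ℂ) (q e))) :
      RO Id Hy σ (F ^ a) (fun e => algebraMap (Polynomial ℂ) (RatFunc ℂ)
          ((p (e / Nat.gcd e a)).comp (Polynomial.C (a : ℂ) * Polynomial.X)) /
        algebraMap (Polynomial ℂ) (RatFunc ℂ)
          ((q (e / Nat.gcd e a)).comp (Polynomial.C (a : ℂ) * Polynomial.X)))
  /-- sums in disjoint sets of variables (see `ExpOf` and `sumZ`), and more generally
  `F + G + c F G`, that is, if `c ≠ 0`, `((1 + c F) (1 + c G) - 1) / c` (this has the same zeta functions as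
  `F + G`, because `log(1 + c F) / c = F U` with a unit `U`) -/
  | add (σ κ : Type) (F : MvPolynomial σ ℂ) (G : MvPolynomial κ ℂ) (c : ℂ) (Z W : ℕ → RatFunc ℂ)
      (u v : ℕ → (ℂ × ℕ →₀ ℂ)) (hu : ExpOf Z u) (hv : ExpOf W v) (M : ℕ) [NeZero M]
      (hM : ∀ e, 1 ≤ e → ¬ e ∣ M → u e = 0 ∧ v e = 0)
      (hF : RO Id Hy σ F Z) (hG : RO Id Hy κ G W) :
      RO Id Hy (σ ⊕ κ) (rename Sum.inl F + rename Sum.inr G +
        C c * (rename Sum.inl F * rename Sum.inr G)) (sumZ M u v)
  /-- more variables -/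
  | extend (σ κ : Type) (hκ : Finite κ) (F : MvPolynomial σ ℂ) (Z : ℕ → RatFunc ℂ)
      (h : RO Id Hy σ F Z) : RO Id Hy (σ ⊕ κ) (rename Sum.inl F) Z
  /-- variables which do not occur may be dropped -/
  | drop (σ κ : Type) (F : MvPolynomial σ ℂ) (Z : ℕ → RatFunc ℂ)
      (h : RO Id Hy (σ ⊕ κ) (rename Sum.inl F) Z) : RO Id Hy σ F Z
  /-- renaming of variables -/
  | equiv (σ κ : Type) (i : σ ≃ κ) (F : MvPolynomial σ ℂ) (Z : ℕ → RatFunc ℂ)
      (h : RO Id Hy σ F Z) : RO Id Hy κ (rename i F) Z

/-- The hypersurfaces in `StrongHyp`, and the ones in the class `R` with the function `Z^(1)`. -/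
inductive HypOf (R : (σ : Type) → MvPolynomial σ ℂ → (ℕ → RatFunc ℂ) → Prop) :
    Fam → RatFunc ℂ → Prop
  /-- the hypersurfaces in `StrongHyp` -/
  | lib (A : Fam) (Z : RatFunc ℂ) (h : StrongHyp A Z) : HypOf R A Z
  /-- the hypersurfaces in `R` -/
  | new (σ : Type) (F : MvPolynomial σ ℂ) (Z : ℕ → RatFunc ℂ) (h : R σ F Z) :
      HypOf R ⟨σ, Fin 1, fun _ => F⟩ (Z 1)

/-- The classes of ideals: `IdL 0` is the class of `WeightedConesLocal`, and `IdL (n + 1)` is the class
which is obtained in the same way if also the hypersurfaces in `RO (IdL n) Holds` are allowed. -/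
def IdL : ℕ → Fam → RatFunc ℂ → Prop
  | 0 => fun A Z => ∃ (k : ℕ) (c : Bool), TW StrongS StrongHyp k c A Z
  | n + 1 => fun A Z => ∃ (k : ℕ) (c : Bool), TW StrongS (HypOf (RO (IdL n) Holds)) k c A Z

end Pool.Agent.T6.H56.TSG
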