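import Pool.Agent.T6.H56.TSG.Gd
import Pool.Agent.R852.TP.Pow

set_option autoImplicit false
set_option linter.unusedSectionVars false
set_option linter.unusedVariables false

/-! # The roots of the reduced local Bernstein-Sato polynomial are reduced forced roots -/

namespace Pool.Agent.T6.H56.TSG

open MvPolynomial Pool.Agent.W574.SM Pool.Agent.W574.CN Pool.Agent.W574.RO Pool.Agent.Y229
open Pool.Agent.W574.LM Pool.Agent.W574.HS
open Pool.Agent.Y230.TH (W)
open Pool.Agent.Y230.TL (RE RF tA sf_minus_one root_of_sf)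
open Pool.Agent.H628R4.TP (IsLocalBFunction)

variable {σ : Type}

/-- the ideal of the polynomials `B(x, s)` in the reduced functional equations -/
noncomputable def JJ (F : MvPolynomial σ ℂ) : Ideal (Polynomial (MvPolynomial σ ℂ)) where
  carrier := {D | (fun k : ℕ => D.eval (k : MvPolynomial σ ℂ) * F ^ k) ∈ W F}
  add_mem' := by
    intro D E hD hE
    refine (congrArg (· ∈ W F) (funext fun k => ?_)).mp ((W F).add_mem hD hE)
    rw [Polynomial.eval_add, add_mul]
    rfl
  zero_mem' := by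
    refine (congrArg (· ∈ W F) (funext fun k => ?_)).mp (W F).zero_mem
    rw [Polynomial.eval_zero, zero_mul]
    rfl
  smul_mem' := by
    intro c D hD
    change (fun k : ℕ => (c * D).eval (k : MvPolynomial σ ℂ) * F ^ k) ∈ W F
    induction c using Polynomial.induction_on' with
    | add p q hp hq =>
      refine (congrArg (· ∈ W F) (funext fun k => ?_)).mp ((W F).add_mem hp hq)
      rw [add_mul, Polynomial.eval_add, add_mul]
      rfl
    | monomial n a =>
      have h1 : (fun k : ℕ => ((k : ℂ) ^ n) • (D.eval (k : MvPolynomial σ ℂ) * F ^ k)) ∈ W F := by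
        induction n with
        | zero =>
          refine (congrArg (· ∈ W F) (funext fun k => ?_)).mp hD
          rw [pow_zero, one_smul]
        | succ n ih =>
          refine (congrArg (· ∈ W F) (funext fun k => ?_)).mp (W_k F _ ih)
          rw [smul_smul, pow_succ']
      refine (congrArg (· ∈ W F) (funext fun k => ?_)).mp
        (W_weyl F ⟨LinearMap.mulLeft ℂ a, Pool.Agent.R852.TP.hmul a⟩ _ h1)
      change a * (((k : ℂ) ^ n) • (D.eval (k : MvPolynomial σ ℂ) * F ^ k)) = _
      rw [Polynomial.eval_mul, Polynomial.eval_monomial, smul_eq_C_mul, map_pow, map_natCast]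
      ring

theorem mem_JJ (F : MvPolynomial σ ℂ) (D : Polynomial (MvPolynomial σ ℂ)) :
    D ∈ JJ F ↔ (fun k : ℕ => D.eval (k : MvPolynomial σ ℂ) * F ^ k) ∈ W F := Iff.rfl

/-- from equations on a neighbourhood of the origin to formal power series -/
theorem local_of_alg (F : MvPolynomial σ ℂ) (b : Polynomial ℂ) (H : MvPolynomial σ ℂ)
    (P : ℕ →₀ weyl σ) (hH : constantCoeff H ≠ 0)
    (hP : ∀ s : ℕ, H * (C (b.eval (s : ℂ)) * F ^ s) = P.sum fun m Q => ((s : ℂ) ^ m) •
      (Q : Module.End ℂ (MvPolynomial σ ℂ)) (F ^ (s + 1))) : IsLocalBFunction F b := by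
  classical
  have hH' : MvPowerSeries.constantCoeff (H : MvPowerSeries σ ℂ) ≠ 0 := by
    rw [← MvPowerSeries.coeff_zero_eq_constantCoeff_apply, MvPolynomial.coeff_coe]
    rwa [← constantCoeff_eq]
  set e := P.support.equivFin with he
  refine ⟨P.support.card, fun i => (e.symm i : ℕ), fun _ => (H : MvPowerSeries σ ℂ)⁻¹,
    fun i => P (e.symm i), fun s => ?_⟩
  have h1 := congrArg (fun G : MvPolynomial σ ℂ => (H : MvPowerSeries σ ℂ)⁻¹ *
    coeToMvPowerSeries.ringHom G) (hP s)
  beta_reduce at h1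
  rw [map_mul, Finsupp.sum, map_sum] at h1
  have h2 : (H : MvPowerSeries σ ℂ)⁻¹ * (coeToMvPowerSeries.ringHom H *
      coeToMvPowerSeries.ringHom (C (b.eval (s : ℂ)) * F ^ s)) =
      MvPowerSeries.C (b.eval (s : ℂ)) * ((F ^ s : MvPolynomial σ ℂ) : MvPowerSeries σ ℂ) := by
    rw [← mul_assoc]
    change (H : MvPowerSeries σ ℂ)⁻¹ * (H : MvPowerSeries σ ℂ) * _ = _
    rw [MvPowerSeries.inv_mul_cancel _ hH', one_mul, map_mul]
    congr 1
    exact MvPolynomial.coe_C _
  rw [h2] at h1
  rw [h1, Finset.mul_sum, ← Finset.sum_coe_sort P.support, ← e.symm.sum_comp]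
  refine Finset.sum_congr rfl fun i _ => ?_
  rw [smul_eq_C_mul, map_mul, mul_left_comm]
  congr 1
  exact MvPolynomial.coe_C _

/-- the equations with `B = H(x) q(s)` -/
theorem local_of_JJ [Finite σ] (F : MvPolynomial σ ℂ) (hF : F ≠ 0) (q : Polynomial ℂ)
    (H : MvPolynomial σ ℂ) (hH : constantCoeff H ≠ 0)
    (h : Polynomial.C H * q.map C ∈ JJ F) : IsLocalBFunction F ((Polynomial.X + 1) * q) := by
  obtain ⟨P, hP⟩ := tA F hF _ h
  refine local_of_alg F _ H P hH fun k => ?_
  refine Eq.trans ?_ (hP k)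
  rw [Polynomial.eval_mul, Polynomial.eval_mul, Polynomial.eval_C, eval_map_C,
    Polynomial.eval_add, Polynomial.eval_X, Polynomial.eval_one, smul_eq_C_mul, map_mul]
  ring

theorem JJ_of_local [Finite σ] (F : MvPolynomial σ ℂ) (hF : F ≠ 0) (q : Polynomial ℂ)
    (hb : IsLocalBFunction F ((Polynomial.X + 1) * q)) :
    ∃ H : MvPolynomial σ ℂ, constantCoeff H ≠ 0 ∧ Polynomial.C H * q.map C ∈ JJ F := by
  obtain ⟨H, P, hH, hP⟩ := algebraic_of_local F hF _ hb
  refine ⟨H, hH, ?_⟩
  have h1 : RE F (Polynomial.C H * q.map C) P := by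
    intro k
    have h2 := hP k
    refine Eq.trans ?_ h2
    rw [Polynomial.eval_mul, Polynomial.eval_C, eval_map_C, Polynomial.eval_mul,
      Polynomial.eval_add, Polynomial.eval_X, Polynomial.eval_one, smul_eq_C_mul, map_mul]
    ring
  exact W_of_RE F _ P h1

/-- **The roots of the reduced local Bernstein-Sato polynomial are reduced forced roots.** -/
theorem exists_red [Finite σ] (F : MvPolynomial σ ℂ) (hF : F ≠ 0) (h0 : constantCoeff F = 0) :
    ∃ q : Polynomial ℂ, IsLocalBFunction F ((Polynomial.X + 1) * q) ∧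
      ∀ α : ℂ, q.eval α = 0 → RF F 0 α := by
  classical
  -- existence
  have hex : ∃ q : Polynomial ℂ, q ≠ 0 ∧ IsLocalBFunction F ((Polynomial.X + 1) * q) := by
    obtain ⟨b, hb0, S, P, hS, hP⟩ := exists_fe (fun _ : Fin 1 => F) ⟨0, hF⟩
    have hb1 : IsLocEq 1 (fun _ : Fin 1 => F) b :=
      ⟨S, P, hS, fun s => by rw [one_mul]; exact hP s⟩
    obtain ⟨P', hP'⟩ := Pool.Agent.R852.TL.single_of_locEq F 1 b hb1
    have hb : IsLocalBFunction F b := local_of_alg F b 1 P' (by simp) hP'
    have hm : b.eval (-1) = 0 :=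
      root_of_sf inferInstance F hF (-1) (sf_minus_one F hF h0) b hb
    obtain ⟨q, hq⟩ : (Polynomial.X + 1 : Polynomial ℂ) ∣ b := by
      have h2 := Polynomial.dvd_iff_isRoot.2 (show b.IsRoot (-1) from hm)
      rwa [map_neg, map_one, sub_neg_eq_add] at h2
    subst hq
    exact ⟨q, right_ne_zero_of_mul hb0, hb⟩
  -- minimal degree
  have hmin : ∃ d : ℕ, ∃ q : Polynomial ℂ, q ≠ 0 ∧ q.natDegree = d ∧
      IsLocalBFunction F ((Polynomial.X + 1) * q) := by
    obtain ⟨q, hq0, hq⟩ := hex
    exact ⟨_, q, hq0, rfl, hq⟩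
  obtain ⟨q, hq0, hqd, hq⟩ := Nat.find_spec hmin
  refine ⟨q, hq, fun α hα B P hP => ?_⟩
  by_contra hB
  obtain ⟨H, hH, hHq⟩ := JJ_of_local F hF q hq
  have hBJ : B ∈ JJ F := W_of_RE F B P hP
  set B0 : MvPolynomial σ ℂ := B.eval (C α) with hB0
  obtain ⟨D, hD⟩ : (Polynomial.X - Polynomial.C (C α)) ∣ B - Polynomial.C B0 :=
    Polynomial.X_sub_C_dvd_sub_C_eval
  set m := q.rootMultiplicity α with hm
  obtain ⟨q1, hq1, hq1α⟩ := Polynomial.exists_eq_pow_rootMultiplicity_mul_and_not_dvd q hq0 α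
  rw [← hm] at hq1
  have hm0 : 0 < m := (Polynomial.rootMultiplicity_pos hq0).2 hα
  have hq10 : q1 ≠ 0 := by
    rintro rfl
    exact hq1α (dvd_zero _)
  -- the new equation
  obtain ⟨E, hE⟩ : B ∣ (Polynomial.C B0) ^ m -
      (-((Polynomial.X - Polynomial.C (C α)) * D)) ^ m := by
    have h1 := sub_dvd_pow_sub_pow (Polynomial.C B0)
      (-((Polynomial.X - Polynomial.C (C α)) * D)) m
    have h2 : Polynomial.C B0 - -((Polynomial.X - Polynomial.C (C α)) * D) = B := by
      rw [← hD]
      ring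
    rwa [h2] at h1
  have hmap : q.map C = (Polynomial.X - Polynomial.C (C α : MvPolynomial σ ℂ)) ^ m *
      q1.map C := by
    rw [hq1, Polynomial.map_mul, Polynomial.map_pow, Polynomial.map_sub, Polynomial.map_X,
      Polynomial.map_C]
  have hnew : Polynomial.C (H * B0 ^ m) * q1.map C ∈ JJ F := by
    have e : Polynomial.C (H * B0 ^ m) * q1.map C =
        (Polynomial.C H * q1.map C * E) * B + ((-1) ^ m * D ^ m) * (Polynomial.C H * q.map C) := by
      have h3 : (Polynomial.C B0) ^ m = B * E +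
          (-((Polynomial.X - Polynomial.C (C α)) * D)) ^ m := by
        rw [← hE]
        ring
      have h4 : (-((Polynomial.X - Polynomial.C (C α : MvPolynomial σ ℂ)) * D)) ^ m =
          (-1) ^ m * (Polynomial.X - Polynomial.C (C α : MvPolynomial σ ℂ)) ^ m * D ^ m := by
        have h5 : (-((Polynomial.X - Polynomial.C (C α : MvPolynomial σ ℂ)) * D)) =
            (-1) * (Polynomial.X - Polynomial.C (C α : MvPolynomial σ ℂ)) * D := by ring
        rw [h5, mul_pow, mul_pow]
      rw [Polynomial.C_mul, Polynomial.C_pow, h3, h4, hmap]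
      ring
    rw [e]
    exact (JJ F).add_mem ((JJ F).mul_mem_left _ hBJ) ((JJ F).mul_mem_left _ hHq)
  have hc : constantCoeff (H * B0 ^ m) ≠ 0 := by
    rw [map_mul, map_pow]
    refine mul_ne_zero hH (pow_ne_zero _ ?_)
    rw [← MvPolynomial.eval_zero]
    exact hB
  have hloc := local_of_JJ F hF q1 _ hc hnew
  have hdeg : q1.natDegree < q.natDegree := by
    conv_rhs => rw [hq1]
    rw [Polynomial.natDegree_mul (pow_ne_zero _ (Polynomial.X_sub_C_ne_zero α)) hq10,
      Polynomial.natDegree_pow, Polynomial.natDegree_X_sub_C]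
    omega
  rw [hqd] at hdeg
  exact Nat.find_min hmin hdeg ⟨q1, hq10, rfl, hloc⟩

/-- **The roots of the reduced local Bernstein-Sato polynomials add up** for sums of arbitrary
polynomials in disjoint sets of variables: if `α` is a root of all polynomials `q` for which
`(s + 1) q` satisfies a local functional equation of `F`, and `β` the same for `G`, then `α + β` has
this property for `F + G + c F G`. -/
theorem root_sum {κ : Type} [Finite σ] [Finite κ] (F : MvPolynomial σ ℂ) (G : MvPolynomial κ ℂ)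
    (c : ℂ) (hF : F ≠ 0) (hG : G ≠ 0) (hF0 : constantCoeff F = 0) (hG0 : constantCoeff G = 0)
    (α β : ℂ) (hα : ∀ q : Polynomial ℂ, IsLocalBFunction F ((Polynomial.X + 1) * q) → q.eval α = 0)
    (hβ : ∀ q : Polynomial ℂ, IsLocalBFunction G ((Polynomial.X + 1) * q) → q.eval β = 0)
    (q : Polynomial ℂ) (hq : IsLocalBFunction (rename Sum.inl F + rename Sum.inr G +
      C c * (rename Sum.inl F * rename Sum.inr G)) ((Polynomial.X + 1) * q)) :
    q.eval (α + β) = 0 := by
  obtain ⟨q1, h1, h2⟩ := exists_red F hF hF0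
  obtain ⟨q2, h3, h4⟩ := exists_red G hG hG0
  have hne := kap_ne F G c hF hG0
  have h5 := rf_kap F G c hF hG hne 0 0 α β (h2 α (hα q1 h1)) (h4 β (hβ q2 h3))
  have e : (Sum.elim 0 0 : σ ⊕ κ → ℂ) = 0 := by
    funext x
    rcases x with x | x <;> rfl
  rw [e] at h5
  obtain ⟨H, hH, h6⟩ := JJ_of_local _ hne q hq
  obtain ⟨P, hP⟩ := tA _ hne _ h6
  have h7 := h5 _ P hP
  rw [Polynomial.eval_mul, Polynomial.eval_C, Polynomial.eval_map, Polynomial.eval₂_at_apply,
    map_mul, eval_C, MvPolynomial.eval_zero] at h7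
  exact (mul_eq_zero.1 h7).resolve_left hH

end Pool.Agent.T6.H56.TSG
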