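import Pool.Agent.T6.H56.TSG.Gd
import Pool.Agent.T6.H56.TSG.NAK
import Pool.Agent.T6.H56.TSG.Defs
import Pool.Agent.T6.H56.LC.LCMain

set_option autoImplicit false
set_option linter.unusedSectionVars false
set_option linter.unusedVariables false

/-! # The induction -/

namespace Pool.Agent.T6.H56.TSG

open MvPolynomial Pool.Agent.W574.SM Pool.Agent.W574.CN Pool.Agent.W574.RO Pool.Agent.Y229
open Pool.Agent.W574.LM Pool.Agent.W574.HS
open Pool.Agent.T6.H26 Pool.Agent.T6.H56.LC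
open Pool.Agent.Y230.TL (RF StL StU StJ Cl sf_minus_one strongHyp_cl StrongHyp RE root_of_sf)
open Pool.Agent.H628R4.TP (IsLocalBFunction)

/-- the properties of the ideals in the class -/
structure Nice (A : Fam) (Z : RatFunc ℂ) : Prop where
  fin : Finite A.σ
  ne : ∃ j, A.f j ≠ 0
  pole : ∀ s : ℂ, Z.denom.eval s = 0 → SF A.f 0 s

theorem nice_of_cl (c : Bool) (A : Fam) (Z : RatFunc ℂ) (h : Cl ⊥ c A Z) : Nice A Z := by
  refine ⟨h.fin, h.ne, fun s hs => ?_⟩
  obtain ⟨t, ht, h1⟩ := h.pole s hs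
  rw [AddSubmonoid.mem_bot] at ht
  rw [ht, sub_zero] at h1
  exact h1

/-- the statements about the operations -/
structure Ops : Prop where
  hJ : StJ
  hU : StU
  hL : StL
  pro : StmPRO
  pow : StmPOW
  iso : StmISO
  uni : StmUNI
  red : StmRED

theorem gd_holds (σ : Type) (F : MvPolynomial σ ℂ) (Z : ℕ → RatFunc ℂ) (h : Holds σ F Z) :
    Gd σ F Z := by
  obtain ⟨hfin, hF, h0, h⟩ := h
  obtain ⟨q, hq, hr⟩ := exists_red F hF h0
  exact ⟨hfin, hF, h0, ⟨fun s hs => hr s ((h q hq).1 s hs), fun e he s hs =>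
    hr s ((h q hq).2 e he s hs)⟩⟩

theorem ro_gd (O : Ops) (Id : Fam → RatFunc ℂ → Prop) (hId : ∀ A Z, Id A Z → Nice A Z)
    (σ : Type) (F : MvPolynomial σ ℂ) (Z : ℕ → RatFunc ℂ) (h : RO Id Holds σ F Z) :
    Gd σ F Z := by
  induction h with
  | given σ F Z h => exact gd_holds σ F Z h
  | curve g hg h0 Z hZ hr =>
    obtain ⟨h, k, e, hh, hk, hc⟩ := hr
    have h1 : RF g 0 (-1) := O.red g h k hg e hh hk hc
    exact gd_curve O.hL g hg h0 Z hZ (Or.inl h1) fun _ _ => Or.inl h1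
  | curve' g hg h0 Z hZ h1 h2 =>
    exact gd_curve O.hL g hg h0 Z hZ (Or.inr h1) fun e he => Or.inr (h2 e he)
  | univ A Z hA =>
    have h1 := hId A Z hA
    exact gd_univ O.hU A Z h1.fin h1.ne h1.pole
  | iso n g w d hg c c' => exact gd_iso O.iso n g w d hg c c'
  | var => exact gd_var
  | unit σ F U Z hU h ih => exact gd_unit O.uni F U Z hU ih
  | mul σ κ F G Z W hF hG ihF ihG => exact gd_mul O.hL O.pro F G Z W ihF ihG
  | pow σ F a ha p q hq h ih => exact gd_pow O.hL O.pow F a ha p q hq ih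
  | add σ κ F G c Z W u v hu hv M hM hF hG ihF ihG => exact gd_add F G c Z W ihF ihG u v hu hv M
  | extend σ κ hκ F Z h ih => exact gd_ext hκ F Z ih
  | drop σ κ F Z h ih => exact gd_drop O.hL F Z ih
  | equiv σ κ i F Z h ih => exact gd_equiv O.hL i F Z ih

theorem hypOf_cl (O : Ops) (R : (σ : Type) → MvPolynomial σ ℂ → (ℕ → RatFunc ℂ) → Prop)
    (hR : ∀ σ F Z, R σ F Z → Gd σ F Z) (A : Fam) (Z : RatFunc ℂ) (h : HypOf R A Z) :
    Cl ⊥ true A Z := by
  cases h with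
  | lib A Z h => exact strongHyp_cl O.hL _ _ h
  | new σ F Z h =>
    have h1 := hR σ F Z h
    have := h1.fin
    refine ⟨h1.fin, ⟨(0 : Fin 1), h1.ne⟩, fun s hs => ⟨0, AddSubmonoid.zero_mem _, ?_⟩,
      fun _ s hs => ⟨0, AddSubmonoid.zero_mem _, fun j => ?_⟩⟩
    · rw [sub_zero]
      by_cases hs1 : s = -1
      · rw [hs1]
        exact sf_minus_one F h1.ne h1.c0
      · exact O.hL.sf_of_rf F 0 s (po_gen h1.po 1 le_rfl s hs1 hs)
    · rw [sub_zero]
      exact h1.po.one s hs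

theorem strongS_D (A : Fam) (Z : RatFunc ℂ) (h : StrongS A Z) : StrongD A Z := by
  cases h with
  | loc _ _ h1 h2 => exact StrongD.lib _ _ (Pool.Agent.R852.TL.StrongL.loc A Z h1 h2)
  | det _ _ h => exact StrongD.det A Z h
  | rees σ T J κ g hg a k m χ h =>
    exact StrongD.lib _ _ (Pool.Agent.R852.TL.StrongL.rees σ T J κ g hg a k m χ h)
  | arr σ S I κ c hc e G hG χ =>
    exact StrongD.lib _ _ (Pool.Agent.R852.TL.StrongL.arr σ S I κ c hc e G hG χ)

theorem idL_nice (O : Ops) : ∀ (n : ℕ) (A : Fam) (Z : RatFunc ℂ), IdL n A Z → Nice A Z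
  | 0 => fun A Z ⟨k, c, h⟩ => nice_of_cl c A Z
    (tw_closure O.hJ O.hU O.hL ⊥ bot_countable Pool.Agent.R852.TP.bot_div StrongS StrongHyp
      (fun A Z h => strongD_at ⊥ A Z (strongS_D A Z h)) (strongHyp_cl O.hL) k c A Z h)
  | n + 1 => fun A Z ⟨k, c, h⟩ => nice_of_cl c A Z
    (tw_closure O.hJ O.hU O.hL ⊥ bot_countable Pool.Agent.R852.TP.bot_div StrongS
      (HypOf (RO (IdL n) Holds)) (fun A Z h => strongD_at ⊥ A Z (strongS_D A Z h))
      (hypOf_cl O _ (fun σ F Z h => ro_gd O (IdL n) (idL_nice O n) σ F Z h)) k c A Z h)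

/-- the roots of the reduced local Bernstein-Sato polynomial -/
theorem red_root {σ : Type} (hfin : Finite σ) (F : MvPolynomial σ ℂ) (hF : F ≠ 0) (s : ℂ)
    (h : RF F 0 s) (q : Polynomial ℂ) (hb : IsLocalBFunction F ((Polynomial.X + 1) * q)) :
    q.eval s = 0 := by
  classical
  obtain ⟨H, P, hH, hP⟩ := algebraic_of_local F hF _ hb
  have h1 : RE F (Polynomial.C H * q.map C) P := by
    intro k
    have h2 := hP k
    refine Eq.trans ?_ h2
    rw [Polynomial.eval_mul, Polynomial.eval_C, eval_map_C, Polynomial.eval_mul,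
      Polynomial.eval_add, Polynomial.eval_X, Polynomial.eval_one, smul_eq_C_mul, map_mul]
    ring
  have h3 := h _ P h1
  rw [Polynomial.eval_mul, Polynomial.eval_C, Polynomial.eval_map, Polynomial.eval₂_at_apply,
    map_mul, eval_C, MvPolynomial.eval_zero] at h3
  exact (mul_eq_zero.1 h3).resolve_left hH

/-- **The strong conjecture for the ideals in the class.** -/
theorem idL_strong (O : Ops) (n : ℕ) (A : Fam) (Z : RatFunc ℂ) (h : IdL n A Z)
    (b : Polynomial ℂ) (hb : IsLocalBI A.f b) (s₀ : ℂ) (hs : Z.denom.eval s₀ = 0) :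
    b.eval s₀ = 0 := by
  classical
  have h1 := idL_nice O n A Z h
  have := h1.fin
  exact (h1.pole s₀ hs).localBI b hb

/-- **The strong conjecture for the hypersurfaces in the class.** -/
theorem ro_strong (O : Ops) (n : ℕ) (σ : Type) (F : MvPolynomial σ ℂ) (Z : ℕ → RatFunc ℂ)
    (h : RO (IdL n) Holds σ F Z) (b : Polynomial ℂ) (hb : IsLocalBFunction F b) :
    (∀ s₀ : ℂ, (Z 1).denom.eval s₀ = 0 → b.eval s₀ = 0) ∧
    ∃ q : Polynomial ℂ, b = (Polynomial.X + 1) * q ∧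
      (∀ s₀ : ℂ, ((RatFunc.X + 1) * Z 1).denom.eval s₀ = 0 → q.eval s₀ = 0) ∧
      ∀ e, 2 ≤ e → ∀ s₀ : ℂ, (Z e).denom.eval s₀ = 0 → q.eval s₀ = 0 := by
  classical
  have h1 := ro_gd O (IdL n) (idL_nice O n) σ F Z h
  have hfin := h1.fin
  have hm : b.eval (-1) = 0 :=
    root_of_sf h1.fin F h1.ne (-1) (sf_minus_one F h1.ne h1.c0) b hb
  obtain ⟨q, hq⟩ : (Polynomial.X + 1 : Polynomial ℂ) ∣ b := by
    have h2 := Polynomial.dvd_iff_isRoot.2 (show b.IsRoot (-1) from hm)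
    rwa [map_neg, map_one, sub_neg_eq_add] at h2
  subst hq
  refine ⟨fun s hs => ?_, q, rfl, fun s hs => red_root h1.fin F h1.ne s (h1.po.one s hs) q hb,
    fun e he s hs => red_root h1.fin F h1.ne s (h1.po.two e he s hs) q hb⟩
  by_cases hs1 : s = -1
  · rw [hs1]
    exact hm
  · rw [Polynomial.eval_mul, red_root h1.fin F h1.ne s (po_gen h1.po 1 le_rfl s hs1 hs) q hb,
      mul_zero]

end Pool.Agent.T6.H56.TSG
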