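import Pool.Agent.Y230.TL.A
import Pool.Agent.T6.H26.FTRoot

set_option autoImplicit false
set_option linter.unusedSectionVars false
set_option linter.unusedVariables false

/-! # Reduced functional equations of `f(x) + g(z)`, arbitrary `f` and `g`

The elements `A exp(f T)`, `A` a Laurent polynomial in `T` with polynomial coefficients. -/

namespace Pool.Agent.T6.H56.TSG

open MvPolynomial
open Pool.Agent.W574.SM (weyl)
open Pool.Agent.H628R4.TP (IsBFunction)
open Pool.Agent.Y230.TH (kf W StA)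
open Pool.Agent.T6.H26 (pz pz_nat pz_neg cor cor_mul)
open scoped TensorProduct

/-- Laurent polynomials in `T` -/
abbrev L (σ : Type) : Type := ℤ →₀ MvPolynomial σ ℂ

variable {σ κ : Type}

/-- the operator `a T ^ j ↦ φ_j(a) T ^ (j + e)` -/
noncomputable def op (e : ℤ) (φ : ℤ → (MvPolynomial σ ℂ →ₗ[ℂ] MvPolynomial κ ℂ)) :
    L σ →ₗ[ℂ] L κ :=
  Finsupp.lsum ℂ fun j => (Finsupp.lsingle (j + e)) ∘ₗ φ j

@[simp] theorem op_single (e : ℤ) (φ : ℤ → (MvPolynomial σ ℂ →ₗ[ℂ] MvPolynomial κ ℂ)) (j : ℤ)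
    (a : MvPolynomial σ ℂ) :
    op e φ (Finsupp.single j a) = Finsupp.single (j + e) (φ j a) := by
  simp [op]

/-- multiplication by a polynomial -/
noncomputable def mu (c : MvPolynomial σ ℂ) : L σ →ₗ[ℂ] L σ :=
  op 0 fun _ => LinearMap.mulLeft ℂ c

/-- the derivative -/
noncomputable def Dl (f : MvPolynomial σ ℂ) (i : σ) : L σ →ₗ[ℂ] L σ :=
  op 0 (fun _ => ((pderiv i : Derivation ℂ (MvPolynomial σ ℂ) (MvPolynomial σ ℂ)) :
    MvPolynomial σ ℂ →ₗ[ℂ] MvPolynomial σ ℂ)) + op 1 (fun _ => LinearMap.mulLeft ℂ (pderiv i f))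

/-- the operator `T ∂_T` -/
noncomputable def Sl (f : MvPolynomial σ ℂ) : L σ →ₗ[ℂ] L σ :=
  op 0 (fun j => (j : ℂ) • LinearMap.id) + op 1 (fun _ => LinearMap.mulLeft ℂ f)

/-- the operator `T⁻¹` -/
noncomputable def ta : L σ →ₗ[ℂ] L σ := op (-1) fun _ => LinearMap.id

theorem mu_single (c : MvPolynomial σ ℂ) (j : ℤ) (a : MvPolynomial σ ℂ) :
    mu c (Finsupp.single j a) = Finsupp.single j (c * a) := by
  rw [mu, op_single, add_zero]
  rfl

theorem Dl_single (f : MvPolynomial σ ℂ) (i : σ) (j : ℤ) (a : MvPolynomial σ ℂ) :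
    Dl f i (Finsupp.single j a) = Finsupp.single j (pderiv i a) +
      Finsupp.single (j + 1) (pderiv i f * a) := by
  rw [Dl, LinearMap.add_apply, op_single, op_single, add_zero]
  rfl

theorem Sl_single (f : MvPolynomial σ ℂ) (j : ℤ) (a : MvPolynomial σ ℂ) :
    Sl f (Finsupp.single j a) = Finsupp.single j ((j : ℂ) • a) +
      Finsupp.single (j + 1) (f * a) := by
  rw [Sl, LinearMap.add_apply, op_single, op_single, add_zero]
  rfl

theorem ta_single (j : ℤ) (a : MvPolynomial σ ℂ) :
    ta (Finsupp.single j a) = Finsupp.single (j - 1) a := by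
  rw [ta, op_single]
  rfl

theorem ta_mu (c : MvPolynomial σ ℂ) (v : L σ) : ta (mu c v) = mu c (ta v) := by
  induction v using Finsupp.induction_linear with
  | zero => simp
  | add u v hu hv => simp only [map_add, hu, hv]
  | single j a => rw [mu_single, ta_single, ta_single, mu_single]

theorem ta_Dl (f : MvPolynomial σ ℂ) (i : σ) (v : L σ) : ta (Dl f i v) = Dl f i (ta v) := by
  induction v using Finsupp.induction_linear with
  | zero => simp
  | add u v hu hv => simp only [map_add, hu, hv]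
  | single j a =>
    rw [Dl_single, map_add, ta_single, ta_single, ta_single, Dl_single]
    congr 2
    ring

theorem ta_Sl (f : MvPolynomial σ ℂ) (v : L σ) : ta (Sl f v) = Sl f (ta v) + ta v := by
  induction v using Finsupp.induction_linear with
  | zero => simp
  | add u v hu hv =>
    simp only [map_add, hu, hv]
    abel
  | single j a =>
    rw [Sl_single, map_add, ta_single, ta_single, ta_single, Sl_single]
    have h1 : ((j : ℂ) • a : MvPolynomial σ ℂ) = ((j - 1 : ℤ) : ℂ) • a + a := by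
      push_cast
      rw [sub_smul, one_smul]
      abel
    have h2 : j + 1 - 1 = j - 1 + 1 := by ring
    rw [h1, Finsupp.single_add, h2]
    abel

/-- words -/
inductive Wd (f : MvPolynomial σ ℂ) : L σ → Prop
  | one : Wd f (Finsupp.single 0 1)
  | X (i : σ) (v : L σ) (h : Wd f v) : Wd f (mu (MvPolynomial.X i) v)
  | D (i : σ) (v : L σ) (h : Wd f v) : Wd f (Dl f i v)
  | S (v : L σ) (h : Wd f v) : Wd f (Sl f v)
  | T (v : L σ) (h : Wd f v) : Wd f (ta v)

/-- the module `N_f` -/
noncomputable def N (f : MvPolynomial σ ℂ) : Submodule ℂ (L σ) := Submodule.span ℂ {v | Wd f v}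

theorem N_one (f : MvPolynomial σ ℂ) : Finsupp.single 0 1 ∈ N f := Submodule.subset_span Wd.one

theorem N_op (f : MvPolynomial σ ℂ) (A : L σ →ₗ[ℂ] L σ) (hA : ∀ v, Wd f v → Wd f (A v)) (v : L σ)
    (hv : v ∈ N f) : A v ∈ N f := by
  have h1 : N f ≤ (N f).comap A := by
    unfold N
    rw [Submodule.span_le]
    intro u hu
    exact Submodule.subset_span (hA u hu)
  exact h1 hv

theorem N_X (f : MvPolynomial σ ℂ) (i : σ) (v : L σ) (hv : v ∈ N f) :
    mu (MvPolynomial.X i) v ∈ N f := N_op f _ (fun v h => Wd.X i v h) v hv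

theorem N_D (f : MvPolynomial σ ℂ) (i : σ) (v : L σ) (hv : v ∈ N f) : Dl f i v ∈ N f :=
  N_op f _ (fun v h => Wd.D i v h) v hv

theorem N_S (f : MvPolynomial σ ℂ) (v : L σ) (hv : v ∈ N f) : Sl f v ∈ N f :=
  N_op f _ (fun v h => Wd.S v h) v hv

theorem N_T (f : MvPolynomial σ ℂ) (v : L σ) (hv : v ∈ N f) : ta v ∈ N f :=
  N_op f _ (fun v h => Wd.T v h) v hv

theorem mu_add (c d : MvPolynomial σ ℂ) (v : L σ) : mu (c + d) v = mu c v + mu d v := by
  induction v using Finsupp.induction_linear with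
  | zero => simp
  | add u v hu hv =>
    simp only [map_add, hu, hv]
    abel
  | single j a => rw [mu_single, mu_single, mu_single, add_mul, Finsupp.single_add]

theorem mu_mul (c d : MvPolynomial σ ℂ) (v : L σ) : mu (c * d) v = mu c (mu d v) := by
  induction v using Finsupp.induction_linear with
  | zero => simp
  | add u v hu hv => simp only [map_add, hu, hv]
  | single j a => rw [mu_single, mu_single, mu_single, mul_assoc]

theorem mu_C (c : ℂ) (v : L σ) : mu (C c) v = c • v := by
  induction v using Finsupp.induction_linear with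
  | zero => simp
  | add u v hu hv => simp only [map_add, smul_add, hu, hv]
  | single j a => rw [mu_single, Finsupp.smul_single, smul_eq_C_mul]

theorem N_mu (f : MvPolynomial σ ℂ) (c : MvPolynomial σ ℂ) (v : L σ) (hv : v ∈ N f) :
    mu c v ∈ N f := by
  induction c using MvPolynomial.induction_on generalizing v with
  | C a => rw [mu_C]; exact (N f).smul_mem a hv
  | add p q hp hq => rw [mu_add]; exact (N f).add_mem (hp v hv) (hq v hv)
  | mul_X p i hp => rw [mu_mul]; exact hp _ (N_X f i v hv)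

/-- the universal property -/
theorem N_le (f : MvPolynomial σ ℂ) (P : Submodule ℂ (L σ)) (h1 : Finsupp.single 0 1 ∈ P)
    (hX : ∀ i, ∀ v ∈ P, mu (MvPolynomial.X i) v ∈ P) (hD : ∀ i, ∀ v ∈ P, Dl f i v ∈ P)
    (hS : ∀ v ∈ P, Sl f v ∈ P) (hT : ∀ v ∈ P, ta v ∈ P) : N f ≤ P := by
  unfold N
  rw [Submodule.span_le]
  intro u hu
  induction hu with
  | one => exact h1
  | X i v _ h => exact hX i v h
  | D i v _ h => exact hD i v h
  | S v _ h => exact hS v h
  | T v _ h => exact hT v h

/-! ## The functions of `k` -/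

/-- `A exp(f T)` as function of `k` -/
noncomputable def Psi (f : MvPolynomial σ ℂ) : L σ →ₗ[ℂ] (ℕ → MvPolynomial σ ℂ) :=
  Finsupp.lsum ℂ fun j => LinearMap.pi fun k : ℕ =>
    (k.factorial : ℂ) • LinearMap.mulRight ℂ (pz f ((k : ℤ) - j))

theorem Psi_single (f : MvPolynomial σ ℂ) (j : ℤ) (a : MvPolynomial σ ℂ) (k : ℕ) :
    Psi f (Finsupp.single j a) k = (k.factorial : ℂ) • (a * pz f ((k : ℤ) - j)) := by
  simp [Psi]

theorem Psi_apply (f : MvPolynomial σ ℂ) (v : L σ) (k : ℕ) :
    Psi f v k = (k.factorial : ℂ) • v.sum fun j a => a * pz f ((k : ℤ) - j) := by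
  induction v using Finsupp.induction_linear with
  | zero => simp
  | add u v hu hv =>
    rw [map_add, Pi.add_apply, hu, hv, Finsupp.sum_add_index', smul_add]
    · intro a; simp
    · intro a b c; simp [add_mul]
  | single j a =>
    rw [Psi_single, Finsupp.sum_single_index]
    simp

theorem mul_pz (f : MvPolynomial σ ℂ) (m : ℤ) : f * pz f (m - 1) = (m : ℂ) • pz f m := by
  rcases lt_trichotomy m 0 with hm | hm | hm
  · rw [pz_neg f m hm, pz_neg f (m - 1) (by omega)]
    simp
  · subst hm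
    rw [pz_neg f (0 - 1) (by omega)]
    simp
  · obtain ⟨n, rfl⟩ : ∃ n : ℕ, m = ((n + 1 : ℕ) : ℤ) := ⟨(m - 1).toNat, by omega⟩
    have h1 : ((n + 1 : ℕ) : ℤ) - 1 = (n : ℤ) := by push_cast; ring
    rw [h1, pz_nat, pz_nat, mul_smul_comm, ← pow_succ', smul_smul]
    congr 1
    rw [Nat.factorial_succ]
    push_cast
    have h4 : (n.factorial : ℂ) ≠ 0 := by exact_mod_cast n.factorial_ne_zero
    have h5 : (n : ℂ) + 1 ≠ 0 := by exact_mod_cast Nat.succ_ne_zero n
    field_simp

theorem pderiv_pz (f : MvPolynomial σ ℂ) (i : σ) (m : ℤ) :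
    pderiv i (pz f m) = pderiv i f * pz f (m - 1) := by
  rcases lt_trichotomy m 0 with hm | hm | hm
  · rw [pz_neg f m hm, pz_neg f (m - 1) (by omega)]
    simp
  · subst hm
    rw [pz_neg f (0 - 1) (by omega)]
    have : (0 : ℤ) = ((0 : ℕ) : ℤ) := rfl
    rw [this, pz_nat]
    simp
  · obtain ⟨n, rfl⟩ : ∃ n : ℕ, m = ((n + 1 : ℕ) : ℤ) := ⟨(m - 1).toNat, by omega⟩
    have h1 : ((n + 1 : ℕ) : ℤ) - 1 = (n : ℤ) := by push_cast; ring
    rw [h1, pz_nat, pz_nat, Derivation.map_smul, Derivation.leibniz_pow, mul_smul_comm]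
    rw [Nat.factorial_succ, Nat.add_sub_cancel, smul_eq_mul]
    have h4 : (n.factorial : ℂ) ≠ 0 := by exact_mod_cast n.factorial_ne_zero
    have h5 : (n : ℂ) + 1 ≠ 0 := by exact_mod_cast Nat.succ_ne_zero n
    have h6 : ((n + 1) • (f ^ n * pderiv i f) : MvPolynomial σ ℂ) =
        ((n : ℂ) + 1) • (pderiv i f * f ^ n) := by
      rw [← Nat.cast_smul_eq_nsmul ℂ, mul_comm]
      push_cast
      rfl
    rw [h6, smul_smul]
    congr 1
    push_cast
    field_simp

theorem Psi_mu (f c : MvPolynomial σ ℂ) (v : L σ) (k : ℕ) : Psi f (mu c v) k = c * Psi f v k := by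
  induction v using Finsupp.induction_linear with
  | zero => simp
  | add u v hu hv => simp only [map_add, Pi.add_apply, mul_add, hu, hv]
  | single j a => rw [mu_single, Psi_single, Psi_single, mul_smul_comm, mul_assoc]

theorem Psi_D (f : MvPolynomial σ ℂ) (i : σ) (v : L σ) (k : ℕ) :
    Psi f (Dl f i v) k = pderiv i (Psi f v k) := by
  induction v using Finsupp.induction_linear with
  | zero => simp
  | add u v hu hv => simp only [map_add, Pi.add_apply, hu, hv]
  | single j a =>
    rw [Dl_single, map_add, Pi.add_apply, Psi_single, Psi_single, Psi_single, Derivation.map_smul,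
      ← smul_add, Derivation.leibniz, pderiv_pz, smul_eq_mul, smul_eq_mul]
    have h1 : (k : ℤ) - (j + 1) = (k : ℤ) - j - 1 := by ring
    rw [h1]
    congr 1
    ring

theorem Psi_S (f : MvPolynomial σ ℂ) (v : L σ) (k : ℕ) :
    Psi f (Sl f v) k = (k : ℂ) • Psi f v k := by
  induction v using Finsupp.induction_linear with
  | zero => simp
  | add u v hu hv => simp only [map_add, Pi.add_apply, smul_add, hu, hv]
  | single j a =>
    rw [Sl_single, map_add, Pi.add_apply, Psi_single, Psi_single, Psi_single, ← smul_add,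
      smul_comm]
    congr 1
    have h1 : (k : ℤ) - (j + 1) = (k : ℤ) - j - 1 := by ring
    have h2 : f * a * pz f ((k : ℤ) - (j + 1)) = a * (f * pz f ((k : ℤ) - j - 1)) := by
      rw [h1]; ring
    rw [h2, mul_pz, smul_mul_assoc, mul_smul_comm, ← add_smul]
    congr 1
    push_cast
    ring

theorem Psi_T (f : MvPolynomial σ ℂ) (v : L σ) (k : ℕ) :
    Psi f (ta v) k = (((k : ℂ) + 1)⁻¹) • Psi f v (k + 1) := by
  induction v using Finsupp.induction_linear with
  | zero => simp
  | add u v hu hv => simp only [map_add, Pi.add_apply, smul_add, hu, hv]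
  | single j a =>
    rw [ta_single, Psi_single, Psi_single, smul_smul]
    have h1 : (k : ℤ) - (j - 1) = ((k + 1 : ℕ) : ℤ) - j := by push_cast; ring
    rw [h1]
    congr 1
    rw [Nat.factorial_succ]
    push_cast
    have h5 : (k : ℂ) + 1 ≠ 0 := by exact_mod_cast Nat.succ_ne_zero k
    field_simp

theorem Psi_one (f : MvPolynomial σ ℂ) (k : ℕ) : Psi f (Finsupp.single 0 1) k = f ^ k := by
  rw [Psi_single, sub_zero, pz_nat, one_mul, smul_smul]
  have h4 : (k.factorial : ℂ) ≠ 0 := by exact_mod_cast k.factorial_ne_zero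
  rw [mul_inv_cancel₀ h4, one_smul]

/-! ## `W` is the image of `T⁻¹ N_f` -/

theorem W_poly (g : MvPolynomial κ ℂ) (e : ℕ) (he : 1 ≤ e) (Q : weyl κ) (r : Polynomial ℂ) :
    (fun k : ℕ => (r.eval (k : ℂ) * kf k e) •
      (Q : Module.End ℂ (MvPolynomial κ ℂ)) (g ^ (k + e))) ∈ W g := by
  induction r using Polynomial.induction_on' with
  | add p q hp hq =>
    have h := (W g).add_mem hp hq
    refine (congrArg (· ∈ W g) (funext fun k => ?_)).mp h
    rw [Polynomial.eval_add, add_mul, add_smul]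
    rfl
  | monomial n a =>
    have h := (W g).smul_mem a (Submodule.subset_span ⟨n, e, Q, he, rfl⟩)
    refine (congrArg (· ∈ W g) (funext fun k => ?_)).mp h
    rw [Polynomial.eval_monomial, mul_assoc, mul_smul]
    rfl

/-- `W` is stable under the operators -/
theorem W_weyl (g : MvPolynomial κ ℂ) (Q : weyl κ) (v : ℕ → MvPolynomial κ ℂ) (hv : v ∈ W g) :
    (fun k => (Q : Module.End ℂ (MvPolynomial κ ℂ)) (v k)) ∈ W g := by
  unfold W at hv
  induction hv using Submodule.span_induction with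
  | mem v h =>
    obtain ⟨j, e, R, he, rfl⟩ := h
    refine Submodule.subset_span ⟨j, e, Q * R, he, funext fun k => ?_⟩
    rw [map_smul]
    rfl
  | zero =>
    refine (congrArg (· ∈ W g) (funext fun k => ?_)).mp (W g).zero_mem
    simp
  | add u v _ _ hu hv =>
    refine (congrArg (· ∈ W g) (funext fun k => ?_)).mp ((W g).add_mem hu hv)
    simp
  | smul a v _ hv =>
    refine (congrArg (· ∈ W g) (funext fun k => ?_)).mp ((W g).smul_mem a hv)
    simp

/-- `W` is stable under the multiplication by `k` -/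
theorem W_k (g : MvPolynomial κ ℂ) (v : ℕ → MvPolynomial κ ℂ) (hv : v ∈ W g) :
    (fun k : ℕ => (k : ℂ) • v k) ∈ W g := by
  unfold W at hv
  induction hv using Submodule.span_induction with
  | mem v h =>
    obtain ⟨j, e, R, he, rfl⟩ := h
    refine Submodule.subset_span ⟨j + 1, e, R, he, funext fun k => ?_⟩
    rw [smul_smul]
    congr 1
    ring
  | zero =>
    refine (congrArg (· ∈ W g) (funext fun k => ?_)).mp (W g).zero_mem
    simp
  | add u v _ _ hu hv =>
    refine (congrArg (· ∈ W g) (funext fun k => ?_)).mp ((W g).add_mem hu hv)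
    simp
  | smul a v _ hv =>
    refine (congrArg (· ∈ W g) (funext fun k => ?_)).mp ((W g).smul_mem a hv)
    simp only [Pi.smul_apply]
    rw [smul_comm]

/-- `W` is stable under `T⁻¹` -/
theorem W_T (g : MvPolynomial κ ℂ) (v : ℕ → MvPolynomial κ ℂ) (hv : v ∈ W g) :
    (fun k : ℕ => (((k : ℂ) + 1)⁻¹) • v (k + 1)) ∈ W g := by
  unfold W at hv
  induction hv using Submodule.span_induction with
  | mem v h =>
    obtain ⟨j, e, R, he, rfl⟩ := h
    refine (congrArg (· ∈ W g) (funext fun k => ?_)).mp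
      (W_poly g (e + 1) (by omega) R ((Polynomial.X + 1) ^ j))
    have h1 : k + (e + 1) = k + 1 + e := by ring
    rw [smul_smul, h1]
    congr 1
    rw [Polynomial.eval_pow, Polynomial.eval_add, Polynomial.eval_X, Polynomial.eval_one]
    unfold kf
    rw [← h1, Nat.factorial_succ k]
    push_cast
    have h5 : (k : ℂ) + 1 ≠ 0 := by exact_mod_cast Nat.succ_ne_zero k
    field_simp
  | zero =>
    refine (congrArg (· ∈ W g) (funext fun k => ?_)).mp (W g).zero_mem
    simp
  | add u v _ _ hu hv =>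
    refine (congrArg (· ∈ W g) (funext fun k => ?_)).mp ((W g).add_mem hu hv)
    simp
  | smul a v _ hv =>
    refine (congrArg (· ∈ W g) (funext fun k => ?_)).mp ((W g).smul_mem a hv)
    simp only [Pi.smul_apply]
    rw [smul_comm]

/-- the image of `T⁻¹ N_f` is contained in `W` -/
theorem Psi_mem (f : MvPolynomial σ ℂ) (v : L σ) (hv : v ∈ N f) : Psi f (ta v) ∈ W f := by
  have h1 : N f ≤ (W f).comap (Psi f ∘ₗ ta) := by
    refine N_le f _ ?_ ?_ ?_ ?_ ?_
    · rw [Submodule.mem_comap, LinearMap.comp_apply]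
      refine Submodule.subset_span ⟨0, 1, 1, le_rfl, funext fun k => ?_⟩
      rw [Psi_T, Psi_one, pow_zero, one_mul]
      change _ = kf k 1 • f ^ (k + 1)
      congr 1
      unfold kf
      rw [Nat.factorial_succ]
      push_cast
      have h4 : (k.factorial : ℂ) ≠ 0 := by exact_mod_cast k.factorial_ne_zero
      have h5 : (k : ℂ) + 1 ≠ 0 := by exact_mod_cast Nat.succ_ne_zero k
      field_simp
    · intro i v hv
      rw [Submodule.mem_comap, LinearMap.comp_apply] at hv ⊢
      refine (congrArg (· ∈ W f) (funext fun k => ?_)).mp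
        (W_weyl f ⟨_, Algebra.subset_adjoin (Or.inl ⟨i, rfl⟩)⟩ _ hv)
      rw [ta_mu, Psi_mu]
      rfl
    · intro i v hv
      rw [Submodule.mem_comap, LinearMap.comp_apply] at hv ⊢
      refine (congrArg (· ∈ W f) (funext fun k => ?_)).mp
        (W_weyl f ⟨_, Algebra.subset_adjoin (Or.inr ⟨i, rfl⟩)⟩ _ hv)
      rw [ta_Dl, Psi_D]
      rfl
    · intro v hv
      rw [Submodule.mem_comap, LinearMap.comp_apply] at hv ⊢
      refine (congrArg (· ∈ W f) (funext fun k => ?_)).mp
        ((W f).add_mem (W_k f _ hv) hv)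
      rw [ta_Sl, map_add]
      simp only [Pi.add_apply]
      rw [Psi_S]
    · intro v hv
      rw [Submodule.mem_comap, LinearMap.comp_apply] at hv ⊢
      refine (congrArg (· ∈ W f) (funext fun k => ?_)).mp (W_T f _ hv)
      rw [Psi_T f (ta v)]
  exact h1 hv

/-- `W` is contained in the image of `T⁻¹ N_f` -/
theorem mem_Psi (f : MvPolynomial σ ℂ) (u : ℕ → MvPolynomial σ ℂ) (hu : u ∈ W f) :
    ∃ w ∈ N f, Psi f (ta w) = u := by
  unfold W at hu
  induction hu using Submodule.span_induction with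
  | mem u h =>
    obtain ⟨j, e, Q, he, rfl⟩ := h
    -- the operators
    have hQ : ∀ v ∈ N f, ∃ w ∈ N f, ∀ k,
        Psi f (ta w) k = (Q : Module.End ℂ (MvPolynomial σ ℂ)) (Psi f (ta v) k) := by
      obtain ⟨Q, hQ⟩ := Q
      change ∀ v ∈ N f, ∃ w ∈ N f, ∀ k, Psi f (ta w) k = Q (Psi f (ta v) k)
      unfold weyl at hQ
      induction hQ using Algebra.adjoin_induction with
      | mem R h =>
        rcases h with ⟨i, rfl⟩ | ⟨i, rfl⟩
        · intro v hv
          exact ⟨_, N_X f i v hv, fun k => by rw [ta_mu, Psi_mu]; rfl⟩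
        · intro v hv
          exact ⟨_, N_D f i v hv, fun k => by rw [ta_Dl, Psi_D]; rfl⟩
      | algebraMap r =>
        intro v hv
        exact ⟨_, (N f).smul_mem r hv, fun k => by rw [map_smul, map_smul]; rfl⟩
      | add R R' _ _ h h' =>
        intro v hv
        obtain ⟨w, hw, h1⟩ := h v hv
        obtain ⟨w', hw', h1'⟩ := h' v hv
        exact ⟨_, (N f).add_mem hw hw', fun k => by
          rw [map_add, map_add, Pi.add_apply, h1, h1']; rfl⟩
      | mul R R' _ _ h h' =>
        intro v hv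
        obtain ⟨w', hw', h1'⟩ := h' v hv
        obtain ⟨w, hw, h1⟩ := h w' hw'
        exact ⟨w, hw, fun k => by rw [h1, h1']; rfl⟩
    have hS : ∀ (j : ℕ), ∀ v ∈ N f, ∃ w ∈ N f, ∀ k,
        Psi f (ta w) k = ((k : ℂ) ^ j) • (Psi f (ta v) k) := by
      intro j
      induction j with
      | zero => exact fun v hv => ⟨v, hv, fun k => by rw [pow_zero, one_smul]⟩
      | succ j ih =>
        intro v hv
        obtain ⟨w, hw, h1⟩ := ih v hv
        refine ⟨Sl f w - w, (N f).sub_mem (N_S f w hw) hw, fun k => ?_⟩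
        rw [map_sub, ta_Sl, add_sub_cancel_right, Psi_S, h1, smul_smul, pow_succ']
    have hT : ∀ e : ℕ, ∃ v ∈ N f, v = Finsupp.single (-(e : ℤ)) 1 := by
      intro e
      induction e with
      | zero => exact ⟨_, N_one f, rfl⟩
      | succ e ih =>
        obtain ⟨v, hv, rfl⟩ := ih
        refine ⟨_, N_T f _ hv, ?_⟩
        rw [ta_single]
        congr 1
        push_cast
        ring
    obtain ⟨v, hv, h1⟩ := hT (e - 1)
    obtain ⟨w, hw, h2⟩ := hQ v hv
    obtain ⟨w', hw', h3⟩ := hS j w hw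
    refine ⟨w', hw', funext fun k => ?_⟩
    rw [h3, h2, h1, ta_single, Psi_single, one_mul, mul_smul]
    have h4 : (k : ℤ) - (-((e - 1 : ℕ) : ℤ) - 1) = ((k + e : ℕ) : ℤ) := by
      push_cast [Nat.cast_sub he]
      ring
    rw [h4, pz_nat, smul_smul, map_smul]
    rfl
  | zero => exact ⟨0, (N f).zero_mem, by rw [map_zero, map_zero]⟩
  | add u v _ _ hu hv =>
    obtain ⟨w, hw, h1⟩ := hu
    obtain ⟨w', hw', h1'⟩ := hv
    exact ⟨_, (N f).add_mem hw hw', by rw [map_add, map_add, h1, h1']⟩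
  | smul a v _ hv =>
    obtain ⟨w, hw, h1⟩ := hv
    exact ⟨_, (N f).smul_mem a hw, by rw [map_smul, map_smul, h1]⟩

end Pool.Agent.T6.H56.TSG
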