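import Pool.Agent.T6.H56.TSG.StmC

set_option autoImplicit false
set_option linter.unusedSectionVars false
set_option linter.unusedVariables false

/-! # The twisted zeta functions of plane curves: the residues at a blow-up -/

namespace Pool.Agent.T6.H56.TSG

open Polynomial Pool.Agent.W574.SM Pool.Agent.W574.LM

/-- `1` if `e` divides `n`, and `0` otherwise -/
noncomputable def ii (e n : ℕ) : ℂ := if e ∣ n then 1 else 0

theorem ii_zero (e : ℕ) : ii e 0 = 1 := if_pos (dvd_zero e)

theorem ii_eq (e m n : ℕ) (h : e ∣ m + n) : ii e m = ii e n := by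
  unfold ii
  by_cases h1 : e ∣ m
  · rw [if_pos h1, if_pos ((Nat.dvd_add_right h1).1 h)]
  · rw [if_neg h1, if_neg fun h2 => h1 ((Nat.dvd_add_left h2).1 h)]

theorem bracketE (P : ℂ[X]) (hP : P ≠ 0) (m a0 n0 a1 n1 : ℕ) (hPm : P.natDegree ≤ m) (hm : 1 ≤ m)
    (hn0 : 1 ≤ n0) (hn1 : 1 ≤ n1) (S : Finset ℂ) (h0S : 0 ∈ S) (hS : ∀ c ∉ S, P.eval c ≠ 0)
    (h0 : 0 < a1 + P.rootMultiplicity 0 →
      (n1 - 1) * (a0 + a1 + m) < (n0 + n1) * (a1 + P.rootMultiplicity 0))
    (h0' : a1 = 0 → n1 = 1)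
    (hI : 0 < a0 + (m - P.natDegree) →
      (n0 - 1) * (a0 + a1 + m) < (n0 + n1) * (a0 + (m - P.natDegree)))
    (hI' : a0 = 0 → n0 = 1) (β : ℂ) (hβ : β ≠ 0) (A : ℂ[X]) (hA : A ≠ 0) (s : ℂ)
    (hs : s = -((n0 + n1 : ℕ) : ℂ) / ((a0 + a1 + m : ℕ) : ℂ))
    (hsol : (X ^ a1 * P) * derivative A + C s * derivative (X ^ a1 * P) * A
      = C β * X ^ (n1 - 1) * (X ^ a1 * P)) :
    (n1 : ℂ) + s * ((a1 + P.rootMultiplicity 0 : ℕ) : ℂ) ≠ 0 ∧
    (n0 : ℂ) + s * ((a0 + (m - P.natDegree) : ℕ) : ℂ) ≠ 0 ∧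
    (∀ c, c ≠ 0 → 1 + s * (P.rootMultiplicity c : ℂ) ≠ 0) ∧
    ∀ e : ℕ, e ∣ a0 + a1 + m →
      ii e (a0 + (m - P.natDegree)) / ((n0 : ℂ) + s * ((a0 + (m - P.natDegree) : ℕ) : ℂ)) +
      ii e (a1 + P.rootMultiplicity 0) /
        ((n1 : ℂ) + s * ((a1 + P.rootMultiplicity 0 : ℕ) : ℂ)) +
      ∑ c ∈ S.erase 0, ii e (P.rootMultiplicity c) / (1 + s * (P.rootMultiplicity c : ℂ)) +
        1 - S.card = 0 := by
  classical
  set Q : ℂ[X] := X ^ a1 * P with hQ
  have hQ0 : Q ≠ 0 := mul_ne_zero (pow_ne_zero _ X_ne_zero) hP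
  set a := a0 + a1 + m with ha
  set n := n0 + n1 with hn
  set q0 := a1 + P.rootMultiplicity 0 with hq0
  set qI := a0 + (m - P.natDegree) with hqI
  have hapos : 0 < a := by omega
  have hac : (a : ℂ) ≠ 0 := Nat.cast_ne_zero.2 hapos.ne'
  have hQdeg : Q.natDegree = a1 + P.natDegree := by
    rw [hQ, natDegree_mul (pow_ne_zero _ X_ne_zero) hP, natDegree_X_pow]
  have hloc : ∀ c, (A.rootMultiplicity c = ec (n1 - 1) c + 1 ∧
      A.rootMultiplicity c * a ≠ n * Q.rootMultiplicity c) ∨
      (A.rootMultiplicity c ≤ ec (n1 - 1) c ∧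
      A.rootMultiplicity c * a = n * Q.rootMultiplicity c) := by
    intro c
    have h1 := sol_local A 1 Q hA one_ne_zero hQ0 s β hβ (n1 - 1) (by
      simp only [derivative_one, mul_one, mul_zero, sub_zero, one_pow]
      exact hsol) c
    have h2 : (1 : ℂ[X]).rootMultiplicity c = 0 := by
      apply rootMultiplicity_eq_zero
      simp
    rw [h2] at h1
    have h3 : ((A.rootMultiplicity c : ℂ) - (0 : ℕ) + s * Q.rootMultiplicity c = 0) ↔
        A.rootMultiplicity c * a = n * Q.rootMultiplicity c := by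
      rw [hs, ← Nat.cast_inj (R := ℂ)]
      push_cast
      rw [sub_zero]
      field_simp
      constructor
      · intro h; linear_combination h
      · intro h; linear_combination h
    rcases h1 with h1 | h1
    · left
      exact ⟨by omega, fun h => h1.2 (h3.2 h)⟩
    · right
      exact ⟨by omega, h3.1 h1.2⟩
  have hinf : (A.natDegree = n1 ∧ A.natDegree * a ≠ n * Q.natDegree) ∨
      (n1 < A.natDegree ∧ A.natDegree * a = n * Q.natDegree) := by
    have h1 := sol_infty A Q hA hQ0 s β hβ (n1 - 1) hsol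
    have h3 : ((A.natDegree : ℂ) + s * Q.natDegree = 0) ↔
        A.natDegree * a = n * Q.natDegree := by
      rw [hs, ← Nat.cast_inj (R := ℂ)]
      push_cast
      field_simp
      constructor
      · intro h; linear_combination h
      · intro h; linear_combination h
    rcases h1 with h1 | h1
    · left
      exact ⟨by omega, fun h => h1.2 (h3.2 h)⟩
    · right
      exact ⟨by omega, h3.1 h1.2⟩
  -- at zero
  have hQ00 : Q.rootMultiplicity 0 = q0 := rm_zero P hP a1
  have hQc : ∀ c, c ≠ 0 → Q.rootMultiplicity c = P.rootMultiplicity c := fun c hc =>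
    rm_ne P hP a1 c hc
  have F0 : (A.rootMultiplicity 0 = n1 ∧ n1 * a ≠ n * q0) ∨
      (q0 = 0 ∧ n1 = 1 ∧ A.rootMultiplicity 0 = 0) := by
    have h1 := hloc 0
    rw [hQ00, ec, if_pos rfl] at h1
    rcases h1 with h1 | h1
    · left
      have h2 : A.rootMultiplicity 0 = n1 := by omega
      rw [h2] at h1
      exact ⟨h2, h1.2⟩
    · right
      by_cases hq : 0 < q0
      · exfalso
        have h2 := h0 hq
        have h3 : A.rootMultiplicity 0 * a ≤ (n1 - 1) * a := Nat.mul_le_mul_right a h1.1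
        omega
      · have h2 : n1 = 1 := h0' (by omega)
        exact ⟨by omega, h2, by omega⟩
  have Fc : ∀ c, c ≠ 0 → P.rootMultiplicity c ≠ 0 → A.rootMultiplicity c = 1 := by
    intro c hc hc2
    have h1 := hloc c
    rw [hQc c hc, ec, if_neg hc] at h1
    rcases h1 with h1 | h1
    · exact h1.1
    · exfalso
      have h2 : A.rootMultiplicity c = 0 := by omega
      rw [h2, zero_mul] at h1
      rcases Nat.mul_eq_zero.1 h1.2.symm with h3 | h3
      · omega
      · exact hc2 h3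
  have Fc2 : ∀ c, c ≠ 0 → a ≠ n * P.rootMultiplicity c := by
    intro c hc
    have h1 := hloc c
    rw [hQc c hc, ec, if_neg hc] at h1
    rcases h1 with h1 | h1
    · intro h
      apply h1.2
      rw [h1.1, zero_add, one_mul]
      exact h
    · have h2 : A.rootMultiplicity c = 0 := by omega
      rw [h2, zero_mul] at h1
      rw [← h1.2]
      omega
  have hqq : Q.natDegree + qI = a := by omega
  have FI : (A.natDegree = n1 ∧ n1 * a ≠ n * Q.natDegree) ∨
      (A.natDegree = n1 + 1 ∧ n0 = 1 ∧ qI = 0) := by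
    rcases hinf with h1 | h1
    · left
      have h2 := h1.2
      rw [h1.1] at h2
      exact ⟨h1.1, h2⟩
    · right
      by_cases hq : 0 < qI
      · exfalso
        have h2 := hI hq
        have h3 : n * Q.natDegree + n * qI = n * a := by rw [← Nat.mul_add, hqq]
        have h4 : (n1 + 1) * a ≤ A.natDegree * a := Nat.mul_le_mul_right a h1.1
        have h5 : n * a = (n1 + 1) * a + (n0 - 1) * a := by
          rw [← Nat.add_mul]
          congr 1
          omega
        omega
      · have h2 : n0 = 1 := hI' (by omega)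
        have h3 : Q.natDegree = a := by omega
        rw [h3] at h1
        have h4 := Nat.eq_of_mul_eq_mul_right hapos h1.2
        exact ⟨by omega, h2, by omega⟩
  -- the special points
  set T := (S.erase 0).filter (fun c => P.rootMultiplicity c ≠ 0) with hT
  have hT0 : ∀ c ∈ T, c ≠ 0 ∧ P.rootMultiplicity c ≠ 0 := by
    intro c hc
    rw [hT, Finset.mem_filter, Finset.mem_erase] at hc
    exact ⟨hc.1.1, hc.2⟩
  have hK : A.rootMultiplicity 0 + T.card ≤ A.natDegree := by
    have h1 := sum_mult_le A hA (insert 0 T)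
    rw [Finset.sum_insert (fun h => (hT0 0 h).1 rfl), Finset.sum_congr rfl fun c hc =>
      Fc c (hT0 c hc).1 (hT0 c hc).2] at h1
    simpa using h1
  have hdeg : P.rootMultiplicity 0 + ∑ c ∈ T, P.rootMultiplicity c = P.natDegree := by
    rw [← sum_mult P hP S hS, ← Finset.add_sum_erase S _ h0S, hT, Finset.sum_filter_ne_zero]
  have hsum : qI + q0 + ∑ c ∈ T, P.rootMultiplicity c = a := by omega
  set αI : ℂ := (n0 : ℂ) + s * (qI : ℂ) with hαI
  set α0 : ℂ := (n1 : ℂ) + s * (q0 : ℂ) with hα0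
  have hrel : αI + α0 + ∑ c ∈ T, s * (P.rootMultiplicity c : ℂ) = 0 := by
    have h1 : s * a = -(n : ℂ) := by rw [hs]; field_simp
    have h2 : (a : ℂ) = qI + q0 + ∑ c ∈ T, (P.rootMultiplicity c : ℂ) := by
      rw [← hsum]; push_cast; rfl
    rw [← Finset.mul_sum, hαI, hα0]
    rw [h2, hn] at h1
    push_cast at h1
    linear_combination h1
  have hsumT : ∀ e : ℕ, ∑ c ∈ S.erase 0, ii e (P.rootMultiplicity c) /
      (1 + s * (P.rootMultiplicity c : ℂ))
      = ∑ c ∈ T, ii e (P.rootMultiplicity c) / (1 + s * (P.rootMultiplicity c : ℂ)) +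
        ((S.card : ℂ) - 1 - T.card) := by
    intro e
    rw [← Finset.sum_filter_add_sum_filter_not (S.erase 0) (fun c => P.rootMultiplicity c ≠ 0),
      ← hT]
    congr 1
    have h1 : ∀ c ∈ (S.erase 0).filter (fun c => ¬ P.rootMultiplicity c ≠ 0),
        ii e (P.rootMultiplicity c) / (1 + s * (P.rootMultiplicity c : ℂ)) = 1 := by
      intro c hc
      rw [Finset.mem_filter, not_not] at hc
      rw [hc.2, ii_zero]
      simp
    rw [Finset.sum_congr rfl h1, Finset.sum_const, nsmul_eq_mul, mul_one]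
    have h2 := Finset.card_filter_add_card_filter_not (s := S.erase 0)
      (fun c => P.rootMultiplicity c ≠ 0)
    rw [← hT, Finset.card_erase_of_mem h0S] at h2
    have h3 : 1 ≤ S.card := Finset.card_pos.2 ⟨0, h0S⟩
    have h4 : T.card + ((S.erase 0).filter (fun c => ¬ P.rootMultiplicity c ≠ 0)).card + 1
      = S.card := by omega
    rw [← h4]
    push_cast
    ring
  have hαI0 : αI ≠ 0 := by
    rw [hαI, hs]
    rcases FI with h1 | h1
    · intro h2
      apply h1.2
      have h3 : (n0 : ℂ) * a = n * qI := by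
        field_simp at h2
        linear_combination h2
      have h4 : n0 * a = n * qI := by exact_mod_cast h3
      have h5 : n * Q.natDegree + n * qI = n0 * a + n1 * a := by
        rw [← Nat.mul_add, hqq, hn, Nat.add_mul]
      omega
    · rw [h1.2.1, h1.2.2]
      simp
  have hα00 : α0 ≠ 0 := by
    rw [hα0, hs]
    rcases F0 with h1 | h1
    · intro h2
      apply h1.2
      have h3 : (n1 : ℂ) * a = n * q0 := by
        field_simp at h2
        linear_combination h2
      exact_mod_cast h3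
    · rw [h1.1, h1.2.1]
      simp
  have hαc : ∀ c, c ≠ 0 → 1 + s * (P.rootMultiplicity c : ℂ) ≠ 0 := by
    intro c hc h2
    apply Fc2 c hc
    have h3 : (a : ℂ) = n * P.rootMultiplicity c := by
      rw [hs] at h2
      field_simp at h2
      linear_combination h2
    exact_mod_cast h3
  refine ⟨hα00, hαI0, hαc, fun e he => ?_⟩
  rw [hsumT]
  have hK3 : T.card ≤ 2 := by omega
  have hcase : T.card = 0 ∨ T.card = 1 ∨ T.card = 2 := by omega
  rcases hcase with h1 | h1 | h1
  · rw [Finset.card_eq_zero] at h1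
    rw [h1, Finset.sum_empty, add_zero] at hrel hsum
    rw [h1, Finset.sum_empty, Finset.card_empty]
    have h2 := inv_add αI α0 hαI0 hrel
    have h3 : ii e qI = ii e q0 := ii_eq e qI q0 (by rw [hsum]; exact he)
    rw [h3]
    push_cast
    linear_combination ii e q0 * h2
  · obtain ⟨c, hc⟩ := Finset.card_eq_one.1 h1
    rw [hc, Finset.sum_singleton] at hrel hsum
    rw [hc, Finset.sum_singleton, Finset.card_singleton]
    have hcT : c ∈ T := by rw [hc]; exact Finset.mem_singleton_self c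
    have h3 : (αI = 1 ∧ qI = 0) ∨ (α0 = 1 ∧ q0 = 0) := by
      rcases FI with h4 | h4
      · rcases F0 with h5 | h5
        · omega
        · right
          refine ⟨?_, h5.1⟩
          rw [hα0, h5.1, h5.2.1]
          simp
      · left
        refine ⟨?_, h4.2.2⟩
        rw [hαI, h4.2.1, h4.2.2]
        simp
    rcases h3 with h3 | h3
    · have h4 := inv_add α0 (1 + s * (P.rootMultiplicity c : ℂ)) hα00 (by
        rw [h3.1] at hrel; linear_combination hrel)
      have h5 : ii e q0 = ii e (P.rootMultiplicity c) :=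
        ii_eq e _ _ (by rw [h3.2, zero_add] at hsum; rw [hsum]; exact he)
      rw [h3.1, h3.2, ii_zero, h5]
      push_cast
      linear_combination ii e (P.rootMultiplicity c) * h4
    · have h4 := inv_add αI (1 + s * (P.rootMultiplicity c : ℂ)) hαI0 (by
        rw [h3.1] at hrel; linear_combination hrel)
      have h5 : ii e qI = ii e (P.rootMultiplicity c) :=
        ii_eq e _ _ (by rw [h3.2, add_zero] at hsum; rw [hsum]; exact he)
      rw [h3.1, h3.2, ii_zero, h5]
      push_cast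
      linear_combination ii e (P.rootMultiplicity c) * h4
  · obtain ⟨c, d, hcd, hc⟩ := Finset.card_eq_two.1 h1
    rw [hc, Finset.sum_pair hcd] at hrel hsum
    rw [hc, Finset.sum_pair hcd, Finset.card_pair hcd]
    have hcT : c ∈ T := by rw [hc]; simp
    have h3 : (αI = 1 ∧ qI = 0) ∧ (α0 = 1 ∧ q0 = 0) := by
      rcases FI with h4 | h4
      · exfalso
        omega
      · rcases F0 with h5 | h5
        · exfalso
          omega
        · refine ⟨⟨?_, h4.2.2⟩, ⟨?_, h5.1⟩⟩
          · rw [hαI, h4.2.1, h4.2.2]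
            simp
          · rw [hα0, h5.1, h5.2.1]
            simp
    have h4 := inv_add (1 + s * (P.rootMultiplicity c : ℂ)) (1 + s * (P.rootMultiplicity d : ℂ))
      (hαc c (hT0 c hcT).1) (by rw [h3.1.1, h3.2.1] at hrel; linear_combination hrel)
    have h5 : ii e (P.rootMultiplicity c) = ii e (P.rootMultiplicity d) :=
      ii_eq e _ _ (by rw [h3.1.2, h3.2.2, zero_add, zero_add] at hsum; rw [hsum]; exact he)
    rw [h3.1.1, h3.1.2, h3.2.1, h3.2.2, ii_zero, h5]
    push_cast
    linear_combination ii e (P.rootMultiplicity d) * h4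

variable {ι : Type} [Fintype ι] [DecidableEq ι]

theorem blow_analysisE (f : ι → MP) (b : ℂ[X]) (H : MP) (hb : IsLocEq H f b) (g : ι → MP)
    (a0 n0 a1 n1 : ℕ) (hn0 : 1 ≤ n0) (hn1 : 1 ≤ n1) (hgeom : GeomL H f g a0 n0 a1 n1)
    (m : ℕ) (hm : 1 ≤ m) (gc : ℂ → ι → MP) (gI : ι → MP)
    (hgc : ∀ c j, MvPolynomial.aeval (chart c) (g j) = MvPolynomial.X 0 ^ m * gc c j)
    (hgI : ∀ j, MvPolynomial.aeval chartI (g j) = MvPolynomial.X 1 ^ m * gI j)
    (S : Finset ℂ) (h0S : 0 ∈ S)
    (hS : ∀ c ∉ S, ∃ j, MvPolynomial.constantCoeff (gc c j) ≠ 0)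
    (hJ1 : (n0 - 1) * m ≤ a0 ∧ (n1 - 1) * m ≤ a1)
    (hJ2 : 0 < a0 → (n0 - 1) * a1 < a0 * n1) (hJ2' : 0 < a1 → (n1 - 1) * a0 < a1 * n0)
    (hz0 : a0 = 0 → n0 = 1) (hz1 : a1 = 0 → n1 = 1) (s0 : ℂ) (hs0 : b.eval s0 ≠ 0)
    (hA : ((n0 + n1 : ℕ) : ℂ) + ((a0 + a1 + m : ℕ) : ℂ) * s0 = 0) :
    ∃ (μ : ℂ → ℕ) (μI : ℕ), (∀ c, Ord0 (gc c) (μ c)) ∧ Ord1 gI μI ∧
      (n1 : ℂ) + s0 * ((a1 + μ 0 : ℕ) : ℂ) ≠ 0 ∧ (n0 : ℂ) + s0 * ((a0 + μI : ℕ) : ℂ) ≠ 0 ∧
      (∀ c, c ≠ 0 → 1 + s0 * (μ c : ℂ) ≠ 0) ∧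
      ∀ e : ℕ, e ∣ a0 + a1 + m →
      ii e (a0 + μI) / ((n0 : ℂ) + s0 * ((a0 + μI : ℕ) : ℂ)) +
      ii e (a1 + μ 0) / ((n1 : ℂ) + s0 * ((a1 + μ 0 : ℕ) : ℂ)) +
      ∑ c ∈ S.erase 0, ii e (μ c) / (1 + s0 * (μ c : ℂ)) + 1 - S.card = 0 := by
  classical
  obtain ⟨ξ, W, W', hW, hW', hf, hJ, hHc⟩ := hgeom
  obtain ⟨hf0, hJ0⟩ := geom_chart_aux f g (gc 0) a0 n0 a1 n1 hn0 hn1 ξ W W' hf hJ m 0 (hgc 0)
  rw [map_zero, add_zero] at hJ0
  simp only [map_zero, add_zero] at hf0
  set ξ0 : Fin 2 → MP := fun i => MvPolynomial.aeval (chart 0) (ξ i) with hξ0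
  set a := a0 + a1 + m with ha
  set n := n0 + n1 with hn
  have hapos : 0 < a := by omega
  have hac : (a : ℂ) ≠ 0 := Nat.cast_ne_zero.2 hapos.ne'
  have hs : s0 = -(n : ℂ) / a := by
    rw [eq_div_iff hac]
    linear_combination hA
  set P : ι → ℂ[X] := fun j => res0 (gc 0 j) with hP
  have hPc : ∀ c j, res0 (gc c j) = (P j).comp (X + C c) := fun c j =>
    res0_chart (g j) (gc 0 j) (gc c j) m c (hgc 0 j) (hgc c j)
  have hPS : ∀ c ∉ S, ∃ j, (P j).eval c ≠ 0 := by
    intro c hc
    obtain ⟨j, hj⟩ := hS c hc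
    refine ⟨j, ?_⟩
    rw [← coeff_res0, hPc, coeff_zero_eq_eval_zero, eval_comp] at hj
    simpa using hj
  obtain ⟨c1, hc1⟩ := Infinite.exists_notMem_finset S
  obtain ⟨j0, hj0⟩ := hPS c1 hc1
  have hPj0 : P j0 ≠ 0 := by
    intro h
    rw [h, eval_zero] at hj0
    exact hj0 rfl
  set w := MvPolynomial.constantCoeff W with hw
  set w' := MvPolynomial.constantCoeff W' with hw'
  set G : ι → MP := fun j => MvPolynomial.X 1 ^ a1 * MvPolynomial.aeval (chart 0) W * gc 0 j
    with hG
  set Jp : MP := MvPolynomial.X 1 ^ (n1 - 1) * MvPolynomial.aeval (chart 0) W' with hJp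
  have hresG : ∀ j, res0 (G j) = C w * (X ^ a1 * P j) := by
    intro j
    rw [hG]
    simp only
    rw [map_mul, map_mul, map_pow, res0_X1, res0_chart_const]
    ring
  have hresJ : res0 Jp = C w' * X ^ (n1 - 1) := by
    rw [hJp, map_mul, map_pow, res0_X1, res0_chart_const]
    ring
  have hH1 : res0 (MvPolynomial.aeval ξ0 H)
      = C (MvPolynomial.constantCoeff (MvPolynomial.aeval ξ H)) := by
    rw [hξ0, aeval_comp, res0_chart_const]
  have hHe : ∀ c : ℂ, MvPolynomial.eval ![0, c] (MvPolynomial.aeval ξ0 H) ≠ 0 := by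
    intro c
    rw [← eval_res0, hH1, eval_C]
    exact hHc
  have hHr : resM (RatFunc.X : RatFunc ℂ) (MvPolynomial.aeval ξ0 H) ≠ 0 := by
    rw [resM_eq, hH1]
    exact am_ne (C_ne_zero.2 hHc)
  -- the leading forms are proportional
  have hprop : ∀ i, ∃ lam : ℂ, P i = C lam * P j0 := by
    intro i
    by_cases hWr : derivative (P i) * P j0 - P i * derivative (P j0) = 0
    · exact prop_of_wronskian (P i) (P j0) hPj0 hWr
    · exfalso
      have hne : X * (P j0 * (derivative (P i) * P j0 - P i * derivative (P j0))) ≠ 0 :=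
        mul_ne_zero X_ne_zero (mul_ne_zero hPj0 hWr)
      obtain ⟨c, hc⟩ : ∃ c : ℂ,
          (X * (P j0 * (derivative (P i) * P j0 - P i * derivative (P j0)))).eval c ≠ 0 := by
        by_contra hall
        push Not at hall
        exact hne (Polynomial.funext (fun x => by rw [hall x, eval_zero]))
      rw [eval_mul, eval_mul, eval_X] at hc
      have hc0 : c ≠ 0 := left_ne_zero_of_mul hc
      have hcP : (P j0).eval c ≠ 0 := left_ne_zero_of_mul (right_ne_zero_of_mul hc)
      have hcW : (derivative (P i) * P j0 - P i * derivative (P j0)).eval c ≠ 0 :=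
        right_ne_zero_of_mul (right_ne_zero_of_mul hc)
      apply hs0
      rw [hs]
      refine plane_reesL f b H hb ξ0 a n hapos (by omega) G hf0 Jp hJ0 c (hHe c) ?_ j0 i ?_ ?_
      · rw [← eval_res0, hresJ, eval_mul, eval_C, eval_pow, eval_X]
        exact mul_ne_zero hW' (pow_ne_zero _ hc0)
      · rw [← eval_res0, hresG, eval_mul, eval_C, eval_mul, eval_pow, eval_X]
        exact mul_ne_zero hW (mul_ne_zero (pow_ne_zero _ hc0) hcP)
      · rw [← eval_res0, map_sub, map_mul res0 (MvPolynomial.pderiv 1 (G i)) (G j0),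
          map_mul res0 (G i) (MvPolynomial.pderiv 1 (G j0)), res0_pderiv, res0_pderiv, hresG,
          hresG]
        have h1 : derivative (C w * (X ^ a1 * P i)) * (C w * (X ^ a1 * P j0))
            - C w * (X ^ a1 * P i) * derivative (C w * (X ^ a1 * P j0))
            = C w ^ 2 * (X ^ a1) ^ 2 *
              (derivative (P i) * P j0 - P i * derivative (P j0)) := by
          simp only [derivative_mul, derivative_C]
          ring
        rw [h1, eval_mul, eval_mul, eval_pow, eval_pow, eval_C, eval_pow, eval_X]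
        exact mul_ne_zero (mul_ne_zero (pow_ne_zero _ hW) (pow_ne_zero _ (pow_ne_zero _ hc0))) hcW
  choose lam hlam using hprop
  -- there is a rational solution
  have hsol : ∃ R : RatFunc ℂ, dR R + algebraMap ℂ (RatFunc ℂ) (-(n : ℂ) / a) *
      (dR (resM RatFunc.X (G j0)) * (resM RatFunc.X (G j0))⁻¹) * R = resM RatFunc.X Jp := by
    by_contra hno
    push Not at hno
    apply hs0
    rw [hs]
    refine tw_rootL dR RatFunc.X ?_ f b H hb ξ0 hHr a n hapos (by omega) G hf0 Jp hJ0 ?_ j0 ?_ hno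
    · rw [← RatFunc.algebraMap_X, dR_algebraMap, derivative_X, map_one]
    · rw [resM_eq, hresJ]
      exact am_ne (mul_ne_zero (C_ne_zero.2 hW') (pow_ne_zero _ X_ne_zero))
    · rw [resM_eq, hresG]
      exact am_ne (mul_ne_zero (C_ne_zero.2 hW) (mul_ne_zero (pow_ne_zero _ X_ne_zero) hPj0))
  obtain ⟨R, hR⟩ := hsol
  set Q : ℂ[X] := X ^ a1 * P j0 with hQ
  have hQ0 : Q ≠ 0 := mul_ne_zero (pow_ne_zero _ X_ne_zero) hPj0
  have hR' : dR R + algebraMap ℂ (RatFunc ℂ) (-(n : ℂ) / a) *
      (dR (algebraMap ℂ[X] (RatFunc ℂ) Q) * (algebraMap ℂ[X] (RatFunc ℂ) Q)⁻¹) * R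
        = algebraMap ℂ[X] (RatFunc ℂ) (C w' * X ^ (n1 - 1)) := by
    rw [resM_eq, resM_eq, hresG, hresJ] at hR
    rw [← hR]
    congr 3
    have h1 : algebraMap ℂ[X] (RatFunc ℂ) (C w * (X ^ a1 * P j0))
        = algebraMap ℂ (RatFunc ℂ) w * algebraMap ℂ[X] (RatFunc ℂ) Q := by
      rw [map_mul]; rfl
    rw [h1, Derivation.leibniz, Derivation.map_algebraMap, smul_zero, add_zero, smul_eq_mul]
    have hwne : algebraMap ℂ (RatFunc ℂ) w ≠ 0 := by
      rw [Ne, map_eq_zero]; exact hW
    have hQne := am_ne hQ0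
    field_simp
  obtain ⟨A, hAne, hAeq⟩ := sol_poly Q hQ0 n a hapos w' hW' (n1 - 1) R hR'
  have hdeg := coeff_resI (g j0) (gc 0 j0) (gI j0) m (hgc 0 j0) (hgI j0)
  have hbr := bracketE (P j0) hPj0 m a0 n0 a1 n1 hdeg.1 hm hn0 hn1 S h0S (by
      intro c hc h
      obtain ⟨j, hj⟩ := hPS c hc
      rw [hlam j, eval_mul, h, mul_zero] at hj
      exact hj rfl) (by
      intro h
      by_cases ha1 : 0 < a1
      · have h1 := hJ2' ha1
        have h2 := hJ1.2
        have h3 : (n1 - 1) * a = (n1 - 1) * a0 + (n1 - 1) * a1 + (n1 - 1) * m := by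
          rw [ha]; ring
        have h4 : (n1 - 1) * a1 + a1 = a1 * n1 := by
          have : n1 = (n1 - 1) + 1 := by omega
          conv_rhs => rw [this]
          ring
        have h5 : n * (a1 + (P j0).rootMultiplicity 0)
            = a1 * n0 + a1 * n1 + n * (P j0).rootMultiplicity 0 := by
          rw [hn]; ring
        have h6 : 0 ≤ n * (P j0).rootMultiplicity 0 := Nat.zero_le _
        show (n1 - 1) * a < n * (a1 + (P j0).rootMultiplicity 0)
        omega
      · have h1 : a1 = 0 := by omega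
        have h2 := hz1 h1
        rw [h2, Nat.sub_self, zero_mul]
        exact Nat.mul_pos (by omega) h) hz1 (by
      intro h
      by_cases ha0 : 0 < a0
      · have h1 := hJ2 ha0
        have h2 := hJ1.1
        have h3 : (n0 - 1) * a = (n0 - 1) * a0 + (n0 - 1) * a1 + (n0 - 1) * m := by
          rw [ha]; ring
        have h4 : (n0 - 1) * a0 + a0 = a0 * n0 := by
          have : n0 = (n0 - 1) + 1 := by omega
          conv_rhs => rw [this]
          ring
        have h5 : n * (a0 + (m - (P j0).natDegree))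
            = a0 * n0 + a0 * n1 + n * (m - (P j0).natDegree) := by
          rw [hn]; ring
        have h6 : 0 ≤ n * (m - (P j0).natDegree) := Nat.zero_le _
        show (n0 - 1) * a < n * (a0 + (m - (P j0).natDegree))
        omega
      · have h1 : a0 = 0 := by omega
        have h2 := hz0 h1
        rw [h2, Nat.sub_self, zero_mul]
        exact Nat.mul_pos (by omega) h) hz0 w' hW' A hAne s0 hs (by rw [hs]; exact hAeq)
  refine ⟨fun c => (P j0).rootMultiplicity c, m - (P j0).natDegree, ?_, ?_, hbr.1, hbr.2.1,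
    hbr.2.2.1, hbr.2.2.2⟩
  · intro c
    have h1 := ord_comp (P j0) hPj0 c
    constructor
    · intro j k hk
      rw [hPc, hlam j, mul_comp, C_comp, coeff_C_mul, h1.1 k hk, mul_zero]
    · refine ⟨j0, ?_⟩
      rw [hPc]
      exact h1.2
  · constructor
    · intro j k hk
      have h1 := (coeff_resI (g j) (gc 0 j) (gI j) m (hgc 0 j) (hgI j)).2.2 k (by omega)
      have h2 : res0 (gc 0 j) = C (lam j) * P j0 := hlam j
      rw [h1, h2, coeff_C_mul, coeff_eq_zero_of_natDegree_lt (by omega), mul_zero]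
    · refine ⟨j0, ?_⟩
      rw [hdeg.2.2 _ (by omega)]
      have h3 : m - (m - (P j0).natDegree) = (P j0).natDegree := by
        have := hdeg.1
        have h4 : (P j0).natDegree ≤ m := this
        omega
      rw [h3]
      exact leadingCoeff_ne_zero.2 hPj0


end Pool.Agent.T6.H56.TSG
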