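import Pool.Agent.T6.H56.TSG.CurA

set_option autoImplicit false
set_option linter.unusedSectionVars false
set_option linter.unusedVariables false

/-! # The twisted zeta functions of plane curves: the poles of the contribution of a point -/

namespace Pool.Agent.T6.H56.TSG

open Polynomial Pool.Agent.W574.SM Pool.Agent.W574.LM

variable {ι : Type} [Fintype ι] [DecidableEq ι]

theorem ii_add (e a n : ℕ) (h : e ∣ a) : ii e (a + n) = ii e n := by
  unfold ii
  by_cases h1 : e ∣ n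
  · rw [if_pos h1, if_pos (dvd_add h h1)]
  · rw [if_neg h1, if_neg fun h2 => h1 ((Nat.dvd_add_right h).1 h2)]

theorem facE_zero_one (e : ℕ) : facE e 0 1 = 1 := by
  rw [facE, if_pos (dvd_zero e), fac_zero_one]

theorem facE_mem (e a n : ℕ) (s : ℂ) (h : (n : ℂ) + a * s ≠ 0) : facE e a n ∈ Reg s := by
  unfold facE
  split_ifs
  · exact fac_mem a n s h
  · exact (Reg s).zero_mem

/-- the conclusion at a node -/
def GoodE (e : ℕ) (s0 : ℂ) (g : ι → MP) (a0 n0 a1 n1 : ℕ) (Z : RatFunc ℂ) : Prop :=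
  ∃ c0 c1 : ℂ,
    (e ∣ a0 → (n0 : ℂ) + a0 * s0 = 0 → ∀ μ, Ord0 g μ →
      c0 * ((n1 : ℂ) + s0 * ((a1 + μ : ℕ) : ℂ)) = ii e (a1 + μ)) ∧
    (e ∣ a1 → (n1 : ℂ) + a1 * s0 = 0 → ∀ μ, Ord1 g μ →
      c1 * ((n0 : ℂ) + s0 * ((a0 + μ : ℕ) : ℂ)) = ii e (a0 + μ)) ∧
    Z - RatFunc.C c0 * facE e a0 n0 - RatFunc.C c1 * facE e a1 n1 ∈ Reg s0

theorem leaf_aux (e : ℕ) (s0 : ℂ) (a0 n0 a n : ℕ) (hA0 : (n0 : ℂ) + a0 * s0 = 0)
    (hz0 : a0 = 0 → n0 = 1) (hA : (n : ℂ) + a * s0 ≠ 0) :
    facE e a0 n0 * facE e a n - RatFunc.C (ii e a / ((n : ℂ) + a * s0)) * facE e a0 n0 ∈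
      Reg s0 := by
  unfold facE ii
  by_cases h1 : e ∣ a0
  · by_cases h2 : e ∣ a
    · rw [if_pos h1, if_pos h2, if_pos h2]
      exact fac_mul_fac a0 n0 a n s0 (a_ne_zero hz0 hA0) hA0 hA
    · rw [if_neg h2, if_neg h2, zero_div, map_zero, zero_mul, mul_zero, sub_zero]
      exact (Reg s0).zero_mem
  · rw [if_neg h1, zero_mul, mul_zero, sub_zero]
    exact (Reg s0).zero_mem

theorem good_leafE (e : ℕ) (s0 : ℂ) (g : ι → MP) (a0 n0 a1 n1 a n : ℕ)
    (hA0 : (n0 : ℂ) + a0 * s0 = 0) (hz0 : a0 = 0 → n0 = 1) (hA1 : (n1 : ℂ) + a1 * s0 ≠ 0)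
    (hA : (n : ℂ) + a * s0 ≠ 0) (μ : ℕ) (hμ : Ord0 g μ)
    (hrel : (n1 : ℂ) + s0 * ((a1 + μ : ℕ) : ℂ) = n + a * s0) (hd : e ∣ a ↔ e ∣ a1 + μ) :
    GoodE e s0 g a0 n0 a1 n1 (facE e a0 n0 * facE e a n) := by
  refine ⟨ii e a / ((n : ℂ) + a * s0), 0, ?_, fun _ h => absurd h hA1, ?_⟩
  · intro _ _ ν hν
    have h1 : ii e (a1 + μ) = ii e a := by
      unfold ii
      exact if_congr hd.symm rfl rfl
    rw [← hμ.unique hν, hrel, div_mul_cancel₀ _ hA, h1]
  · rw [map_zero, zero_mul, sub_zero]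
    exact leaf_aux e s0 a0 n0 a n hA0 hz0 hA

theorem good_leafE' (e : ℕ) (s0 : ℂ) (g : ι → MP) (a0 n0 a1 n1 a n : ℕ)
    (hA1 : (n1 : ℂ) + a1 * s0 = 0) (hz1 : a1 = 0 → n1 = 1) (hA0 : (n0 : ℂ) + a0 * s0 ≠ 0)
    (hA : (n : ℂ) + a * s0 ≠ 0) (μ : ℕ) (hμ : Ord1 g μ)
    (hrel : (n0 : ℂ) + s0 * ((a0 + μ : ℕ) : ℂ) = n + a * s0) (hd : e ∣ a ↔ e ∣ a0 + μ) :
    GoodE e s0 g a0 n0 a1 n1 (facE e a1 n1 * facE e a n) := by
  refine ⟨0, ii e a / ((n : ℂ) + a * s0), fun _ h => absurd h hA0, ?_, ?_⟩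
  · intro _ _ ν hν
    have h1 : ii e (a0 + μ) = ii e a := by
      unfold ii
      exact if_congr hd.symm rfl rfl
    rw [← hμ.unique hν, hrel, div_mul_cancel₀ _ hA, h1]
  · rw [map_zero, zero_mul, sub_zero]
    exact leaf_aux e s0 a1 n1 a n hA1 hz1 hA

theorem good_regE (e : ℕ) (s0 : ℂ) (g : ι → MP) (a0 n0 a1 n1 : ℕ) (Z : RatFunc ℂ)
    (hA0 : (n0 : ℂ) + a0 * s0 ≠ 0) (hA1 : (n1 : ℂ) + a1 * s0 ≠ 0) (hZ : Z ∈ Reg s0) :
    GoodE e s0 g a0 n0 a1 n1 Z := by
  refine ⟨0, 0, fun _ h => absurd h hA0, fun _ h => absurd h hA1, ?_⟩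
  rw [map_zero, zero_mul, zero_mul, sub_zero, sub_zero]
  exact hZ

/-- **The poles of the contribution of a point.** -/
theorem local_mainE (f : ι → MP) (b : ℂ[X]) (H : MP) (hb : IsLocEq H f b) (s0 : ℂ) (e : ℕ)
    (hs0 : b.eval s0 ≠ 0) {g : ι → MP} {a0 n0 a1 n1 : ℕ} {Z : ℕ → RatFunc ℂ}
    (hZ : LocalZetaE g a0 n0 a1 n1 Z) : InvL H f s0 g a0 n0 a1 n1 →
      GoodE e s0 g a0 n0 a1 n1 (Z e) := by
  classical
  induction hZ with
  | unit g a0 n0 a1 n1 j hj =>
    intro inv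
    have ho0 : Ord0 g 0 := ⟨fun i k hk => absurd hk (Nat.not_lt_zero k),
      ⟨j, by rw [coeff_res0]; exact hj⟩⟩
    have ho1 : Ord1 g 0 := ⟨fun i k hk => absurd hk (Nat.not_lt_zero k),
      ⟨j, by rw [coeff_res1]; exact hj⟩⟩
    by_cases hA0 : (n0 : ℂ) + a0 * s0 = 0
    · have hA1 : (n1 : ℂ) + a1 * s0 ≠ 0 := by
        have := inv.hH0 hA0 0 ho0
        rw [add_zero] at this
        intro h
        apply this
        rw [← h]
        ring
      exact good_leafE e s0 g a0 n0 a1 n1 a1 n1 hA0 inv.hz0 hA1 hA1 0 ho0 (by rw [add_zero]; ring)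
        (by rw [add_zero])
    · by_cases hA1 : (n1 : ℂ) + a1 * s0 = 0
      · beta_reduce
        rw [mul_comm]
        exact good_leafE' e s0 g a0 n0 a1 n1 a0 n0 hA1 inv.hz1 hA0 hA0 0 ho1
          (by rw [add_zero]; ring) (by rw [add_zero])
      · exact good_regE e s0 g a0 n0 a1 n1 _ hA0 hA1
          ((Reg s0).mul_mem (facE_mem _ _ _ _ hA0) (facE_mem _ _ _ _ hA1))
  | curveV g a0 n0 m hm h k hg h0 h1 j hj =>
    intro inv
    have hA1 : ((1 : ℕ) : ℂ) + ((0 : ℕ) : ℂ) * s0 ≠ 0 := by simp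
    have hm1 : ((1 : ℕ) : ℂ) + (m : ℂ) * s0 ≠ 0 := by
      intro h2
      apply hs0
      have hmc : (m : ℂ) ≠ 0 := Nat.cast_ne_zero.2 (by omega)
      have h3 : s0 = -1 / (m : ℂ) := by
        rw [eq_div_iff hmc]
        push_cast at h2
        linear_combination h2
      rw [h3]
      obtain ⟨ξ, W, W', hW, hW', hf, hJ, hHc⟩ := inv.geom
      refine node_curveVL f b H hb ξ hHc W W' hW hW' a0 n0 m (by omega) h k ?_ ?_ h0 h1 j hj
      · intro i
        rw [hf, hg, pow_zero, mul_one]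
      · rw [hJ, Nat.sub_self, pow_zero, mul_one]
    have ho := ord0_curve g m h k hg h0 h1 j hj
    by_cases hA0 : (n0 : ℂ) + a0 * s0 = 0
    · exact good_leafE e s0 g a0 n0 0 1 m 1 hA0 inv.hz0 hA1 hm1 m ho (by push_cast; ring)
        (by rw [zero_add])
    · exact good_regE e s0 g a0 n0 0 1 _ hA0 hA1
        ((Reg s0).mul_mem (facE_mem _ _ _ _ hA0) (facE_mem _ _ _ _ hm1))
  | curveU g a1 n1 m hm h k hg h0 h1 j hj =>
    intro inv
    have hA0 : ((1 : ℕ) : ℂ) + ((0 : ℕ) : ℂ) * s0 ≠ 0 := by simp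
    have hm1 : ((1 : ℕ) : ℂ) + (m : ℂ) * s0 ≠ 0 := by
      intro h2
      apply hs0
      have hmc : (m : ℂ) ≠ 0 := Nat.cast_ne_zero.2 (by omega)
      have h3 : s0 = -1 / (m : ℂ) := by
        rw [eq_div_iff hmc]
        push_cast at h2
        linear_combination h2
      rw [h3]
      obtain ⟨ξ, W, W', hW, hW', hf, hJ, hHc⟩ := inv.geom
      refine node_curveUL f b H hb ξ hHc W W' hW hW' a1 n1 m (by omega) h k ?_ ?_ h0 h1 j hj
      · intro i
        rw [hf, hg, pow_zero, one_mul]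
      · rw [hJ, Nat.sub_self, pow_zero, one_mul]
    have ho := ord1_curve g m h k hg h0 h1 j hj
    by_cases hA1 : (n1 : ℂ) + a1 * s0 = 0
    · exact good_leafE' e s0 g 0 1 a1 n1 m 1 hA1 inv.hz1 hA0 hm1 m ho (by push_cast; ring)
        (by rw [zero_add])
    · exact good_regE e s0 g 0 1 a1 n1 _ hA0 hA1
        ((Reg s0).mul_mem (facE_mem _ _ _ _ hA1) (facE_mem _ _ _ _ hm1))
  | blowup g a0 n0 a1 n1 m hm gc gI hgc hgI S h0S hS Zc ZI h0 hc hI ih0 ihc ihI =>
    intro inv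
    have hn0 := inv.hn0
    have hn1 := inv.hn1
    have hmult : IsMult g m := ⟨⟨gc 0, hgc 0⟩, ⟨gI, hgI⟩⟩
    have hJ1 := inv.hJ1 m hmult
    -- a generator with nonzero leading form
    obtain ⟨c1, hc1⟩ := Infinite.exists_notMem_finset S
    obtain ⟨j0, hj0⟩ := hS c1 hc1
    have hresc : ∀ c j, res0 (gc c j) = (res0 (gc 0 j)).comp (X + C c) := fun c j =>
      res0_chart (g j) (gc 0 j) (gc c j) m c (hgc 0 j) (hgc c j)
    have hP0 : res0 (gc 0 j0) ≠ 0 := by
      intro h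
      apply hj0
      rw [← coeff_res0, hresc, h, zero_comp, coeff_zero]
    have hdeg := coeff_resI (g j0) (gc 0 j0) (gI j0) m (hgc 0 j0) (hgI j0)
    have hPc : ∀ c, res0 (gc c j0) ≠ 0 ∧ (res0 (gc c j0)).natDegree ≤ m := by
      intro c
      have h1 : (X + C c : ℂ[X]).natDegree = 1 := natDegree_X_add_C c
      constructor
      · intro h
        have h2 := ord_comp (res0 (gc 0 j0)) hP0 c
        rw [hresc] at h
        rw [h, coeff_zero] at h2
        exact h2.2 rfl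
      · rw [hresc, natDegree_comp, h1, mul_one]
        exact hdeg.1
    have hPI : res1 (gI j0) ≠ 0 := by
      intro h
      have h2 := hdeg.2.2 (m - (res0 (gc 0 j0)).natDegree) (by omega)
      rw [h, coeff_zero] at h2
      have h3 : m - (m - (res0 (gc 0 j0)).natDegree) = (res0 (gc 0 j0)).natDegree := by
        have := hdeg.1
        omega
      rw [h3] at h2
      exact hP0 (leadingCoeff_eq_zero.1 h2.symm)
    have hmc : ∀ c m', IsMult (gc c) m' → m' ≤ m := by
      intro c m' hm'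
      obtain ⟨g', hg'⟩ := hm'.2
      exact le_of_dvd (hPc c).1 (hPc c).2 (res0_of_chartI (hg' j0))
    have hmI : ∀ m', IsMult gI m' → m' ≤ m := by
      intro m' hm'
      obtain ⟨g', hg'⟩ := hm'.1
      exact le_of_dvd hPI hdeg.2.1 (res1_of_chart0 (hg' j0))
    have hresI : ∀ j, res0 (g j) = X ^ m * res0 (gI j) := fun j => res0_of_chartI (hgI j)
    have hres0 : ∀ j, res1 (g j) = X ^ m * res1 (gc 0 j) := fun j => res1_of_chart0 (hgc 0 j)
    -- the analysis of the new exceptional curve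
    have han := fun hA => blow_analysisE f b H hb g a0 n0 a1 n1 hn0 hn1 inv.geom m hm gc gI hgc hgI S
      h0S hS hJ1 inv.hJ2 inv.hJ2' inv.hz0 inv.hz1 s0 hs0 hA
    have haz : a0 + a1 + m = 0 → n0 + n1 = 1 := by omega
    -- the invariants of the children
    have inv0 : InvL H f s0 (gc 0) (a0 + a1 + m) (n0 + n1) a1 n1 :=
      { geom := geom_chart0L H f g (gc 0) a0 n0 a1 n1 hn0 hn1 inv.geom m (hgc 0)
        hn0 := by omega
        hn1 := hn1
        hz0 := haz
        hz1 := inv.hz1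
        hJ1 := fun m' hm' => ⟨arith3 a0 n0 a1 n1 m m' hn0 hn1 (hmc 0 m' hm') hJ1.1 hJ1.2,
          (Nat.mul_le_mul_left _ (hmc 0 m' hm')).trans hJ1.2⟩
        hJ2 := fun _ => arith1 a0 n0 a1 n1 m hn0 hn1 hm inv.hz0 inv.hJ2
        hJ2' := fun ha1 => arith2 a0 n0 a1 n1 m hn0 hn1 ha1 hJ1.2 inv.hJ2'
        hH0 := by
          intro hA μ' hμ'
          obtain ⟨μ, μI, hμ, hμI, h2, h3, h4, h5⟩ := han hA
          rwa [← (hμ 0).unique hμ']
        hH1 := by
          intro hA1 μ' hμ'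
          have h2 := inv.hH1 hA1 (m + μ') (hμ'.shift hres0)
          intro h3
          apply h2
          push_cast at h3 ⊢
          linear_combination h3 - hA1 }
    have invc : ∀ c, c ≠ 0 → InvL H f s0 (gc c) (a0 + a1 + m) (n0 + n1) 0 1 := fun c hc0 =>
      { geom := geom_chartL H f g (gc c) a0 n0 a1 n1 hn0 hn1 inv.geom m c hc0 (hgc c)
        hn0 := by omega
        hn1 := le_rfl
        hz0 := haz
        hz1 := fun _ => rfl
        hJ1 := fun m' hm' => ⟨arith3 a0 n0 a1 n1 m m' hn0 hn1 (hmc c m' hm') hJ1.1 hJ1.2,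
          by simp⟩
        hJ2 := fun h => by rw [mul_zero, mul_one]; exact h
        hJ2' := fun h => absurd h (lt_irrefl 0)
        hH0 := by
          intro hA μ' hμ'
          obtain ⟨μ, μI, hμ, hμI, h2, h3, h4, h5⟩ := han hA
          have h6 := h4 c hc0
          rw [(hμ c).unique hμ'] at h6
          rw [zero_add]
          push_cast
          exact h6
        hH1 := by
          intro hA1
          simp at hA1 }
    have invI : InvL H f s0 gI a0 n0 (a0 + a1 + m) (n0 + n1) :=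
      { geom := geom_chartIL H f g gI a0 n0 a1 n1 hn0 hn1 inv.geom m hgI
        hn0 := hn0
        hn1 := by omega
        hz0 := inv.hz0
        hz1 := haz
        hJ1 := fun m' hm' => ⟨(Nat.mul_le_mul_left _ (hmI m' hm')).trans hJ1.1,
          arith3 a0 n0 a1 n1 m m' hn0 hn1 (hmI m' hm') hJ1.1 hJ1.2⟩
        hJ2 := fun ha0 => by
          have := arith2 a1 n1 a0 n0 m hn1 hn0 ha0 hJ1.1 inv.hJ2
          rwa [add_comm a1 a0, add_comm n1 n0] at this
        hJ2' := fun _ => by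
          have := arith1 a1 n1 a0 n0 m hn1 hn0 hm inv.hz1 inv.hJ2'
          rwa [add_comm a1 a0, add_comm n1 n0] at this
        hH0 := by
          intro hA0 μ' hμ'
          have h2 := inv.hH0 hA0 (m + μ') (hμ'.shift hresI)
          intro h3
          apply h2
          push_cast at h3 ⊢
          linear_combination h3 - hA0
        hH1 := by
          intro hA μ' hμ'
          obtain ⟨μ, μI, hμ, hμI, h2, h3, h4, h5⟩ := han hA
          rwa [← hμI.unique hμ'] }
    obtain ⟨c00, c01, h00, h01, h02⟩ := ih0 inv0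
    obtain ⟨cI0, cI1, hI0, hI1, hI2⟩ := ihI invI
    have hcc : ∀ c ∈ S.erase 0, ∃ κ : ℂ,
        (e ∣ a0 + a1 + m → ((n0 + n1 : ℕ) : ℂ) + ((a0 + a1 + m : ℕ) : ℂ) * s0 = 0 →
          ∀ μ, Ord0 (gc c) μ → κ * (1 + s0 * (μ : ℂ)) = ii e μ) ∧
        Zc c e - RatFunc.C κ * facE e (a0 + a1 + m) (n0 + n1) ∈ Reg s0 := by
      intro c hcS
      rw [Finset.mem_erase] at hcS
      obtain ⟨κ, κ', h2, h3, h4⟩ := ihc c hcS.2 hcS.1 (invc c hcS.1)
      refine ⟨κ, ?_, ?_⟩
      · intro he hA μ hμ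
        have h5 := h2 he hA μ hμ
        rw [zero_add, Nat.cast_one] at h5
        exact h5
      · have h5 := (Reg s0).add_mem h4 (Reg_C s0 κ')
        rw [facE_zero_one, mul_one, sub_add_cancel] at h5
        exact h5
    choose! κ hκ1 hκ2 using hcc
    set fE := facE e (a0 + a1 + m) (n0 + n1) with hfE
    set β : ℂ := cI1 + c00 + ∑ c ∈ S.erase 0, κ c + 1 - S.card with hβ
    have hβE : RatFunc.C β * fE ∈ Reg s0 := by
      by_cases he : e ∣ a0 + a1 + m
      · by_cases hA : ((n0 + n1 : ℕ) : ℂ) + ((a0 + a1 + m : ℕ) : ℂ) * s0 = 0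
        · obtain ⟨μ, μI, hμ, hμI, h2, h3, h4, h5⟩ := han hA
          have e2 := hI1 he hA μI hμI
          have e3 := h00 he hA (μ 0) (hμ 0)
          have e4 : ∀ c ∈ S.erase 0, κ c = ii e (μ c) / (1 + s0 * (μ c : ℂ)) := by
            intro c hcS
            have h6 := hκ1 c hcS he hA (μ c) (hμ c)
            rw [eq_div_iff (h4 c (Finset.mem_erase.1 hcS).1)]
            exact h6
          have h6 : β = 0 := by
            rw [hβ, Finset.sum_congr rfl e4, eq_div_of_mul_eq h3 e2, eq_div_of_mul_eq h2 e3]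
            exact h5 e he
          rw [h6, map_zero, zero_mul]
          exact (Reg s0).zero_mem
        · exact (Reg s0).mul_mem (Reg_C s0 β) (facE_mem _ _ _ _ hA)
      · rw [hfE, facE, if_neg he, mul_zero]
        exact (Reg s0).zero_mem
    refine ⟨cI0, c01, ?_, ?_, ?_⟩
    · intro he hA0 μ hμ
      obtain ⟨ν, rfl, hν⟩ := hμ.unshift hresI
      have h2 := hI0 he hA0 ν hν
      have h3 : ii e (a1 + (m + ν)) = ii e (a0 + a1 + m + ν) := by
        rw [← ii_add e a0 (a1 + (m + ν)) he]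
        congr 1
        ring
      rw [h3, ← h2]
      congr 1
      push_cast
      linear_combination -hA0
    · intro he hA1 μ hμ
      obtain ⟨ν, rfl, hν⟩ := hμ.unshift hres0
      have h2 := h01 he hA1 ν hν
      have h3 : ii e (a0 + (m + ν)) = ii e (a0 + a1 + m + ν) := by
        rw [← ii_add e a1 (a0 + (m + ν)) he]
        congr 1
        ring
      rw [h3, ← h2]
      congr 1
      push_cast
      linear_combination -hA1
    · have hsum : ∑ c ∈ S.erase 0, (Zc c e - RatFunc.C (κ c) * fE) ∈ Reg s0 :=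
        Subring.sum_mem _ fun c hcS => hκ2 c hcS
      rw [Finset.sum_sub_distrib, ← Finset.sum_mul, ← map_sum] at hsum
      have hfin := (Reg s0).add_mem ((Reg s0).add_mem ((Reg s0).add_mem h02 hI2) hsum) hβE
      have heq : ZI e + ∑ c ∈ S, Zc c e + (1 - (S.card : RatFunc ℂ)) * fE
            - RatFunc.C cI0 * facE e a0 n0 - RatFunc.C c01 * facE e a1 n1
          = Zc 0 e - RatFunc.C c00 * fE - RatFunc.C c01 * facE e a1 n1
            + (ZI e - RatFunc.C cI0 * facE e a0 n0 - RatFunc.C cI1 * fE)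
            + (∑ c ∈ S.erase 0, Zc c e - RatFunc.C (∑ c ∈ S.erase 0, κ c) * fE)
            + RatFunc.C β * fE := by
        rw [← Finset.add_sum_erase S (fun c => Zc c e) h0S, hβ]
        simp only [map_sub, map_add, map_one, map_natCast]
        ring
      rw [heq]
      exact hfin

/-- **The poles of the contribution of the point `P`** are roots of `b`, if `b` satisfies a
functional equation near `P`. -/
theorem point_mainE (f : ι → MP) (b : ℂ[X]) (H : MP) (hb : IsLocEq H f b) (P : Fin 2 → ℂ)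
    (hH : MvPolynomial.eval P H ≠ 0) (Z : ℕ → RatFunc ℂ)
    (hZ : LocalZetaE (fun j => translate P (f j)) 0 1 0 1 Z) (e : ℕ) (s0 : ℂ)
    (hs0 : (Z e).denom.eval s0 = 0) : b.eval s0 = 0 := by
  by_contra hne
  apply Reg_denom s0 (Z e) ?_ hs0
  have hjac : jac (fun i => MvPolynomial.X i + MvPolynomial.C (P i) : Fin 2 → MP) = 1 := by
    rw [jac, Matrix.det_fin_two]
    simp only [Matrix.of_apply, map_add, MvPolynomial.pderiv_C]
    rw [MvPolynomial.pderiv_X_self, MvPolynomial.pderiv_X_self,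
      MvPolynomial.pderiv_X_of_ne (by decide), MvPolynomial.pderiv_X_of_ne (by decide)]
    ring
  have hcc : ∀ q : MP, MvPolynomial.constantCoeff
      (MvPolynomial.aeval (fun i => MvPolynomial.X i + MvPolynomial.C (P i) : Fin 2 → MP) q)
      = MvPolynomial.eval P q := by
    intro q
    induction q using MvPolynomial.induction_on with
    | C a => rw [MvPolynomial.aeval_C, MvPolynomial.eval_C]; exact MvPolynomial.constantCoeff_C _ a
    | add p q hp hq => rw [map_add, map_add, hp, hq, map_add]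
    | mul_X p i hp => rw [map_mul, map_mul, hp, map_mul, MvPolynomial.aeval_X]; simp
  have hinv : InvL H f s0 (fun j => translate P (f j)) 0 1 0 1 :=
    { geom := ⟨fun i => MvPolynomial.X i + MvPolynomial.C (P i), 1, 1, by simp, by simp,
        fun j => by
          rw [pow_zero, pow_zero, mul_one, mul_one, one_mul]
          rfl, by
          rw [hjac, Nat.sub_self, pow_zero, pow_zero, mul_one, mul_one], by
          rw [hcc]; exact hH⟩
      hn0 := le_rfl
      hn1 := le_rfl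
      hz0 := fun _ => rfl
      hz1 := fun _ => rfl
      hJ1 := fun m _ => by simp
      hJ2 := fun h => absurd h (lt_irrefl 0)
      hJ2' := fun h => absurd h (lt_irrefl 0)
      hH0 := fun h => by simp at h
      hH1 := fun h => by simp at h }
  obtain ⟨c0, c1, _, _, h1⟩ := local_mainE f b H hb s0 e hne hZ hinv
  rw [facE_zero_one, mul_one, mul_one] at h1
  have h2 := (Reg s0).add_mem ((Reg s0).add_mem h1 (Reg_C s0 c1)) (Reg_C s0 c0)
  rw [sub_add_cancel, sub_add_cancel] at h2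
  exact h2


theorem cur : StmCUR := by
  intro g H b hb hH Z hZ e he s₀ hs
  refine point_mainE (fun _ : Fin 1 => g) b H hb 0 (by rw [MvPolynomial.eval_zero]; exact hH) Z ?_ e
    s₀ hs
  have h1 : (fun j : Fin 1 => Pool.Agent.W574.SM.translate 0 ((fun _ : Fin 1 => g) j)) = fun _ : Fin 1 => g := by
    funext j
    change Pool.Agent.W574.SM.translate 0 g = g
    unfold Pool.Agent.W574.SM.translate
    have h2 : (fun i : Fin 2 => (MvPolynomial.X i + MvPolynomial.C ((0 : Fin 2 → ℂ) i) :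
        MvPolynomial (Fin 2) ℂ)) = MvPolynomial.X := by
      funext i
      rw [Pi.zero_apply, map_zero, add_zero]
    rw [h2, MvPolynomial.aeval_X_left, AlgHom.id_apply]
  rw [h1]
  exact hZ

end Pool.Agent.T6.H56.TSG
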