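import Pool.Agent.T6.H56.TSG.Fin
import Pool.Agent.W574.RO.Tensor

set_option autoImplicit false
set_option linter.unusedSectionVars false
set_option linter.unusedVariables false

/-! # Reduced forced roots and additional variables -/

namespace Pool.Agent.T6.H56.TSG

open MvPolynomial
open Pool.Agent.W574.SM (weyl)
open Pool.Agent.W574.RO (weyl_splits)
open Pool.Agent.Y230.TL (RE RF)

variable {σ κ : Type}

/-- the value at `z = 0` -/
noncomputable def ev0 : MvPolynomial (σ ⊕ κ) ℂ →ₐ[ℂ] MvPolynomial σ ℂ :=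
  aeval (Sum.elim X 0)

theorem ev0_inl (u : MvPolynomial σ ℂ) : ev0 (rename Sum.inl u : MvPolynomial (σ ⊕ κ) ℂ) = u := by
  unfold ev0
  rw [aeval_rename]
  have e : (Sum.elim X (0 : κ → MvPolynomial σ ℂ) ∘ Sum.inl : σ → MvPolynomial σ ℂ) = X := rfl
  rw [e, aeval_X_left_apply]

theorem ev0_inr (v : MvPolynomial κ ℂ) :
    ev0 (rename Sum.inr v : MvPolynomial (σ ⊕ κ) ℂ) = C (constantCoeff v) := by
  unfold ev0
  rw [aeval_rename]
  have e : (Sum.elim X 0 ∘ Sum.inr : κ → MvPolynomial σ ℂ) = fun _ => 0 := rfl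
  rw [e]
  induction v using MvPolynomial.induction_on with
  | C a => simp
  | add p q hp hq => rw [map_add, hp, hq, map_add, map_add]
  | mul_X p i hp => simp

theorem eval_ev0 (u : MvPolynomial (σ ⊕ κ) ℂ) : eval 0 (ev0 u) = eval 0 u := by
  induction u using MvPolynomial.induction_on with
  | C a =>
    rw [eval_C, ← rename_C (R := ℂ) (Sum.inl : σ → σ ⊕ κ), ev0_inl, eval_C]
  | add p q hp hq => rw [map_add, map_add, hp, hq, map_add]
  | mul_X p i hp =>
    rw [map_mul, map_mul, hp, map_mul]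
    congr 1
    rcases i with i | i
    · have e : (X (Sum.inl i) : MvPolynomial (σ ⊕ κ) ℂ) = rename Sum.inl (X i) := by
        rw [rename_X]
      rw [e, ev0_inl, rename_X, eval_X, eval_X]
      rfl
    · have e : (X (Sum.inr i) : MvPolynomial (σ ⊕ κ) ℂ) = rename Sum.inr (X i) := by
        rw [rename_X]
      rw [e, ev0_inr, rename_X, eval_X, constantCoeff_X, C_0, map_zero]
      rfl

/-- additional variables -/
theorem rf_ext (F : MvPolynomial σ ℂ) (s : ℂ) (h : RF F 0 s) :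
    RF (rename Sum.inl F : MvPolynomial (σ ⊕ κ) ℂ) 0 s := by
  classical
  intro B P hP
  choose n Q Q' hQ using fun m : ℕ => weyl_splits (P m).1 (P m).2
  set R : ℕ → weyl σ := fun m => ∑ i, (constantCoeff ((Q' m i : Module.End ℂ (MvPolynomial κ ℂ)) 1)) •
    Q m i with hR
  set P' : ℕ →₀ weyl σ := ∑ m ∈ P.support, Finsupp.single m (R m) with hP'
  have hsum : ∀ k : ℕ, (P'.sum fun m Q => ((k : ℂ) ^ m) •
      (Q : Module.End ℂ (MvPolynomial σ ℂ)) (F ^ (k + 1))) =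
      ∑ m ∈ P.support, ((k : ℂ) ^ m) • (R m : Module.End ℂ (MvPolynomial σ ℂ)) (F ^ (k + 1)) := by
    intro k
    rw [hP']
    refine (Finsupp.sum_finsetSum_index (h := fun (m : ℕ) (Q : weyl σ) => ((k : ℂ) ^ m) •
      (Q : Module.End ℂ (MvPolynomial σ ℂ)) (F ^ (k + 1))) ?_ ?_).symm.trans ?_
    · intro m
      change ((k : ℂ) ^ m) • (0 : MvPolynomial σ ℂ) = 0
      rw [smul_zero]
    · intro m a b
      change ((k : ℂ) ^ m) • ((a : Module.End ℂ (MvPolynomial σ ℂ)) (F ^ (k + 1)) +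
        (b : Module.End ℂ (MvPolynomial σ ℂ)) (F ^ (k + 1))) = _
      rw [smul_add]
    · refine Finset.sum_congr rfl fun m _ => ?_
      rw [Finsupp.sum_single_index]
      change ((k : ℂ) ^ m) • (0 : MvPolynomial σ ℂ) = 0
      rw [smul_zero]
  have hev : ∀ m : ℕ, ∀ u : MvPolynomial σ ℂ,
      ev0 ((P m : Module.End ℂ (MvPolynomial (σ ⊕ κ) ℂ)) (rename Sum.inl u)) =
        (R m : Module.End ℂ (MvPolynomial σ ℂ)) u := by
    intro m u
    have h1 := hQ m u 1
    rw [map_one, mul_one] at h1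
    have h2 : (R m : Module.End ℂ (MvPolynomial σ ℂ)) u =
        ∑ i, (constantCoeff ((Q' m i : Module.End ℂ (MvPolynomial κ ℂ)) 1)) •
          (Q m i : Module.End ℂ (MvPolynomial σ ℂ)) u := by
      rw [hR]
      change ((∑ i, (constantCoeff ((Q' m i : Module.End ℂ (MvPolynomial κ ℂ)) 1)) •
        Q m i : weyl σ) : Module.End ℂ (MvPolynomial σ ℂ)) u = _
      rw [AddSubmonoidClass.coe_finsetSum, LinearMap.sum_apply]
      rfl
    refine (congrArg ev0 h1).trans ?_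
    rw [h2, map_sum]
    refine Finset.sum_congr rfl fun i _ => ?_
    rw [map_mul, ev0_inl, ev0_inr, smul_eq_C_mul, mul_comm]
  have hB : RE F (B.map (ev0 : MvPolynomial (σ ⊕ κ) ℂ →ₐ[ℂ] MvPolynomial σ ℂ).toRingHom) P' := by
    intro k
    rw [hsum]
    have h1 := congrArg ev0 (hP k)
    rw [Finsupp.sum, map_sum, map_smul, map_mul] at h1
    have h2 : (B.map (ev0 : MvPolynomial (σ ⊕ κ) ℂ →ₐ[ℂ] MvPolynomial σ ℂ).toRingHom).eval
        (k : MvPolynomial σ ℂ) = ev0 (B.eval (k : MvPolynomial (σ ⊕ κ) ℂ)) := by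
      have h3 := Polynomial.eval_map_apply
        (f := (ev0 : MvPolynomial (σ ⊕ κ) ℂ →ₐ[ℂ] MvPolynomial σ ℂ).toRingHom) (p := B)
        (k : MvPolynomial (σ ⊕ κ) ℂ)
      have h4 : (ev0 : MvPolynomial (σ ⊕ κ) ℂ →ₐ[ℂ] MvPolynomial σ ℂ).toRingHom
        (k : MvPolynomial (σ ⊕ κ) ℂ) = (k : MvPolynomial σ ℂ) := map_natCast _ k
      rw [h4] at h3
      exact h3
    rw [h2]
    have h5 : ev0 ((rename Sum.inl F : MvPolynomial (σ ⊕ κ) ℂ) ^ k) = F ^ k := by
      rw [map_pow, ev0_inl]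
    rw [h5] at h1
    rw [h1]
    refine Finset.sum_congr rfl fun m _ => ?_
    rw [map_smul, ← map_pow, hev]
  have h1 := h _ _ hB
  have h2 : (B.map (ev0 : MvPolynomial (σ ⊕ κ) ℂ →ₐ[ℂ] MvPolynomial σ ℂ).toRingHom).eval
      (C s) = ev0 (B.eval (C s)) := by
    have h3 := Polynomial.eval_map_apply
      (f := (ev0 : MvPolynomial (σ ⊕ κ) ℂ →ₐ[ℂ] MvPolynomial σ ℂ).toRingHom) (p := B)
      (C s : MvPolynomial (σ ⊕ κ) ℂ)
    have h4 : (ev0 : MvPolynomial (σ ⊕ κ) ℂ →ₐ[ℂ] MvPolynomial σ ℂ).toRingHom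
      (C s : MvPolynomial (σ ⊕ κ) ℂ) = C s := by
      change ev0 (C s : MvPolynomial (σ ⊕ κ) ℂ) = C s
      rw [← rename_C (R := ℂ) (Sum.inl : σ → σ ⊕ κ), ev0_inl]
    rw [h4] at h3
    exact h3
  rw [h2, eval_ev0] at h1
  exact h1

end Pool.Agent.T6.H56.TSG
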