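import Pool.Agent.T6.H56.TSG.Main

set_option autoImplicit false
set_option linter.unusedSectionVars false
set_option linter.unusedVariables false

/-! # Thom-Sebastiani for reduced b-functions: the final forms -/

namespace Pool.Agent.T6.H56.TSG

open MvPolynomial
open Pool.Agent.W574.SM (weyl)
open Pool.Agent.W574.HS (minus_one)
open Pool.Agent.H628R4.TP (IsBFunction weylS)
open Pool.Agent.Y230.TH (kf W StA)
open Pool.Agent.Y230.TL (RE RF tA)
open scoped TensorProduct

variable {σ κ : Type}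

/-- functional equations are microlocal functional equations -/
theorem W_of_RE (h : MvPolynomial σ ℂ) (B : Polynomial (MvPolynomial σ ℂ)) (P : ℕ →₀ weyl σ)
    (hP : RE h B P) : (fun k : ℕ => B.eval (k : MvPolynomial σ ℂ) * h ^ k) ∈ W h := by
  have h1 : (fun k : ℕ => B.eval (k : MvPolynomial σ ℂ) * h ^ k) =
      ∑ m ∈ P.support, fun k : ℕ => ((k : ℂ) ^ m * kf k 1) •
        (P m : Module.End ℂ (MvPolynomial σ ℂ)) (h ^ (k + 1)) := by
    funext k
    have h2 := hP k
    have h5 : (k : ℂ) + 1 ≠ 0 := by exact_mod_cast Nat.succ_ne_zero k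
    have h3 := congrArg (fun u => ((k : ℂ) + 1)⁻¹ • u) h2
    beta_reduce at h3
    rw [smul_smul, inv_mul_cancel₀ h5, one_smul, Finsupp.sum, Finset.smul_sum] at h3
    rw [h3, Finset.sum_apply]
    refine Finset.sum_congr rfl fun m _ => ?_
    rw [smul_smul]
    congr 1
    unfold kf
    rw [Nat.factorial_succ]
    push_cast
    have h4 : (k.factorial : ℂ) ≠ 0 := by exact_mod_cast k.factorial_ne_zero
    field_simp
  rw [h1]
  exact (W h).sum_mem fun m _ => Submodule.subset_span ⟨m, 1, P m, le_rfl, rfl⟩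

/-- the powers of `S` applied to `1` -/
noncomputable def Sn (f : MvPolynomial σ ℂ) (m : ℕ) : L σ :=
  ps (Sl f) (Polynomial.X ^ m) (Finsupp.single 0 1)

theorem Sn_zero (f : MvPolynomial σ ℂ) : Sn f 0 = Finsupp.single 0 1 := by
  rw [Sn, pow_zero, ← Polynomial.C_1, ps_C, one_smul]

theorem Sn_succ (f : MvPolynomial σ ℂ) (m : ℕ) : Sl f (Sn f m) = Sn f (m + 1) := by
  rw [Sn, Sn, pow_succ', ps_mul, ps_X]

/-- `c ↦ c S ^ m 1` -/
noncomputable def cS (f : MvPolynomial σ ℂ) (m : ℕ) : MvPolynomial σ ℂ →ₗ[ℂ] L σ where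
  toFun c := mu c (Sn f m)
  map_add' a b := mu_add _ _ _
  map_smul' r c := by rw [RingHom.id_apply, smul_eq_C_mul, mu_mul, mu_C]

/-- `B(x, S) 1` -/
noncomputable def Tb (f : MvPolynomial σ ℂ) : Polynomial (MvPolynomial σ ℂ) →ₗ[ℂ] L σ :=
  Polynomial.lsum (cS f)

theorem Tb_monomial (f : MvPolynomial σ ℂ) (m : ℕ) (c : MvPolynomial σ ℂ) :
    Tb f (Polynomial.monomial m c) = mu c (Sn f m) := by
  rw [Tb, Polynomial.lsum_apply, Polynomial.sum_monomial_index _ _ (LinearMap.map_zero _)]
  rfl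

theorem Psi_Tb (f : MvPolynomial σ ℂ) (B : Polynomial (MvPolynomial σ ℂ)) (k : ℕ) :
    Psi f (Tb f B) k = B.eval (k : MvPolynomial σ ℂ) * f ^ k := by
  induction B using Polynomial.induction_on' with
  | add p q hp hq => rw [map_add, map_add, Pi.add_apply, hp, hq, Polynomial.eval_add, add_mul]
  | monomial m c =>
    rw [Tb_monomial, Psi_mu, Sn, Psi_ps, Psi_one, Polynomial.eval_pow, Polynomial.eval_X,
      Polynomial.eval_monomial, smul_eq_C_mul, map_pow, map_natCast]
    ring

/-- evaluation of `B(x, s)` -/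
noncomputable def evl (p : σ → ℂ) (α : ℂ) : Polynomial (MvPolynomial σ ℂ) →ₗ[ℂ] ℂ where
  toFun B := eval p (B.eval (C α))
  map_add' A B := by rw [Polynomial.eval_add, map_add]
  map_smul' r B := by
    rw [RingHom.id_apply, Polynomial.eval_smul, smul_eval, smul_eq_mul]

/-- the functional of a reduced forced root at a point -/
theorem exists_lam (f : MvPolynomial σ ℂ) (hf : f ≠ 0) (p : σ → ℂ) (α : ℂ) (h : RF f p α) :
    ∃ lam : L σ →ₗ[ℂ] ℂ, (∀ v ∈ N f, lam (ta v) = 0) ∧
      ∀ (c : MvPolynomial σ ℂ) (m : ℕ), lam (mu c (Sn f m)) = eval p c * α ^ m := by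
  obtain ⟨lam, hl1, hl2⟩ := ext_fun (Tb f) ((N f).map ta) (evl p α) (by
    rintro B ⟨w, hw, h1⟩
    have h2 : (fun k : ℕ => B.eval (k : MvPolynomial σ ℂ) * f ^ k) ∈ W f := by
      refine (congrArg (· ∈ W f) (funext fun k => ?_)).mp (Psi_mem f w hw)
      rw [h1, Psi_Tb]
    obtain ⟨P, hP⟩ := tA f hf B h2
    exact h B P hP)
  refine ⟨lam, fun v hv => hl1 _ ⟨v, hv, rfl⟩, fun c m => ?_⟩
  have h1 := hl2 (Polynomial.monomial m c)
  rw [Tb_monomial] at h1
  rw [h1]
  change eval p ((Polynomial.monomial m c).eval (C α)) = _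
  rw [Polynomial.eval_monomial, map_mul, map_pow, eval_C]

/-- products of polynomials span -/
theorem span_prod (c : MvPolynomial (σ ⊕ κ) ℂ) : c ∈ Submodule.span ℂ
    {c : MvPolynomial (σ ⊕ κ) ℂ | ∃ (a : MvPolynomial σ ℂ) (b : MvPolynomial κ ℂ),
      c = rename Sum.inl a * rename Sum.inr b} := by
  set U := Submodule.span ℂ
    {c : MvPolynomial (σ ⊕ κ) ℂ | ∃ (a : MvPolynomial σ ℂ) (b : MvPolynomial κ ℂ),
      c = rename Sum.inl a * rename Sum.inr b} with hU
  induction c using MvPolynomial.induction_on with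
  | C r =>
    refine Submodule.subset_span ⟨C r, 1, ?_⟩
    rw [rename_C, map_one, mul_one]
  | add p q hp hq => exact U.add_mem hp hq
  | mul_X p i hp =>
    have h1 : U ≤ U.comap (LinearMap.mulRight ℂ (X i)) := by
      rw [hU, Submodule.span_le]
      rintro _ ⟨a, b, rfl⟩
      rcases i with i | i
      · refine Submodule.subset_span ⟨a * X i, b, ?_⟩
        rw [LinearMap.mulRight_apply, map_mul (rename Sum.inl), rename_X]
        ring
      · refine Submodule.subset_span ⟨a, b * X i, ?_⟩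
        rw [LinearMap.mulRight_apply, map_mul (rename Sum.inr), rename_X]
        ring
    exact h1 hp

theorem ml_mu_left (c : MvPolynomial σ ℂ) (a : L σ) (b : L κ) :
    ml (mu c a) b = mu (rename Sum.inl c) (ml a b) := by
  induction a using Finsupp.induction_linear with
  | zero => simp
  | add u v hu hv => simp only [map_add, LinearMap.add_apply, hu, hv]
  | single j x =>
    induction b using Finsupp.induction_linear with
    | zero => simp
    | add u v hu hv => simp only [map_add, hu, hv]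
    | single k y =>
      rw [mu_single, ml_single, ml_single, mu_single, map_mul]
      congr 1
      ring

theorem ml_mu_right (c : MvPolynomial κ ℂ) (a : L σ) (b : L κ) :
    ml a (mu c b) = mu (rename Sum.inr c) (ml a b) := by
  induction a using Finsupp.induction_linear with
  | zero => simp
  | add u v hu hv => simp only [map_add, LinearMap.add_apply, hu, hv]
  | single j x =>
    induction b using Finsupp.induction_linear with
    | zero => simp
    | add u v hu hv => simp only [map_add, hu, hv]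
    | single k y =>
      rw [mu_single, ml_single, ml_single, mu_single, map_mul]
      congr 1
      ring

/-- **Thom-Sebastiani for reduced forced roots at a point**: if `α` is a reduced forced root of `f`
at `p` and `β` one of `g` at `q`, then `α + β` is one of `f(x) + g(z)` at `(p, q)`. -/
theorem rf_sum (f : MvPolynomial σ ℂ) (g : MvPolynomial κ ℂ) (hf : f ≠ 0) (hg : g ≠ 0)
    (hF : Fs f g ≠ 0) (p : σ → ℂ) (q : κ → ℂ) (α β : ℂ) (h1 : RF f p α) (h2 : RF g q β) :
    RF (Fs f g) (Sum.elim p q) (α + β) := by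
  classical
  intro B P hP
  obtain ⟨la, la1, la2⟩ := exists_lam f hf p α h1
  obtain ⟨lb, lb1, lb2⟩ := exists_lam g hg q β h2
  obtain ⟨w, hw, hw1⟩ := mem_Psi _ _ (W_of_RE _ B P hP)
  have hw2 : Tb (Fs f g) B = ta w := by
    rw [← sub_eq_zero]
    refine Psi_inj (Fs f g) hF _ ?_
    rw [map_sub, hw1, sub_eq_zero]
    funext k
    rw [Psi_Tb]
  -- the powers
  have hpow : ∀ (a : MvPolynomial σ ℂ) (b : MvPolynomial κ ℂ) (m i j : ℕ),
      lb (Lam la (LinearMap.rTensor (L κ) (mu a) (LinearMap.lTensor (L σ) (mu b)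
        (ps (SS f g) (Polynomial.X ^ m) (Sn f i ⊗ₜ[ℂ] Sn g j))))) =
      (eval p a * α ^ i) * (eval q b * β ^ j) * (α + β) ^ m := by
    intro a b m
    induction m with
    | zero =>
      intro i j
      rw [pow_zero, ← Polynomial.C_1, ps_C, one_smul, LinearMap.lTensor_tmul,
        LinearMap.rTensor_tmul, Lam_tmul, la2, map_smul, lb2, smul_eq_mul, pow_zero, mul_one]
    | succ m ih =>
      intro i j
      rw [pow_succ, ps_mul, ps_X, SS_tmul, Sn_succ, Sn_succ]
      simp only [map_add]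
      rw [ih, ih]
      ring
  -- the tensors
  have hc : ∀ (m : ℕ) (c : MvPolynomial (σ ⊕ κ) ℂ), ∃ t ∈ NN f g,
      Phi t = mu c (Sn (Fs f g) m) ∧
        lb (Lam la t) = eval (Sum.elim p q) c * (α + β) ^ m := by
    intro m c
    have hc := span_prod c
    induction hc using Submodule.span_induction with
    | mem c hc =>
      obtain ⟨a, b, rfl⟩ := hc
      refine ⟨_, NN_left f g (mu a) (N_mu f a) _ (NN_right f g (mu b) (N_mu g b) _
        (ps_mem _ _ (NN_SS f g) (Polynomial.X ^ m) _ (NN_one f g))), ?_, ?_⟩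
      · rw [Phi_left _ _ (fun x y => ml_mu_left a x y), Phi_right _ _ (fun x y => ml_mu_right b x y),
          ps_comm (SS f g) (Sl (Fs f g)) Phi (Phi_SS f g), Phi_one, mu_mul]
        rfl
      · have h3 := hpow a b m 0 0
        rw [Sn_zero, Sn_zero] at h3
        rw [h3, map_mul, eval_rename, eval_rename, pow_zero, pow_zero, mul_one, mul_one]
        rfl
    | zero =>
      refine ⟨0, (NN f g).zero_mem, ?_, ?_⟩
      · have h3 := mu_C (0 : ℂ) (Sn (Fs f g) m)
        rw [C_0, zero_smul] at h3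
        rw [h3, map_zero]
      · rw [map_zero, map_zero, map_zero, zero_mul]
    | add c d _ _ hc hd =>
      obtain ⟨t, ht, h3, h4⟩ := hc
      obtain ⟨t', ht', h3', h4'⟩ := hd
      exact ⟨t + t', (NN f g).add_mem ht ht', by rw [map_add, h3, h3', mu_add],
        by rw [map_add, map_add, h4, h4', map_add, add_mul]⟩
    | smul r c _ hc =>
      obtain ⟨t, ht, h3, h4⟩ := hc
      refine ⟨r • t, (NN f g).smul_mem r ht, ?_, ?_⟩
      · rw [map_smul, h3, smul_eq_C_mul, mu_mul, mu_C]
      · rw [map_smul, map_smul, h4, smul_eval, smul_eq_mul, mul_assoc]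
  have hB : ∃ t ∈ NN f g, Phi t = Tb (Fs f g) B ∧
      lb (Lam la t) = evl (Sum.elim p q) (α + β) B := by
    clear hw2 hw1 hw hP
    induction B using Polynomial.induction_on' with
    | add A B hA hB =>
      obtain ⟨t, ht, h3, h4⟩ := hA
      obtain ⟨t', ht', h3', h4'⟩ := hB
      exact ⟨t + t', (NN f g).add_mem ht ht', by rw [map_add, h3, h3', map_add],
        by rw [map_add, map_add, h4, h4', map_add]⟩
    | monomial m c =>
      obtain ⟨t, ht, h3, h4⟩ := hc m c
      refine ⟨t, ht, by rw [h3, Tb_monomial], ?_⟩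
      rw [h4]
      change _ = eval (Sum.elim p q) ((Polynomial.monomial m c).eval (C (α + β)))
      rw [Polynomial.eval_monomial, map_mul, map_pow, eval_C]
  obtain ⟨t, ht, h3, h4⟩ := hB
  obtain ⟨u, hu, h5⟩ := step f g la la1 t ht w hw (by rw [h3, hw2])
  rw [h5, lb1 u hu] at h4
  exact h4.symm

/-- **The functional equations of `f(x) + g(z)`**, arbitrary `f` and `g`. -/
theorem fe_sum (hA : StA) (f : MvPolynomial σ ℂ) (g : MvPolynomial κ ℂ) (hg0 : g ≠ 0)
    (hF0 : Fs f g ≠ 0) (hFd : ¬ Fs f g ∣ 1) (b : Polynomial ℂ) (hb : IsBFunction (Fs f g) b) :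
    ∃ b' : Polynomial ℂ, b = (Polynomial.X + 1) * b' ∧ ∀ α : ℂ,
      (∀ q : Polynomial ℂ, (fun k : ℕ => q.eval (k : ℂ) • f ^ k) ∈ W f → q.eval α = 0) →
      IsBFunction g ((Polynomial.X + 1) * b'.comp (Polynomial.X + Polynomial.C α)) := by
  classical
  obtain ⟨P, hP⟩ := hb
  have hm1 : b.eval (-1) = 0 := by
    refine minus_one (Fs f g) 1 hF0 hFd b P fun s => ?_
    rw [one_mul]
    exact hP s
  obtain ⟨b', hb'⟩ : (Polynomial.X + 1 : Polynomial ℂ) ∣ b := by
    have := Polynomial.dvd_iff_isRoot.2 hm1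
    rwa [Polynomial.C_neg, sub_neg_eq_add, Polynomial.C_1] at this
  refine ⟨b', hb', fun α hα => ?_⟩
  refine hA g hg0 _ (sum_W f g hF0 b' ?_ α hα)
  have h1 : (fun k : ℕ => b'.eval (k : ℂ) • (Fs f g) ^ k) =
      ∑ m ∈ P.support, fun k : ℕ => ((k : ℂ) ^ m * kf k 1) •
        (P m : Module.End ℂ (MvPolynomial (σ ⊕ κ) ℂ)) ((Fs f g) ^ (k + 1)) := by
    funext k
    have h2 := hP k
    have h5 : (k : ℂ) + 1 ≠ 0 := by exact_mod_cast Nat.succ_ne_zero k
    rw [hb', Polynomial.eval_mul, Polynomial.eval_add, Polynomial.eval_X, Polynomial.eval_one,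
      ← smul_eq_C_mul, mul_smul] at h2
    have h3 := congrArg (fun u => ((k : ℂ) + 1)⁻¹ • u) h2
    beta_reduce at h3
    rw [smul_smul, inv_mul_cancel₀ h5, one_smul, Finsupp.sum, Finset.smul_sum] at h3
    rw [h3, Finset.sum_apply]
    refine Finset.sum_congr rfl fun m _ => ?_
    rw [smul_smul]
    congr 1
    unfold kf
    rw [Nat.factorial_succ]
    push_cast
    have h4 : (k.factorial : ℂ) ≠ 0 := by exact_mod_cast k.factorial_ne_zero
    field_simp
  rw [h1]
  exact (W (Fs f g)).sum_mem fun m _ => Submodule.subset_span ⟨m, 1, P m, le_rfl, rfl⟩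

/-- `f(x) + g(z)` is not constant if `f(0) = g(0) = 0` and `f` and `g` are not both `0`. -/
theorem Fs_ne (f : MvPolynomial σ ℂ) (g : MvPolynomial κ ℂ) (hf : f ≠ 0)
    (hfc : constantCoeff f = 0) (hgc : constantCoeff g = 0) : Fs f g ≠ 0 ∧ ¬ Fs f g ∣ 1 := by
  constructor
  · intro h0
    have h1 : Pool.Agent.T6.H26.cor (0 : κ →₀ ℕ) (Fs f g) = f := by
      have h2 : Fs f g = rename Sum.inl f * rename Sum.inr 1 + rename Sum.inl 1 *
          rename Sum.inr g := by
        rw [map_one, map_one, mul_one, one_mul]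
      rw [h2, map_add, Pool.Agent.T6.H26.cor_mul, Pool.Agent.T6.H26.cor_mul]
      have h3 : coeff 0 g = 0 := by rw [← constantCoeff_eq]; exact hgc
      rw [h3, zero_smul, add_zero]
      simp
    rw [h0, map_zero] at h1
    exact hf h1.symm
  · rintro ⟨G, hG⟩
    have h1 := congrArg constantCoeff hG
    rw [map_one, map_mul, map_add, constantCoeff_rename, constantCoeff_rename, hfc, hgc, add_zero,
      zero_mul] at h1
    exact one_ne_zero h1

end Pool.Agent.T6.H56.TSG
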