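import Pool.Agent.T6.H56.TSG.Stm

set_option autoImplicit false

/-! # Statement of the module RED -/

namespace Pool.Agent.T6.H56.TSG

open MvPolynomial
open Pool.Agent.Y230.TL (RF)

/-- Module RED: `-1` is a reduced forced root of `F`, if `F = h k` with formal power series `h`, `k` which
vanish at the origin and form a regular sequence. -/
def StmRED : Prop := ∀ {σ : Type} (F : MvPolynomial σ ℂ) (h k : MvPowerSeries σ ℂ), F ≠ 0 →
  (F : MvPowerSeries σ ℂ) = h * k → MvPowerSeries.constantCoeff h = 0 →
  MvPowerSeries.constantCoeff k = 0 → (∀ c, k ∣ c * h → k ∣ c) → RF F 0 (-1)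

end Pool.Agent.T6.H56.TSG
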