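import Pool.Agent.T6.H56.TSG.Add
import Pool.Agent.T6.H56.TSG.CurB
import Pool.Agent.T6.H56.TSG.EXT
import Pool.Agent.T6.H56.TSG.StmR
import Pool.Agent.R852.TL.Main
import Pool.Agent.Y475.TL.L

set_option autoImplicit false
set_option linter.unusedSectionVars false
set_option linter.unusedVariables false

/-! # The operations on germs and the poles of the zeta functions -/

namespace Pool.Agent.T6.H56.TSG

open MvPolynomial Pool.Agent.W574.SM Pool.Agent.W574.CN Pool.Agent.W574.RO Pool.Agent.Y229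
open Pool.Agent.W574.LM Pool.Agent.W574.HS
open Pool.Agent.Y230.TH (univFam X1_reg X1_ne X1_inv pole_of_ref ref_of_pole univFam_ne)
open Pool.Agent.Y230.TL (RF StL StU StJ Cl sf_minus_one sf_univFam locEq_single)
open Pool.Agent.R852.TL (loc_shift)
open Pool.Agent.R852.TP (pole_scale)

/-- the properties of the members of the class -/
structure Gd (σ : Type) (F : MvPolynomial σ ℂ) (Z : ℕ → RatFunc ℂ) : Prop where
  fin : Finite σ
  ne : F ≠ 0
  c0 : constantCoeff F = 0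
  po : Po F Z

theorem gd_curve (hL : StL) (g : MvPolynomial (Fin 2) ℂ) (hg : g ≠ 0) (h0 : constantCoeff g = 0)
    (Z : ℕ → RatFunc ℂ) (hZ : LocalZetaE (fun _ : Fin 1 => g) 0 1 0 1 Z)
    (h3 : RF g 0 (-1) ∨ ((RatFunc.X + 1) * Z 1).denom.eval (-1) ≠ 0)
    (h4 : ∀ e, 2 ≤ e → RF g 0 (-1) ∨ (Z e).denom.eval (-1) ≠ 0) : Gd (Fin 2) g Z := by
  classical
  have key : ∀ e, 1 ≤ e → ∀ s : ℂ, s ≠ -1 → (Z e).denom.eval s = 0 → RF g 0 s := by
    intro e he s hs1 hs
    refine hL.rf_of_sf g 0 s hs1 (sf_of_local _ 0 s (fun H b hb hH => ?_) (exists_fe _ ⟨0, hg⟩))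
    rw [MvPolynomial.eval_zero] at hH
    exact cur g H b hb hH Z hZ e he s hs
  refine ⟨inferInstance, hg, h0, ⟨fun s hs => ?_, fun e he s hs => ?_⟩⟩
  · by_cases hs1 : s = -1
    · rw [hs1] at hs ⊢
      exact h3.resolve_right (not_not.2 hs)
    · exact key 1 le_rfl s hs1 (pole_of_ref _ s hs)
  · by_cases hs1 : s = -1
    · rw [hs1] at hs ⊢
      exact (h4 e he).resolve_right (not_not.2 hs)
    · exact key e (by omega) s hs1 hs

theorem gd_univ (hU : StU) (A : Fam) (Z : RatFunc ℂ) (hfin : Finite A.σ) (hne : ∃ j, A.f j ≠ 0)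
    (hp : ∀ s : ℂ, Z.denom.eval s = 0 → SF A.f 0 s) :
    Gd (A.ι ⊕ A.σ) ((univFam A).f 0) (fun e => if e = 1 then Z * (RatFunc.X + 1)⁻¹ else 0) := by
  classical
  refine ⟨inferInstance, univFam_ne A hne, ?_, ⟨fun s hs => ?_, fun e he s hs => ?_⟩⟩
  · change constantCoeff (∑ j, X (Sum.inl j) * rename Sum.inr (A.f j) :
      MvPolynomial (A.ι ⊕ A.σ) ℂ) = 0
    rw [map_sum]
    refine Finset.sum_eq_zero fun j _ => ?_
    rw [map_mul, constantCoeff_X, zero_mul]
  · beta_reduce at hs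
    rw [if_pos rfl] at hs
    have e : (RatFunc.X + 1) * (Z * (RatFunc.X + 1)⁻¹) = Z := by
      have := X1_ne
      field_simp
    rw [e] at hs
    exact sf_univFam hU A s (hp s hs)
  · beta_reduce at hs
    rw [if_neg (by omega)] at hs
    exact absurd hs (Reg_denom s _ (Reg s).zero_mem)

theorem IsoCritC.ne {n : ℕ} {g : MvPolynomial (Fin (n + 1)) ℂ} {w : Fin (n + 1) → ℕ} {d : ℕ}
    (h : IsoCritC g w d) : g ≠ 0 := by
  rintro rfl
  have h1 := h.iso (fun _ => 1) (fun i => by rw [map_zero, map_zero])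
  exact one_ne_zero (congrFun h1 0)

theorem IsoCritC.c0 {n : ℕ} {g : MvPolynomial (Fin (n + 1)) ℂ} {w : Fin (n + 1) → ℕ} {d : ℕ}
    (h : IsoCritC g w d) : constantCoeff g = 0 := by
  by_contra h1
  have h2 : Finsupp.weight w (0 : Fin (n + 1) →₀ ℕ) = d :=
    h.hom (by rw [constantCoeff_eq] at h1; exact h1)
  rw [map_zero] at h2
  have h3 := h.lt 0
  omega

theorem int_reg (s : ℂ) (c : ℤ) : (c : RatFunc ℂ) ∈ Reg s := intCast_mem _ _

theorem fac_pole' (x : RatFunc ℂ) (hx : ∀ s, x ∈ Reg s) (d n : ℕ) (hd : 1 ≤ d) (s : ℂ)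
    (h : (x * fac d n).denom.eval s = 0) : s = -(n : ℂ) / d := by
  by_contra hne
  refine Reg_denom s _ ((Reg s).mul_mem (hx s) (fac_mem d n s fun h0 => hne ?_)) h
  have hd0 : (d : ℂ) ≠ 0 := Nat.cast_ne_zero.2 (by omega)
  rw [eq_div_iff hd0]
  linear_combination h0

theorem gd_iso (hI : StmISO) (n : ℕ) (g : MvPolynomial (Fin (n + 1)) ℂ) (w : Fin (n + 1) → ℕ)
    (d : ℕ) (hg : IsoCritC g w d) (c : ℕ → ℤ) (c' : ℤ) :
    Gd (Fin (n + 1)) g (fun e => if e = 1 then
          ((c 1 : RatFunc ℂ) + (c' : RatFunc ℂ) * (RatFunc.X + 1)⁻¹) * fac d (∑ i, w i)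
        else if e ∣ d then (c e : RatFunc ℂ) * fac d (∑ i, w i) else 0) := by
  classical
  have hd : 1 ≤ d := by
    have := hg.lt 0
    omega
  have hr := hI g w d hg
  refine ⟨inferInstance, hg.ne, hg.c0, ⟨fun s hs => ?_, fun e he s hs => ?_⟩⟩
  · beta_reduce at hs
    rw [if_pos rfl] at hs
    have e : (RatFunc.X + 1) * (((c 1 : RatFunc ℂ) + (c' : RatFunc ℂ) * (RatFunc.X + 1)⁻¹) *
        fac d (∑ i, w i)) = ((c 1 : RatFunc ℂ) * (RatFunc.X + 1) + (c' : RatFunc ℂ)) *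
          fac d (∑ i, w i) := by
      have := X1_ne
      field_simp
    rw [e] at hs
    have h1 := fac_pole' _ (fun s => (Reg s).add_mem ((Reg s).mul_mem (int_reg s _) (X1_reg s))
      (int_reg s _)) d _ hd s hs
    rw [h1]
    exact hr
  · beta_reduce at hs
    rw [if_neg (by omega)] at hs
    by_cases h2 : e ∣ d
    · rw [if_pos h2] at hs
      have h1 := fac_pole' _ (fun s => int_reg s _) d _ hd s hs
      rw [h1]
      exact hr
    · rw [if_neg h2] at hs
      exact absurd hs (Reg_denom s _ (Reg s).zero_mem)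

theorem gd_var : Gd (Fin 1) (X 0) (fun e => if e = 1 then (RatFunc.X + 1)⁻¹ else 0) := by
  refine ⟨inferInstance, X_ne_zero 0, constantCoeff_X _ 0, ⟨fun s hs => ?_, fun e he s hs => ?_⟩⟩
  · beta_reduce at hs
    rw [if_pos rfl, mul_inv_cancel₀ X1_ne] at hs
    exact absurd hs (Reg_denom s _ (Reg s).one_mem)
  · beta_reduce at hs
    rw [if_neg (by omega)] at hs
    exact absurd hs (Reg_denom s _ (Reg s).zero_mem)

theorem gd_unit (hU : StmUNI) {σ : Type} (F U : MvPolynomial σ ℂ) (Z : ℕ → RatFunc ℂ)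
    (hc : constantCoeff U ≠ 0) (h : Gd σ F Z) : Gd σ (U * F) Z := by
  have hU0 : U ≠ 0 := by
    rintro rfl
    exact hc (map_zero _)
  refine ⟨h.fin, mul_ne_zero hU0 h.ne, by rw [map_mul, h.c0, mul_zero],
    ⟨fun s hs => hU F U h.ne hc s (h.po.one s hs), fun e he s hs =>
      hU F U h.ne hc s (h.po.two e he s hs)⟩⟩

/-- reduced forced roots of products -/
theorem rf_mul (hL : StL) (hP : StmPRO) {σ κ : Type} [Finite σ] [Finite κ]
    (F : MvPolynomial σ ℂ) (G : MvPolynomial κ ℂ) (hF : F ≠ 0) (hG : G ≠ 0)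
    (hF0 : constantCoeff F = 0) (hG0 : constantCoeff G = 0) (s : ℂ)
    (h : RF F 0 s ∨ RF G 0 s) :
    RF (rename Sum.inl F * rename Sum.inr G : MvPolynomial (σ ⊕ κ) ℂ) 0 s := by
  classical
  by_cases hs : s = -1
  · rw [hs]
    exact hP F G hF hG hF0 hG0
  refine hL.rf_of_sf _ 0 s hs ?_
  set A : Fam := ⟨σ, Fin 1, fun _ => F⟩ with hA
  set B : Fam := ⟨κ, Fin 1, fun _ => G⟩ with hB
  have h1 : FoL (A.mul B) s := by
    rcases h with h | h
    · exact isForcing_local.mulL A B s (hL.sf_of_rf F 0 s h) ⟨0, hG⟩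
    · exact isForcing_local.mulR A B s (hL.sf_of_rf G 0 s h) ⟨0, hF⟩
  exact isForcing_local.equiv (A.mul B)
    ⟨σ ⊕ κ, Fin 1, fun _ => rename Sum.inl F * rename Sum.inr G⟩ (Equiv.refl _)
    (Equiv.prodUnique (Fin 1) (Fin 1)) (fun j => by
      change rename Sum.inl F * rename Sum.inr G =
        rename id (rename Sum.inl F * rename Sum.inr G)
      rw [rename_id_apply]) s h1

theorem po_gen {σ : Type} {F : MvPolynomial σ ℂ} {Z : ℕ → RatFunc ℂ} (h : Po F Z) (e : ℕ)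
    (he : 1 ≤ e) (s : ℂ) (hs : s ≠ -1) (h0 : (Z e).denom.eval s = 0) : RF F 0 s := by
  by_cases h1 : e = 1
  · subst h1
    exact h.one s ((ref_of_pole _ s h0).resolve_right hs)
  · exact h.two e (by omega) s h0

/-- products -/
theorem gd_mul (hL : StL) (hP : StmPRO) {σ κ : Type} (F : MvPolynomial σ ℂ)
    (G : MvPolynomial κ ℂ) (Z W : ℕ → RatFunc ℂ) (h : Gd σ F Z) (h' : Gd κ G W) :
    Gd (σ ⊕ κ) (rename Sum.inl F * rename Sum.inr G) (fun e => Z e * W e) := by
  classical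
  have := h.fin
  have := h'.fin
  have hr := rf_mul hL hP F G h.ne h'.ne h.c0 h'.c0
  have h1 := hP F G h.ne h'.ne h.c0 h'.c0
  refine ⟨inferInstance, ?_, ?_, ⟨fun s hs => ?_, fun e he s hs => ?_⟩⟩
  · refine mul_ne_zero ?_ ?_
    · rw [Ne, map_eq_zero_iff _ (rename_injective _ Sum.inl_injective)]
      exact h.ne
    · rw [Ne, map_eq_zero_iff _ (rename_injective _ Sum.inr_injective)]
      exact h'.ne
  · rw [map_mul, constantCoeff_rename, h.c0, zero_mul]
  · by_cases hs1 : s = -1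
    · rw [hs1]
      exact h1
    by_contra hne
    have h2 : (Z 1).denom.eval s ≠ 0 := fun h0 => hne (hr s (Or.inl (po_gen h.po 1 le_rfl s hs1 h0)))
    have h3 : (W 1).denom.eval s ≠ 0 := fun h0 =>
      hne (hr s (Or.inr (po_gen h'.po 1 le_rfl s hs1 h0)))
    exact Reg_denom s _ ((Reg s).mul_mem (X1_reg s) ((Reg s).mul_mem (mem_Reg_of_denom _ _ h2)
      (mem_Reg_of_denom _ _ h3))) hs
  · by_contra hne
    have h2 : (Z e).denom.eval s ≠ 0 := fun h0 => hne (hr s (Or.inl (h.po.two e he s h0)))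
    have h3 : (W e).denom.eval s ≠ 0 := fun h0 => hne (hr s (Or.inr (h'.po.two e he s h0)))
    exact Reg_denom s _ ((Reg s).mul_mem (mem_Reg_of_denom _ _ h2)
      (mem_Reg_of_denom _ _ h3)) hs

/-- powers -/
theorem gd_pow (hL : StL) (hW : StmPOW) {σ : Type} (F : MvPolynomial σ ℂ) (a : ℕ) (ha : 0 < a)
    (p q : ℕ → Polynomial ℂ) (hq : ∀ e, q e ≠ 0)
    (h : Gd σ F (fun e => algebraMap (Polynomial ℂ) (RatFunc ℂ) (p e) /
        algebraMap (Polynomial ℂ) (RatFunc ℂ) (q e))) :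
    Gd σ (F ^ a) (fun e => algebraMap (Polynomial ℂ) (RatFunc ℂ)
          ((p (e / Nat.gcd e a)).comp (Polynomial.C (a : ℂ) * Polynomial.X)) /
        algebraMap (Polynomial ℂ) (RatFunc ℂ)
          ((q (e / Nat.gcd e a)).comp (Polynomial.C (a : ℂ) * Polynomial.X))) := by
  classical
  have hfin := h.fin
  have haC : (a : ℂ) ≠ 0 := by exact_mod_cast ha.ne'
  have hne : F ^ a ≠ 0 := pow_ne_zero a h.ne
  -- the case `a ≥ 2`
  have key : 2 ≤ a → ∀ s : ℂ, (algebraMap (Polynomial ℂ) (RatFunc ℂ) (p 1) /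
        algebraMap (Polynomial ℂ) (RatFunc ℂ) (q 1)).denom.eval (a * s) = 0 → RF (F ^ a) 0 s := by
    intro ha2 s hs
    by_cases h1 : (a : ℂ) * s = -1
    · have hs1 : s ≠ -1 := by
        rintro rfl
        have h2 : (a : ℂ) = 1 := by linear_combination -h1
        have h3 : a = 1 := by exact_mod_cast h2
        omega
      refine hL.rf_of_sf _ 0 s hs1 ?_
      refine sf_of_local _ 0 _ (fun H b hb hH => ?_) (exists_fe _ ⟨(0 : Fin 1), hne⟩)
      have h3 := (sf_minus_one F h.ne h.c0).locEq H _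
        (loc_shift F h.ne a 0 (by omega) H b hb) hH
      rw [Polynomial.eval_comp, Polynomial.eval_mul, Polynomial.eval_sub, Polynomial.eval_C,
        Polynomial.eval_C, Polynomial.eval_X, Nat.cast_zero, sub_zero, ← h1,
        inv_mul_cancel_left₀ haC] at h3
      exact h3
    · exact hW F h.ne a ha s (po_gen h.po 1 le_rfl _ h1 hs)
  refine ⟨hfin, hne, by rw [map_pow, h.c0, zero_pow ha.ne'], ⟨fun s hs => ?_, fun e he s hs => ?_⟩⟩
  · beta_reduce at hs
    rw [Nat.gcd_one_left, Nat.div_one] at hs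
    by_cases ha1 : a = 1
    · subst ha1
      rw [Nat.cast_one, map_one, one_mul, Polynomial.comp_X, Polynomial.comp_X] at hs
      rw [pow_one]
      exact h.po.one s hs
    · exact key (by omega) s (pole_scale a ha.ne' _ _ (hq 1) s (pole_of_ref _ s hs))
  · have h1 := pole_scale a ha.ne' _ _ (hq _) s hs
    have hg : 0 < Nat.gcd e a := Nat.gcd_pos_of_pos_right _ ha
    have he' : 1 ≤ e / Nat.gcd e a :=
      (Nat.one_le_div_iff hg).2 (Nat.le_of_dvd (by omega) (Nat.gcd_dvd_left e a))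
    by_cases h2 : e / Nat.gcd e a = 1
    · rw [h2] at h1
      refine key ?_ s h1
      have h3 : e = Nat.gcd e a := (Nat.div_eq_iff_eq_mul_left hg (Nat.gcd_dvd_left e a)).1 h2
        |>.trans (one_mul _)
      have h4 : Nat.gcd e a ≤ a := Nat.le_of_dvd ha (Nat.gcd_dvd_right e a)
      omega
    · exact hW F h.ne a ha s (h.po.two _ (by omega) _ h1)

/-- sums -/
theorem gd_add {σ κ : Type} (F : MvPolynomial σ ℂ) (G : MvPolynomial κ ℂ) (c : ℂ)
    (Z W : ℕ → RatFunc ℂ) (h : Gd σ F Z) (h' : Gd κ G W)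
    (u v : ℕ → (ℂ × ℕ →₀ ℂ)) (hu : ExpOf Z u) (hv : ExpOf W v) (M : ℕ) [NeZero M] :
    Gd (σ ⊕ κ) (rename Sum.inl F + rename Sum.inr G +
      C c * (rename Sum.inl F * rename Sum.inr G)) (sumZ M u v) := by
  classical
  have := h.fin
  have := h'.fin
  have hne := kap_ne F G c h.ne h'.c0
  refine ⟨inferInstance, hne, ?_, po_add F G c h.ne h'.ne hne Z W h.po h'.po u v hu hv M⟩
  rw [map_add, map_add, map_mul, map_mul, constantCoeff_rename, constantCoeff_rename, h.c0,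
    h'.c0, mul_zero, mul_zero, add_zero, add_zero]

/-- more variables -/
theorem gd_ext {σ κ : Type} (hκ : Finite κ) (F : MvPolynomial σ ℂ) (Z : ℕ → RatFunc ℂ)
    (h : Gd σ F Z) : Gd (σ ⊕ κ) (rename Sum.inl F) Z := by
  have := h.fin
  refine ⟨inferInstance, ?_, ?_, ⟨fun s hs => rf_ext F s (h.po.one s hs), fun e he s hs =>
    rf_ext F s (h.po.two e he s hs)⟩⟩
  · rw [Ne, map_eq_zero_iff _ (rename_injective _ Sum.inl_injective)]
    exact h.ne
  · rw [constantCoeff_rename]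
    exact h.c0

theorem gd_drop (hL : StL) {σ κ : Type} (F : MvPolynomial σ ℂ) (Z : ℕ → RatFunc ℂ)
    (h : Gd (σ ⊕ κ) (rename Sum.inl F) Z) : Gd σ F Z := by
  have := h.fin
  refine ⟨Finite.of_injective (Sum.inl : σ → σ ⊕ κ) Sum.inl_injective, fun h0 => h.ne ?_, ?_,
    ⟨fun s hs => Pool.Agent.Y230.TL.rf_drop hL F s (h.po.one s hs), fun e he s hs =>
      Pool.Agent.Y230.TL.rf_drop hL F s (h.po.two e he s hs)⟩⟩
  · rw [h0, map_zero]
  · have h1 := h.c0
    rwa [constantCoeff_rename] at h1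

theorem gd_equiv (hL : StL) {σ κ : Type} (i : σ ≃ κ) (F : MvPolynomial σ ℂ)
    (Z : ℕ → RatFunc ℂ) (h : Gd σ F Z) : Gd κ (rename i F) Z := by
  have := h.fin
  refine ⟨Finite.of_equiv σ i, ?_, ?_,
    ⟨fun s hs => Pool.Agent.Y230.TL.rf_equiv hL i F s (h.po.one s hs), fun e he s hs =>
      Pool.Agent.Y230.TL.rf_equiv hL i F s (h.po.two e he s hs)⟩⟩
  · rw [Ne, map_eq_zero_iff _ (rename_injective _ i.injective)]
    exact h.ne
  · rw [constantCoeff_rename]
    exact h.c0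

end Pool.Agent.T6.H56.TSG
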