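import Pool.Agent.T6.H56.TSG.Base

set_option autoImplicit false
set_option linter.unusedSectionVars false
set_option linter.unusedVariables false

/-! # The functions of `k` determine the Laurent polynomial -/

namespace Pool.Agent.T6.H56.TSG

open MvPolynomial
open Pool.Agent.T6.H26 (pz pz_nat pz_neg)

variable {σ κ : Type}

theorem Psi_inj (h : MvPolynomial σ ℂ) (h0 : h ≠ 0) (v : L σ) (hv : Psi h v = 0) : v = 0 := by
  classical
  by_contra hne
  have hs : v.support.Nonempty := Finsupp.support_nonempty_iff.2 hne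
  obtain ⟨J, hJ, hJmax⟩ := v.support.exists_max_image id hs
  obtain ⟨M, hM⟩ : ∃ M : ℕ, ∀ j ∈ v.support, -(M : ℤ) ≤ j := by
    refine ⟨v.support.sup fun j => (-j).toNat, fun j hj => ?_⟩
    have h1 : (-j).toNat ≤ v.support.sup fun j => (-j).toNat :=
      Finset.le_sup (f := fun j : ℤ => (-j).toNat) hj
    omega
  set K0 : ℕ := J.toNat with hK0
  have hK : ∀ j ∈ v.support, j ≤ (K0 : ℤ) := by
    intro j hj
    have h1 := hJmax j hj
    simp only [id] at h1
    omega
  set G : Polynomial (MvPolynomial σ ℂ) := ∑ j ∈ v.support,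
    Polynomial.C (v j * h ^ ((K0 : ℤ) - j).toNat) *
      descPochhammer (MvPolynomial σ ℂ) (j + M).toNat with hG
  have hroot : ∀ K : ℕ, G.eval (((K + K0 + M : ℕ) : MvPolynomial σ ℂ)) = 0 := by
    intro K
    have h1 : Psi h v (K + K0) = 0 := by rw [hv]; rfl
    rw [Psi_apply] at h1
    have h2 : v.sum (fun j a => a * pz h (((K + K0 : ℕ) : ℤ) - j)) = 0 := by
      have h3 : (((K + K0).factorial : ℕ) : ℂ) ≠ 0 := by exact_mod_cast (K + K0).factorial_ne_zero
      exact (smul_eq_zero.1 h1).resolve_left h3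
    apply mul_left_cancel₀ (pow_ne_zero K h0)
    rw [mul_zero, hG, Polynomial.eval_finsetSum, Finset.mul_sum]
    have h4 := congrArg (fun u => (((K + K0 + M).factorial : ℕ) : ℂ) • u) h2
    beta_reduce at h4
    rw [smul_zero, Finsupp.sum, Finset.smul_sum] at h4
    rw [← h4]
    refine Finset.sum_congr rfl fun j hj => ?_
    have h5 := hM j hj
    have h6 := hK j hj
    obtain ⟨n, hn⟩ : ∃ n : ℕ, (((K + K0 : ℕ) : ℤ) - j) = n := ⟨(((K + K0 : ℕ) : ℤ) - j).toNat, by omega⟩
    obtain ⟨m, hm⟩ : ∃ m : ℕ, j + (M : ℤ) = m := ⟨(j + M).toNat, by omega⟩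
    have h7 : K + K0 + M = n + m := by omega
    have h8 : n = K + ((K0 : ℤ) - j).toNat := by omega
    rw [Polynomial.eval_mul, Polynomial.eval_C, hn, hm, Int.toNat_natCast,
      descPochhammer_eval_eq_descFactorial, pz_nat, h7]
    have h9 : (n + m).factorial = n.factorial * (n + m).descFactorial m := by
      rw [← Nat.factorial_mul_descFactorial (Nat.le_add_left m n), Nat.add_sub_cancel]
    have h10 : (((n + m).descFactorial m : ℕ) : MvPolynomial σ ℂ) =
        C (((n + m).descFactorial m : ℕ) : ℂ) := by simp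
    have h11 : (n.factorial : ℂ) ≠ 0 := by exact_mod_cast n.factorial_ne_zero
    rw [h10, mul_smul_comm, smul_smul, h9]
    have h12 : ((n.factorial * (n + m).descFactorial m : ℕ) : ℂ) * ((n.factorial : ℂ))⁻¹ =
        (((n + m).descFactorial m : ℕ) : ℂ) := by
      push_cast
      field_simp
    rw [h12, smul_eq_C_mul]
    have h13 : h ^ n = h ^ K * h ^ ((K0 : ℤ) - j).toNat := by rw [← pow_add, ← h8]
    rw [h13]
    ring
  have hG0 : G = 0 := by
    refine Polynomial.eq_zero_of_infinite_isRoot G ?_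
    refine Set.infinite_of_injective_forall_mem
      (f := fun K : ℕ => (((K + K0 + M : ℕ) : MvPolynomial σ ℂ))) ?_ hroot
    intro a b hab
    have h1 : a + K0 + M = b + K0 + M := Nat.cast_injective hab
    omega
  have hcoef : G.coeff (J + M).toNat = v J * h ^ ((K0 : ℤ) - J).toNat := by
    rw [hG, Polynomial.finsetSum_coeff, Finset.sum_eq_single J]
    · rw [Polynomial.coeff_C_mul]
      have h1 := (monic_descPochhammer (MvPolynomial σ ℂ) (J + M).toNat).coeff_natDegree
      rw [descPochhammer_natDegree] at h1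
      rw [h1, mul_one]
    · intro j hj hne'
      rw [Polynomial.coeff_C_mul, Polynomial.coeff_eq_zero_of_natDegree_lt, mul_zero]
      rw [descPochhammer_natDegree]
      have h1 := hJmax j hj
      have h2 := hM j hj
      simp only [id] at h1
      omega
    · intro h1
      exact absurd hJ h1
  rw [hG0, Polynomial.coeff_zero] at hcoef
  rcases mul_eq_zero.1 hcoef.symm with h1 | h1
  · exact (Finsupp.mem_support_iff.1 hJ) h1
  · exact pow_ne_zero _ h0 h1

end Pool.Agent.T6.H56.TSG
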