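import Pool.Agent.T6.H56.TSG.Star
import Pool.Agent.T6.H56.TSG.Inj

set_option autoImplicit false
set_option linter.unusedSectionVars false
set_option linter.unusedVariables false

/-! # Thom-Sebastiani for reduced b-functions, arbitrary polynomials in disjoint variables -/

namespace Pool.Agent.T6.H56.TSG

open MvPolynomial
open Pool.Agent.W574.SM (weyl)
open Pool.Agent.W574.HS (minus_one)
open Pool.Agent.W574.RO (pderiv_inl_rename pderiv_inr_rename pderiv_inl_inr pderiv_inr_inl)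
open Pool.Agent.H628R4.TP (IsBFunction weylS)
open Pool.Agent.Y230.TH (kf W StA)
open Pool.Agent.Y230.TL (RE RF)
open Pool.Agent.T6.H26 (cor cor_mul)
open scoped TensorProduct

variable {σ κ : Type}

/-- `f(x) + g(z)` -/
noncomputable abbrev Fs (f : MvPolynomial σ ℂ) (g : MvPolynomial κ ℂ) :
    MvPolynomial (σ ⊕ κ) ℂ := rename Sum.inl f + rename Sum.inr g

theorem ml_X_left (i : σ) (a : L σ) (b : L κ) :
    ml (mu (X i) a) b = mu (X (Sum.inl i)) (ml a b) := by
  induction a using Finsupp.induction_linear with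
  | zero => simp
  | add u v hu hv => simp only [map_add, LinearMap.add_apply, hu, hv]
  | single j x =>
    induction b using Finsupp.induction_linear with
    | zero => simp
    | add u v hu hv => simp only [map_add, hu, hv]
    | single k y =>
      rw [mu_single, ml_single, ml_single, mu_single, map_mul, rename_X]
      congr 1
      ring

theorem ml_X_right (i : κ) (a : L σ) (b : L κ) :
    ml a (mu (X i) b) = mu (X (Sum.inr i)) (ml a b) := by
  induction a using Finsupp.induction_linear with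
  | zero => simp
  | add u v hu hv => simp only [map_add, LinearMap.add_apply, hu, hv]
  | single j x =>
    induction b using Finsupp.induction_linear with
    | zero => simp
    | add u v hu hv => simp only [map_add, hu, hv]
    | single k y =>
      rw [mu_single, ml_single, ml_single, mu_single, map_mul, rename_X]
      congr 1
      ring

theorem ml_D_left (f : MvPolynomial σ ℂ) (g : MvPolynomial κ ℂ) (i : σ) (a : L σ) (b : L κ) :
    ml (Dl f i a) b = Dl (Fs f g) (Sum.inl i) (ml a b) := by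
  induction a using Finsupp.induction_linear with
  | zero => simp
  | add u v hu hv => simp only [map_add, LinearMap.add_apply, hu, hv]
  | single j x =>
    induction b using Finsupp.induction_linear with
    | zero => simp
    | add u v hu hv => simp only [map_add, hu, hv]
    | single k y =>
      rw [Dl_single, map_add, LinearMap.add_apply, ml_single, ml_single, ml_single, Dl_single,
        Derivation.leibniz, pderiv_inl_inr, pderiv_inl_rename, smul_zero, zero_add, smul_eq_mul,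
        map_add, pderiv_inl_rename, pderiv_inl_inr, add_zero, map_mul]
      congr 2
      · ring
      · ring
      · ring

theorem ml_D_right (f : MvPolynomial σ ℂ) (g : MvPolynomial κ ℂ) (i : κ) (a : L σ) (b : L κ) :
    ml a (Dl g i b) = Dl (Fs f g) (Sum.inr i) (ml a b) := by
  induction a using Finsupp.induction_linear with
  | zero => simp
  | add u v hu hv => simp only [map_add, LinearMap.add_apply, hu, hv]
  | single j x =>
    induction b using Finsupp.induction_linear with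
    | zero => simp
    | add u v hu hv => simp only [map_add, hu, hv]
    | single k y =>
      rw [Dl_single, map_add, ml_single, ml_single, ml_single, Dl_single,
        Derivation.leibniz, pderiv_inr_inl, pderiv_inr_rename, smul_zero, add_zero, smul_eq_mul,
        map_add, pderiv_inr_rename, pderiv_inr_inl, zero_add, map_mul]
      congr 2
      · ring
      · ring

theorem ml_S (f : MvPolynomial σ ℂ) (g : MvPolynomial κ ℂ) (a : L σ) (b : L κ) :
    ml (Sl f a) b + ml a (Sl g b) = Sl (Fs f g) (ml a b) := by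
  induction a using Finsupp.induction_linear with
  | zero => simp
  | add u v hu hv =>
    simp only [map_add, LinearMap.add_apply]
    rw [← hu, ← hv]
    abel
  | single j x =>
    induction b using Finsupp.induction_linear with
    | zero => simp
    | add u v hu hv =>
      simp only [map_add]
      rw [← hu, ← hv]
      abel
    | single k y =>
      rw [Sl_single, Sl_single, map_add, LinearMap.add_apply, map_add, ml_single, ml_single,
        ml_single, ml_single, ml_single, Sl_single, map_mul, map_mul, map_smul, map_smul]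
      have h1 : j + 1 + k = j + k + 1 := by ring
      have h2 : j + (k + 1) = j + k + 1 := by ring
      have h3 : ((((j + k : ℤ) : ℂ)) • (rename Sum.inl x * rename Sum.inr y) :
          MvPolynomial (σ ⊕ κ) ℂ) = (j : ℂ) • rename Sum.inl x * rename Sum.inr y +
            rename Sum.inl x * ((k : ℂ) • rename Sum.inr y) := by
        rw [smul_mul_assoc, mul_smul_comm, ← add_smul]
        push_cast
        rfl
      have h4 : (Fs f g) * (rename Sum.inl x * rename Sum.inr y) =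
          rename Sum.inl f * rename Sum.inl x * rename Sum.inr y +
            rename Sum.inl x * (rename Sum.inr g * rename Sum.inr y) := by
        unfold Fs
        ring
      rw [h1, h2, h3, h4, Finsupp.single_add, Finsupp.single_add]
      abel

/-! ## Tensor products -/

/-- the product -/
noncomputable def Phi : L σ ⊗[ℂ] L κ →ₗ[ℂ] L (σ ⊕ κ) := TensorProduct.lift ml

theorem Phi_tmul (a : L σ) (b : L κ) : Phi (a ⊗ₜ[ℂ] b) = ml a b := rfl

/-- products of elements of `N_f` and `N_g` -/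
noncomputable def NN (f : MvPolynomial σ ℂ) (g : MvPolynomial κ ℂ) :
    Submodule ℂ (L σ ⊗[ℂ] L κ) :=
  Submodule.span ℂ {t | ∃ a ∈ N f, ∃ b ∈ N g, t = a ⊗ₜ[ℂ] b}

theorem NN_left (f : MvPolynomial σ ℂ) (g : MvPolynomial κ ℂ) (A : L σ →ₗ[ℂ] L σ)
    (hA : ∀ v ∈ N f, A v ∈ N f) (t : L σ ⊗[ℂ] L κ) (ht : t ∈ NN f g) :
    LinearMap.rTensor (L κ) A t ∈ NN f g := by
  have h1 : NN f g ≤ (NN f g).comap (LinearMap.rTensor (L κ) A) := by
    unfold NN
    rw [Submodule.span_le]
    rintro u ⟨a, ha, b, hb, rfl⟩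
    exact Submodule.subset_span ⟨A a, hA a ha, b, hb, by rw [LinearMap.rTensor_tmul]⟩
  exact h1 ht

theorem NN_right (f : MvPolynomial σ ℂ) (g : MvPolynomial κ ℂ) (A : L κ →ₗ[ℂ] L κ)
    (hA : ∀ v ∈ N g, A v ∈ N g) (t : L σ ⊗[ℂ] L κ) (ht : t ∈ NN f g) :
    LinearMap.lTensor (L σ) A t ∈ NN f g := by
  have h1 : NN f g ≤ (NN f g).comap (LinearMap.lTensor (L σ) A) := by
    unfold NN
    rw [Submodule.span_le]
    rintro u ⟨a, ha, b, hb, rfl⟩
    exact Submodule.subset_span ⟨a, ha, A b, hA b hb, by rw [LinearMap.lTensor_tmul]⟩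
  exact h1 ht

/-- `S ⊗ 1 + 1 ⊗ S` -/
noncomputable def SS (f : MvPolynomial σ ℂ) (g : MvPolynomial κ ℂ) :
    L σ ⊗[ℂ] L κ →ₗ[ℂ] L σ ⊗[ℂ] L κ :=
  LinearMap.rTensor (L κ) (Sl f) + LinearMap.lTensor (L σ) (Sl g)

theorem SS_tmul (f : MvPolynomial σ ℂ) (g : MvPolynomial κ ℂ) (a : L σ) (b : L κ) :
    SS f g (a ⊗ₜ[ℂ] b) = Sl f a ⊗ₜ[ℂ] b + a ⊗ₜ[ℂ] Sl g b := by
  rw [SS, LinearMap.add_apply, LinearMap.rTensor_tmul, LinearMap.lTensor_tmul]

theorem Phi_SS (f : MvPolynomial σ ℂ) (g : MvPolynomial κ ℂ) (t : L σ ⊗[ℂ] L κ) :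
    Phi (SS f g t) = Sl (Fs f g) (Phi t) := by
  induction t using TensorProduct.induction_on with
  | zero => simp
  | add u v hu hv => simp only [map_add, hu, hv]
  | tmul a b => rw [SS_tmul, map_add, Phi_tmul, Phi_tmul, Phi_tmul, ml_S]

theorem Phi_left (A : L σ →ₗ[ℂ] L σ) (B : L (σ ⊕ κ) →ₗ[ℂ] L (σ ⊕ κ))
    (h : ∀ a (b : L κ), ml (A a) b = B (ml a b)) (t : L σ ⊗[ℂ] L κ) :
    Phi (LinearMap.rTensor (L κ) A t) = B (Phi t) := by
  induction t using TensorProduct.induction_on with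
  | zero => simp
  | add u v hu hv => simp only [map_add, hu, hv]
  | tmul a b => rw [LinearMap.rTensor_tmul, Phi_tmul, Phi_tmul, h]

theorem Phi_right (A : L κ →ₗ[ℂ] L κ) (B : L (σ ⊕ κ) →ₗ[ℂ] L (σ ⊕ κ))
    (h : ∀ (a : L σ) b, ml a (A b) = B (ml a b)) (t : L σ ⊗[ℂ] L κ) :
    Phi (LinearMap.lTensor (L σ) A t) = B (Phi t) := by
  induction t using TensorProduct.induction_on with
  | zero => simp
  | add u v hu hv => simp only [map_add, hu, hv]
  | tmul a b => rw [LinearMap.lTensor_tmul, Phi_tmul, Phi_tmul, h]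

theorem NN_SS (f : MvPolynomial σ ℂ) (g : MvPolynomial κ ℂ) (t : L σ ⊗[ℂ] L κ)
    (ht : t ∈ NN f g) : SS f g t ∈ NN f g := by
  rw [SS, LinearMap.add_apply]
  exact (NN f g).add_mem (NN_left f g _ (N_S f) t ht) (NN_right f g _ (N_S g) t ht)

theorem NN_one (f : MvPolynomial σ ℂ) (g : MvPolynomial κ ℂ) :
    (Finsupp.single 0 1 : L σ) ⊗ₜ[ℂ] (Finsupp.single 0 1 : L κ) ∈ NN f g :=
  Submodule.subset_span ⟨_, N_one f, _, N_one g, rfl⟩

theorem Phi_one : Phi ((Finsupp.single 0 1 : L σ) ⊗ₜ[ℂ] (Finsupp.single 0 1 : L κ)) =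
    Finsupp.single 0 1 := by
  rw [Phi_tmul, ml_single, map_one, map_one, mul_one, add_zero]

theorem N_le_NN (f : MvPolynomial σ ℂ) (g : MvPolynomial κ ℂ) :
    N (Fs f g) ≤ (NN f g).map Phi := by
  refine N_le _ _ ⟨_, NN_one f g, Phi_one⟩ ?_ ?_ ?_ ?_
  · rintro (i | i) _ ⟨t, ht, rfl⟩
    · exact ⟨_, NN_left f g _ (N_X f i) t ht, Phi_left _ _ (fun a b => ml_X_left i a b) t⟩
    · exact ⟨_, NN_right f g _ (N_X g i) t ht, Phi_right _ _ (fun a b => ml_X_right i a b) t⟩
  · rintro (i | i) _ ⟨t, ht, rfl⟩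
    · exact ⟨_, NN_left f g _ (N_D f i) t ht, Phi_left _ _ (fun a b => ml_D_left f g i a b) t⟩
    · exact ⟨_, NN_right f g _ (N_D g i) t ht, Phi_right _ _ (fun a b => ml_D_right f g i a b) t⟩
  · rintro _ ⟨t, ht, rfl⟩
    exact ⟨_, NN_SS f g t ht, Phi_SS f g t⟩
  · rintro _ ⟨t, ht, rfl⟩
    exact ⟨_, NN_right f g _ (N_T g) t ht, Phi_right _ _ (fun a b => ml_ta_right a b) t⟩

/-- the functional on the first factor -/
noncomputable def Lam (lam : L σ →ₗ[ℂ] ℂ) : L σ ⊗[ℂ] L κ →ₗ[ℂ] L κ :=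
  (TensorProduct.lid ℂ (L κ)).toLinearMap ∘ₗ LinearMap.rTensor (L κ) lam

theorem Lam_tmul (lam : L σ →ₗ[ℂ] ℂ) (a : L σ) (b : L κ) :
    Lam lam (a ⊗ₜ[ℂ] b) = lam a • b := by
  rw [Lam, LinearMap.comp_apply, LinearMap.rTensor_tmul]
  exact TensorProduct.lid_tmul b (lam a)

theorem Lam_mem (f : MvPolynomial σ ℂ) (g : MvPolynomial κ ℂ) (lam : L σ →ₗ[ℂ] ℂ)
    (t : L σ ⊗[ℂ] L κ) (ht : t ∈ NN f g) : Lam lam t ∈ N g := by
  have h1 : NN f g ≤ (N g).comap (Lam lam) := by
    unfold NN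
    rw [Submodule.span_le]
    rintro u ⟨a, ha, b, hb, rfl⟩
    change Lam lam (a ⊗ₜ[ℂ] b) ∈ N g
    rw [Lam_tmul]
    exact (N g).smul_mem _ hb
  exact h1 ht

theorem Lam_ta (lam : L σ →ₗ[ℂ] ℂ) (t : L σ ⊗[ℂ] L κ) :
    Lam lam (LinearMap.lTensor (L σ) ta t) = ta (Lam lam t) := by
  induction t using TensorProduct.induction_on with
  | zero => simp
  | add u v hu hv => simp only [map_add, hu, hv]
  | tmul a b => rw [LinearMap.lTensor_tmul, Lam_tmul, Lam_tmul, map_smul]

theorem star_t (f : MvPolynomial σ ℂ) (g : MvPolynomial κ ℂ) (lam : L σ →ₗ[ℂ] ℂ)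
    (hlam : ∀ v ∈ N f, lam (ta v) = 0) (t : L σ ⊗[ℂ] L κ) (ht : t ∈ NN f g)
    (h : Phi t = 0) : ∃ u ∈ N g, Lam lam t = ta u := by
  classical
  unfold NN at ht
  rw [Submodule.mem_span_set] at ht
  obtain ⟨c, hc, hct⟩ := ht
  have hch : ∀ m : L σ ⊗[ℂ] L κ, ∃ (a : L σ) (b : L κ), m ∈ c.support →
      a ∈ N f ∧ b ∈ N g ∧ m = a ⊗ₜ[ℂ] b := by
    intro m
    by_cases hm : m ∈ c.support
    · obtain ⟨a, ha, b, hb, h1⟩ := hc hm
      exact ⟨a, b, fun _ => ⟨ha, hb, h1⟩⟩
    · exact ⟨0, 0, fun h1 => absurd h1 hm⟩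
  choose a b hab using hch
  have h1 : t = ∑ m ∈ c.support, a m ⊗ₜ[ℂ] (c m • b m) := by
    rw [← hct, Finsupp.sum]
    refine Finset.sum_congr rfl fun m hm => ?_
    rw [TensorProduct.tmul_smul, ← (hab m hm).2.2]
  obtain ⟨w, hw, h2⟩ := star (N f) (N g) (N_T f) (N_T g) lam hlam c.support.card c.support rfl a
    (fun m => c m • b m) (fun m hm => (hab m hm).1)
    (fun m hm => (N g).smul_mem _ (hab m hm).2.1) (by
      rw [h1, map_sum] at h
      rw [← h]
      exact Finset.sum_congr rfl fun m _ => rfl)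
  refine ⟨w, hw, ?_⟩
  rw [← h2, h1, map_sum]
  exact Finset.sum_congr rfl fun m _ => Lam_tmul _ _ _

/-- the main step -/
theorem step (f : MvPolynomial σ ℂ) (g : MvPolynomial κ ℂ) (lam : L σ →ₗ[ℂ] ℂ)
    (hlam : ∀ v ∈ N f, lam (ta v) = 0) (t : L σ ⊗[ℂ] L κ) (ht : t ∈ NN f g)
    (w : L (σ ⊕ κ)) (hw : w ∈ N (Fs f g)) (h : Phi t = ta w) :
    ∃ u ∈ N g, Lam lam t = ta u := by
  obtain ⟨t', ht', rfl⟩ := N_le_NN f g hw
  have h1 : Phi (t + (-1 : ℂ) • LinearMap.lTensor (L σ) ta t') = 0 := by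
    rw [map_add, map_smul, h, Phi_right _ ta (fun a b => ml_ta_right a b), neg_one_smul,
      add_neg_cancel]
  have h3 : t + (-1 : ℂ) • LinearMap.lTensor (L σ) ta t' ∈ NN f g :=
    (NN f g).add_mem ht ((NN f g).smul_mem _ (NN_right f g ta (N_T g) t' ht'))
  obtain ⟨u, hu, h2⟩ := star_t f g lam hlam _ h3 h1
  refine ⟨u + Lam lam t', (N g).add_mem hu (Lam_mem f g lam t' ht'), ?_⟩
  rw [map_add, map_smul, Lam_ta, neg_one_smul] at h2
  rw [map_add, ← h2, neg_add_cancel_right]

/-- extension of functionals -/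
theorem ext_fun {E V : Type} [AddCommGroup E] [Module ℂ E] [AddCommGroup V] [Module ℂ V]
    (T : E →ₗ[ℂ] V) (P : Submodule ℂ V) (φ : E →ₗ[ℂ] ℂ) (h : ∀ x, T x ∈ P → φ x = 0) :
    ∃ lam : V →ₗ[ℂ] ℂ, (∀ v ∈ P, lam v = 0) ∧ ∀ x, lam (T x) = φ x := by
  have hker : LinearMap.ker (P.mkQ ∘ₗ T) ≤ LinearMap.ker φ := by
    intro x hx
    rw [LinearMap.mem_ker] at hx ⊢
    rw [LinearMap.comp_apply, Submodule.mkQ_apply, Submodule.Quotient.mk_eq_zero] at hx
    exact h x hx
  obtain ⟨ψ, hψ⟩ : ∃ ψ : (V ⧸ P) →ₗ[ℂ] ℂ, ψ ∘ₗ (P.mkQ ∘ₗ T) = φ := by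
    have h1 : φ ∈ (LinearMap.ker (P.mkQ ∘ₗ T)).dualAnnihilator := by
      rw [Submodule.mem_dualAnnihilator]
      intro q hq
      exact hker hq
    rw [← LinearMap.range_dualMap_eq_dualAnnihilator_ker] at h1
    obtain ⟨ψ, hψ⟩ := h1
    exact ⟨ψ, hψ⟩
  refine ⟨ψ ∘ₗ P.mkQ, fun v hv => ?_, fun x => ?_⟩
  · rw [LinearMap.comp_apply, Submodule.mkQ_apply, (Submodule.Quotient.mk_eq_zero _).2 hv, map_zero]
  · exact congrArg (fun L => L x) hψ

/-- the polynomials in `S` -/
noncomputable def ps {V : Type} [AddCommMonoid V] [Module ℂ V] (S : V →ₗ[ℂ] V)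
    (p : Polynomial ℂ) : V →ₗ[ℂ] V := Polynomial.aeval (S : Module.End ℂ V) p

section ps

variable {V : Type} [AddCommMonoid V] [Module ℂ V] (S : V →ₗ[ℂ] V)

theorem ps_add (p q : Polynomial ℂ) (v : V) : ps S (p + q) v = ps S p v + ps S q v := by
  unfold ps
  rw [map_add]
  rfl

theorem ps_mul (p q : Polynomial ℂ) (v : V) : ps S (p * q) v = ps S p (ps S q v) := by
  unfold ps
  rw [map_mul]
  rfl

theorem ps_C (a : ℂ) (v : V) : ps S (Polynomial.C a) v = a • v := by
  unfold ps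
  rw [Polynomial.aeval_C]
  rfl

theorem ps_smul (a : ℂ) (p : Polynomial ℂ) (v : V) : ps S (a • p) v = a • ps S p v := by
  unfold ps
  rw [map_smul]
  rfl

theorem ps_X (v : V) : ps S Polynomial.X v = S v := by
  unfold ps
  rw [Polynomial.aeval_X]

theorem ps_mem (P : Submodule ℂ V) (hP : ∀ v ∈ P, S v ∈ P) (p : Polynomial ℂ) (v : V)
    (hv : v ∈ P) : ps S p v ∈ P := by
  induction p using Polynomial.induction_on generalizing v with
  | C a => rw [ps_C]; exact P.smul_mem a hv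
  | add p q hp hq => rw [ps_add]; exact P.add_mem (hp v hv) (hq v hv)
  | monomial n a h =>
    rw [pow_succ, ← mul_assoc, ps_mul, ps_X]
    exact h _ (hP v hv)

theorem ps_comm {U : Type} [AddCommMonoid U] [Module ℂ U] (R : U →ₗ[ℂ] U) (A : V →ₗ[ℂ] U)
    (h : ∀ v, A (S v) = R (A v)) (p : Polynomial ℂ) (v : V) : A (ps S p v) = ps R p (A v) := by
  induction p using Polynomial.induction_on generalizing v with
  | C a => rw [ps_C, ps_C, map_smul]
  | add p q hp hq => rw [ps_add, ps_add, map_add, hp, hq]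
  | monomial n a ih => rw [pow_succ, ← mul_assoc, ps_mul S _ Polynomial.X, ps_X, ps_mul R _ Polynomial.X, ps_X, ih, h]

end ps

theorem Psi_ps (f : MvPolynomial σ ℂ) (p : Polynomial ℂ) (v : L σ) (k : ℕ) :
    Psi f (ps (Sl f) p v) k = p.eval (k : ℂ) • Psi f v k := by
  induction p using Polynomial.induction_on generalizing v with
  | C a => rw [ps_C, map_smul, Polynomial.eval_C]; rfl
  | add p q hp hq =>
    rw [ps_add, map_add, Pi.add_apply, hp, hq, Polynomial.eval_add, add_smul]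
  | monomial n a ih =>
    rw [pow_succ, ← mul_assoc, ps_mul, ps_X, ih, Psi_S, smul_smul, Polynomial.eval_mul_X]

/-- **Thom-Sebastiani for microlocal functional equations**: `α` a forced root of the
microlocal equations of `f`. -/
theorem sum_W (f : MvPolynomial σ ℂ) (g : MvPolynomial κ ℂ) (hF : Fs f g ≠ 0)
    (q : Polynomial ℂ) (hq : (fun k : ℕ => q.eval (k : ℂ) • (Fs f g) ^ k) ∈ W (Fs f g)) (α : ℂ)
    (hα : ∀ r : Polynomial ℂ, (fun k : ℕ => r.eval (k : ℂ) • f ^ k) ∈ W f → r.eval α = 0) :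
    (fun k : ℕ => (q.comp (Polynomial.X + Polynomial.C α)).eval (k : ℂ) • g ^ k) ∈ W g := by
  classical
  -- the functional
  obtain ⟨lam, hl1, hl2⟩ := ext_fun
    ({ toFun := fun r => ps (Sl f) r (Finsupp.single 0 1)
       map_add' := fun r s => ps_add _ _ _ _
       map_smul' := fun c r => ps_smul _ _ _ _ } : Polynomial ℂ →ₗ[ℂ] L σ)
    ((N f).map ta) (Polynomial.leval α) (by
      rintro r ⟨w, hw, h1⟩
      refine hα r ?_
      refine (congrArg (· ∈ W f) (funext fun k => ?_)).mp (Psi_mem f w hw)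
      rw [h1]
      change Psi f (ps (Sl f) r (Finsupp.single 0 1)) k = _
      rw [Psi_ps, Psi_one])
  have hl1' : ∀ v ∈ N f, lam (ta v) = 0 := fun v hv => hl1 _ ⟨v, hv, rfl⟩
  have hl3 : ∀ i : ℕ, lam (ps (Sl f) (Polynomial.X ^ i) (Finsupp.single 0 1)) = α ^ i := by
    intro i
    have h1 := hl2 (Polynomial.X ^ i)
    rw [Polynomial.leval_apply, Polynomial.eval_pow, Polynomial.eval_X] at h1
    exact h1
  -- the tensor
  set t : L σ ⊗[ℂ] L κ := ps (SS f g) q ((Finsupp.single 0 1 : L σ) ⊗ₜ[ℂ] Finsupp.single 0 1)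
    with ht
  have htN : t ∈ NN f g := ps_mem (SS f g) (NN f g) (NN_SS f g) q _ (NN_one f g)
  obtain ⟨w, hw, h1⟩ := mem_Psi _ _ hq
  have h2 : Phi t = ta w := by
    rw [ht, ps_comm (SS f g) (Sl (Fs f g)) Phi (Phi_SS f g), Phi_one, ← sub_eq_zero]
    refine Psi_inj (Fs f g) hF _ ?_
    rw [map_sub, h1, sub_eq_zero]
    funext k
    rw [Psi_ps, Psi_one]
  obtain ⟨u, hu, h3⟩ := step f g lam hl1' t htN w hw h2
  have h4 : ∀ (r : Polynomial ℂ) (i : ℕ) (y : L κ),
      Lam lam (ps (SS f g) r (ps (Sl f) (Polynomial.X ^ i) (Finsupp.single 0 1) ⊗ₜ[ℂ] y)) =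
        α ^ i • ps (Sl g) (r.comp (Polynomial.X + Polynomial.C α)) y := by
    intro r
    induction r using Polynomial.induction_on with
    | C a =>
      intro i y
      rw [ps_C, map_smul, Lam_tmul, hl3, Polynomial.C_comp, ps_C, smul_comm]
    | add p q hp hq =>
      intro i y
      rw [ps_add, map_add, hp, hq, Polynomial.add_comp, ps_add, smul_add]
    | monomial n a ih =>
      intro i y
      have h5 : Sl f (ps (Sl f) (Polynomial.X ^ i) (Finsupp.single 0 1)) =
          ps (Sl f) (Polynomial.X ^ (i + 1)) (Finsupp.single 0 1) := by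
        rw [pow_succ', ps_mul, ps_X]
      have h6 : (Polynomial.C a * Polynomial.X ^ n * Polynomial.X).comp
          (Polynomial.X + Polynomial.C α) =
          (Polynomial.C a * Polynomial.X ^ n).comp (Polynomial.X + Polynomial.C α) *
            (Polynomial.X + Polynomial.C α) := by
        rw [Polynomial.mul_comp _ Polynomial.X, Polynomial.X_comp]
      rw [pow_succ, ← mul_assoc, ps_mul _ _ Polynomial.X, ps_X, SS_tmul, map_add, map_add, h5, ih,
        ih, h6, ps_mul _ _ (Polynomial.X + Polynomial.C α), ps_add, ps_X, ps_C, map_add, map_smul,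
        smul_add, smul_smul, pow_succ]
      abel
  have h6 := h4 q 0 (Finsupp.single 0 1)
  rw [pow_zero, ← Polynomial.C_1, ps_C, one_smul, pow_zero, one_smul] at h6
  refine (congrArg (· ∈ W g) (funext fun k => ?_)).mp (Psi_mem g u hu)
  rw [← h3, ht, h6, Psi_ps, Psi_one]

end Pool.Agent.T6.H56.TSG
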