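import Pool.Agent.T6.H56.TSG.Base

set_option autoImplicit false
set_option linter.unusedSectionVars false
set_option linter.unusedVariables false

/-! # Products of Laurent polynomials in disjoint variables -/

namespace Pool.Agent.T6.H56.TSG

open MvPolynomial
open Pool.Agent.T6.H26 (cor cor_mul)
open scoped TensorProduct

variable {σ κ : Type}

/-- product of polynomials in disjoint variables -/
noncomputable def mb : MvPolynomial σ ℂ →ₗ[ℂ] MvPolynomial κ ℂ →ₗ[ℂ] MvPolynomial (σ ⊕ κ) ℂ :=
  (LinearMap.mul ℂ (MvPolynomial (σ ⊕ κ) ℂ)).compl₁₂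
    (rename (R := ℂ) (Sum.inl : σ → σ ⊕ κ)).toLinearMap
    (rename (R := ℂ) (Sum.inr : κ → σ ⊕ κ)).toLinearMap

theorem mb_apply (a : MvPolynomial σ ℂ) (b : MvPolynomial κ ℂ) :
    mb a b = rename Sum.inl a * rename Sum.inr b := rfl

/-- product of Laurent polynomials in disjoint variables -/
noncomputable def ml : L σ →ₗ[ℂ] L κ →ₗ[ℂ] L (σ ⊕ κ) :=
  Finsupp.lsum ℂ fun i =>
    { toFun := fun a => op i (fun _ => mb a)
      map_add' := fun a b => by
        apply Finsupp.lhom_ext
        intro j c
        rw [LinearMap.add_apply, op_single, op_single, op_single, map_add, LinearMap.add_apply,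
          Finsupp.single_add]
      map_smul' := fun r a => by
        apply Finsupp.lhom_ext
        intro j c
        rw [RingHom.id_apply, LinearMap.smul_apply, op_single, op_single, map_smul,
          LinearMap.smul_apply, Finsupp.smul_single] }

theorem ml_single (i j : ℤ) (a : MvPolynomial σ ℂ) (b : MvPolynomial κ ℂ) :
    ml (Finsupp.single i a) (Finsupp.single j b) =
      Finsupp.single (i + j) (rename Sum.inl a * rename Sum.inr b) := by
  unfold ml
  rw [Finsupp.lsum_single]
  change op i (fun _ => mb a) (Finsupp.single j b) = _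
  rw [op_single, mb_apply, add_comm]

theorem ml_ta_left (a : L σ) (b : L κ) : ml (ta a) b = ta (ml a b) := by
  induction a using Finsupp.induction_linear with
  | zero => simp
  | add u v hu hv => simp only [map_add, LinearMap.add_apply, hu, hv]
  | single i x =>
    induction b using Finsupp.induction_linear with
    | zero => simp
    | add u v hu hv => simp only [map_add, hu, hv]
    | single j y =>
      rw [ta_single, ml_single, ml_single, ta_single]
      congr 1
      ring

theorem ml_ta_right (a : L σ) (b : L κ) : ml a (ta b) = ta (ml a b) := by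
  induction a using Finsupp.induction_linear with
  | zero => simp
  | add u v hu hv => simp only [map_add, LinearMap.add_apply, hu, hv]
  | single i x =>
    induction b using Finsupp.induction_linear with
    | zero => simp
    | add u v hu hv => simp only [map_add, hu, hv]
    | single j y =>
      rw [ta_single, ml_single, ml_single, ta_single]
      congr 1
      ring

theorem ta_inj (v : L σ) (hv : ta v = 0) : v = 0 := by
  have h1 : ∀ u : L σ, op 1 (fun _ => LinearMap.id) (ta u) = u := by
    intro u
    induction u using Finsupp.induction_linear with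
    | zero => simp
    | add u v hu hv => simp only [map_add, hu, hv]
    | single j a =>
      rw [ta_single, op_single]
      congr 1
      ring
  rw [← h1 v, hv, map_zero]

/-- polynomials in `T⁻¹` -/
noncomputable def pt (p : Polynomial ℂ) : L σ →ₗ[ℂ] L σ :=
  Polynomial.aeval (ta : Module.End ℂ (L σ)) p

theorem pt_add (p q : Polynomial ℂ) (v : L σ) : pt (p + q) v = pt p v + pt q v := by
  unfold pt
  rw [map_add]
  rfl

theorem pt_zero (v : L σ) : pt 0 v = 0 := by
  unfold pt
  rw [map_zero]
  rfl

theorem pt_mul (p q : Polynomial ℂ) (v : L σ) : pt (p * q) v = pt p (pt q v) := by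
  unfold pt
  rw [map_mul]
  rfl

theorem pt_C (a : ℂ) (v : L σ) : pt (Polynomial.C a) v = a • v := by
  unfold pt
  rw [Polynomial.aeval_C]
  rfl

theorem pt_X (v : L σ) : pt Polynomial.X v = ta v := by
  unfold pt
  rw [Polynomial.aeval_X]

theorem pt_X_pow_inj (n : ℕ) (v : L σ) (hv : pt (Polynomial.X ^ n) v = 0) : v = 0 := by
  induction n with
  | zero =>
    rw [pow_zero, ← Polynomial.C_1, pt_C, one_smul] at hv
    exact hv
  | succ n ih =>
    rw [pow_succ', pt_mul, pt_X] at hv
    exact ih (ta_inj _ hv)

theorem pt_X_pow_single (n : ℕ) (j : ℤ) (a : MvPolynomial σ ℂ) :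
    pt (Polynomial.X ^ n) (Finsupp.single j a) = Finsupp.single (j - n) a := by
  induction n with
  | zero => rw [pow_zero, ← Polynomial.C_1, pt_C, one_smul, Nat.cast_zero, sub_zero]
  | succ n ih =>
    rw [pow_succ', pt_mul, pt_X, ih, ta_single]
    congr 1
    push_cast
    ring

theorem pt_mem (A : Submodule ℂ (L σ)) (hA : ∀ v ∈ A, ta v ∈ A) (p : Polynomial ℂ) (v : L σ)
    (hv : v ∈ A) : pt p v ∈ A := by
  induction p using Polynomial.induction_on generalizing v with
  | C a => rw [pt_C]; exact A.smul_mem a hv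
  | add p q hp hq => rw [pt_add]; exact A.add_mem (hp v hv) (hq v hv)
  | monomial n a h =>
    rw [pow_succ, ← mul_assoc, pt_mul, pt_X]
    exact h _ (hA v hv)

theorem pt_divX (p : Polynomial ℂ) (v : L σ) :
    pt p v = p.coeff 0 • v + ta (pt p.divX v) := by
  conv_lhs => rw [← Polynomial.divX_mul_X_add p]
  rw [pt_add, pt_C, mul_comm, pt_mul, pt_X, add_comm]

theorem ml_pt_left (p : Polynomial ℂ) (a : L σ) (b : L κ) : ml (pt p a) b = pt p (ml a b) := by
  induction p using Polynomial.induction_on generalizing a with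
  | C c => rw [pt_C, pt_C, map_smul, LinearMap.smul_apply]
  | add p q hp hq => rw [pt_add, pt_add, map_add, LinearMap.add_apply, hp, hq]
  | monomial n c h =>
    rw [pow_succ, ← mul_assoc, pt_mul _ Polynomial.X, pt_X, pt_mul _ Polynomial.X, pt_X, h,
      ml_ta_left]

theorem ml_pt_right (p : Polynomial ℂ) (a : L σ) (b : L κ) : ml a (pt p b) = pt p (ml a b) := by
  induction p using Polynomial.induction_on generalizing b with
  | C c => rw [pt_C, pt_C, map_smul]
  | add p q hp hq => rw [pt_add, pt_add, map_add, hp, hq]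
  | monomial n c h =>
    rw [pow_succ, ← mul_assoc, pt_mul _ Polynomial.X, pt_X, pt_mul _ Polynomial.X, pt_X, h,
      ml_ta_right]

/-- the coefficient of a monomial in the second variables -/
noncomputable def co (n : κ →₀ ℕ) : L (σ ⊕ κ) →ₗ[ℂ] L σ := op 0 fun _ => cor n

theorem co_ml (n : κ →₀ ℕ) (Nn : ℕ) (a : L σ) (j : ℤ) (c : MvPolynomial κ ℂ) (hj : j ≤ Nn) :
    pt (Polynomial.X ^ Nn) (co n (ml a (Finsupp.single j c))) =
      pt (Polynomial.monomial ((Nn : ℤ) - j).toNat (coeff n c)) a := by
  induction a using Finsupp.induction_linear with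
  | zero => simp
  | add u v hu hv => simp only [map_add, LinearMap.add_apply, hu, hv]
  | single i x =>
    rw [ml_single, co, op_single, cor_mul, pt_X_pow_single, ← Polynomial.C_mul_X_pow_eq_monomial,
      pt_mul, pt_C, pt_X_pow_single, Finsupp.smul_single]
    congr 1
    omega

/-- the polynomial -/
noncomputable def po (n : κ →₀ ℕ) (Nn : ℕ) (b : L κ) : Polynomial ℂ :=
  ∑ j ∈ b.support, Polynomial.monomial ((Nn : ℤ) - j).toNat (coeff n (b j))

theorem pt_sum {ι : Type} (s : Finset ι) (p : ι → Polynomial ℂ) (v : L σ) :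
    pt (∑ i ∈ s, p i) v = ∑ i ∈ s, pt (p i) v := by
  classical
  induction s using Finset.induction_on with
  | empty => rw [Finset.sum_empty, Finset.sum_empty, pt_zero]
  | insert i s hi ih => rw [Finset.sum_insert hi, Finset.sum_insert hi, pt_add, ih]

theorem co_ml' (n : κ →₀ ℕ) (Nn : ℕ) (a : L σ) (b : L κ) (hb : ∀ j ∈ b.support, j ≤ Nn) :
    pt (Polynomial.X ^ Nn) (co n (ml a b)) = pt (po n Nn b) a := by
  have h1 : b = ∑ j ∈ b.support, Finsupp.single j (b j) := (Finsupp.sum_single b).symm
  conv_lhs => rw [h1]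
  rw [map_sum, map_sum, map_sum, po, pt_sum]
  exact Finset.sum_congr rfl fun j hj => co_ml n Nn a j (b j) (hb j hj)

theorem po_zero (Nn : ℕ) (b : L κ) (hb : ∀ j ∈ b.support, j ≤ Nn)
    (h : ∀ n, po n Nn b = 0) : b = 0 := by
  classical
  ext j n
  by_cases hj : j ∈ b.support
  · have h1 := congrArg (fun p => p.coeff ((Nn : ℤ) - j).toNat) (h n)
    beta_reduce at h1
    rw [po, Polynomial.finsetSum_coeff, Finset.sum_eq_single j, Polynomial.coeff_monomial_same,
      Polynomial.coeff_zero] at h1
    · rw [h1]
      simp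
    · intro i hi hne
      rw [Polynomial.coeff_monomial, if_neg]
      have h2 := hb i hi
      have h3 := hb j hj
      omega
    · intro h2
      exact absurd hj h2
  · rw [Finsupp.notMem_support_iff.1 hj]
    simp

/-- independence over the polynomials in `T⁻¹` -/
theorem indep {ι : Type} (s : Finset ι) (a : ι → L σ) (b : ι → L κ)
    (hind : ∀ p : ι → Polynomial ℂ, ∑ i ∈ s, pt (p i) (a i) = 0 → ∀ i ∈ s, p i = 0)
    (h : ∑ i ∈ s, ml (a i) (b i) = 0) : ∀ i ∈ s, b i = 0 := by
  classical
  obtain ⟨Nn, hN⟩ : ∃ Nn : ℕ, ∀ i ∈ s, ∀ j ∈ (b i).support, j ≤ (Nn : ℤ) := by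
    refine ⟨s.sup fun i => (b i).support.sup Int.toNat, fun i hi j hj => ?_⟩
    have h1 : (b i).support.sup Int.toNat ≤ s.sup fun i => (b i).support.sup Int.toNat :=
      Finset.le_sup (f := fun i => (b i).support.sup Int.toNat) hi
    have h2 : j.toNat ≤ (b i).support.sup Int.toNat := Finset.le_sup (f := Int.toNat) hj
    omega
  intro i hi
  refine po_zero Nn (b i) (hN i hi) fun n => ?_
  refine hind (fun i => po n Nn (b i)) ?_ i hi
  have h1 := congrArg (fun u => pt (Polynomial.X ^ Nn) (co n u)) h
  beta_reduce at h1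
  rw [map_sum, map_sum, map_zero, map_zero] at h1
  rw [← h1]
  exact Finset.sum_congr rfl fun i hi => (co_ml' n Nn (a i) (b i) (hN i hi)).symm

/-- the functional on the first factor -/
theorem star (A : Submodule ℂ (L σ)) (B : Submodule ℂ (L κ)) (hA : ∀ v ∈ A, ta v ∈ A)
    (hB : ∀ v ∈ B, ta v ∈ B) (lam : L σ →ₗ[ℂ] ℂ) (hlam : ∀ v ∈ A, lam (ta v) = 0) {ι : Type} :
    ∀ (n : ℕ) (s : Finset ι), s.card = n → ∀ (a : ι → L σ) (b : ι → L κ), (∀ i ∈ s, a i ∈ A) →
      (∀ i ∈ s, b i ∈ B) → ∑ i ∈ s, ml (a i) (b i) = 0 →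
        ∃ w ∈ B, ∑ i ∈ s, lam (a i) • b i = ta w := by
  classical
  intro n
  induction n with
  | zero =>
    intro s hs a b ha hb h
    rw [Finset.card_eq_zero] at hs
    subst hs
    exact ⟨0, B.zero_mem, by simp⟩
  | succ n ih =>
    intro s hs a b ha hb h
    by_cases hind : ∀ p : ι → Polynomial ℂ, ∑ i ∈ s, pt (p i) (a i) = 0 → ∀ i ∈ s, p i = 0
    · have h1 := indep s a b hind h
      refine ⟨0, B.zero_mem, ?_⟩
      rw [map_zero]
      exact Finset.sum_eq_zero fun i hi => by rw [h1 i hi, smul_zero]
    · push Not at hind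
      obtain ⟨p, hp, i1, hi1, hpi1⟩ := hind
      -- a relation with a nonzero constant term
      obtain ⟨i0, hi0, hmin⟩ := (s.filter fun i => p i ≠ 0).exists_min_image
        (fun i => (p i).natTrailingDegree) ⟨i1, Finset.mem_filter.2 ⟨hi1, hpi1⟩⟩
      rw [Finset.mem_filter] at hi0
      set r := (p i0).natTrailingDegree with hr
      have hdvd : ∀ i, ∃ q : Polynomial ℂ, i ∈ s → p i = Polynomial.X ^ r * q := by
        intro i
        by_cases hi : i ∈ s
        · have h1 : Polynomial.X ^ r ∣ p i := by
            rw [Polynomial.X_pow_dvd_iff]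
            intro d hd
            by_cases h2 : p i = 0
            · rw [h2, Polynomial.coeff_zero]
            · exact Polynomial.coeff_eq_zero_of_lt_natTrailingDegree
                (lt_of_lt_of_le hd (hmin i (Finset.mem_filter.2 ⟨hi, h2⟩)))
          obtain ⟨q, hq⟩ := h1
          exact ⟨q, fun _ => hq⟩
        · exact ⟨0, fun h2 => absurd h2 hi⟩
      choose q hq using hdvd
      have hqrel : ∑ i ∈ s, pt (q i) (a i) = 0 := by
        apply pt_X_pow_inj r
        rw [map_sum, ← hp]
        exact Finset.sum_congr rfl fun i hi => by rw [← pt_mul, ← hq i hi]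
      have hc : (q i0).coeff 0 ≠ 0 := by
        have h1 : (p i0).coeff r ≠ 0 := Polynomial.trailingCoeff_nonzero_iff_nonzero.2 hi0.2
        rw [hq i0 hi0.1] at h1
        have h2 := Polynomial.coeff_X_pow_mul (q i0) r 0
        rw [zero_add] at h2
        rwa [h2] at h1
      set c := (q i0).coeff 0 with hcdef
      -- the smaller family
      have hcard : (s.erase i0).card = n := by
        rw [Finset.card_erase_of_mem hi0.1, hs]
        rfl
      have hsp : ∀ {M : Type} [AddCommGroup M] (F : ι → M),
          ∑ i ∈ s, F i = F i0 + ∑ i ∈ s.erase i0, F i := fun F =>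
        (Finset.add_sum_erase s F hi0.1).symm
      have hrel' : ∑ i ∈ s.erase i0, ml (a i) (pt (q i0) (b i) - pt (q i) (b i0)) = 0 := by
        have h1 : ∀ i, ml (a i) (pt (q i0) (b i) - pt (q i) (b i0)) =
            pt (q i0) (ml (a i) (b i)) - ml (pt (q i) (a i)) (b i0) := by
          intro i
          rw [map_sub, ml_pt_right, ml_pt_right, ml_pt_left]
        rw [Finset.sum_congr rfl fun i _ => h1 i, Finset.sum_sub_distrib, ← map_sum]
        have h2 : ∑ i ∈ s.erase i0, ml (a i) (b i) = - ml (a i0) (b i0) := by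
          have h3 := hsp fun i => ml (a i) (b i)
          rw [h] at h3
          exact (neg_eq_of_add_eq_zero_right h3.symm).symm
        have h4 : ∑ i ∈ s.erase i0, ml (pt (q i) (a i)) (b i0) =
            - ml (pt (q i0) (a i0)) (b i0) := by
          have h3 := hsp fun i => pt (q i) (a i)
          rw [hqrel] at h3
          have h5 : ∑ i ∈ s.erase i0, pt (q i) (a i) = - pt (q i0) (a i0) :=
            (neg_eq_of_add_eq_zero_right h3.symm).symm
          rw [← LinearMap.sum_apply, ← map_sum, h5, map_neg, LinearMap.neg_apply]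
        rw [h2, h4, map_neg, ml_pt_left]
        abel
      obtain ⟨w, hw, hw'⟩ := ih (s.erase i0) hcard a
        (fun i => pt (q i0) (b i) - pt (q i) (b i0))
        (fun i hi => ha i (Finset.mem_of_mem_erase hi))
        (fun i hi => B.sub_mem (pt_mem B hB _ _ (hb i (Finset.mem_of_mem_erase hi)))
          (pt_mem B hB _ _ (hb i0 hi0.1))) hrel'
      have hlam0 : ∑ i ∈ s, (q i).coeff 0 * lam (a i) = 0 := by
        have h1 := congrArg lam hqrel
        rw [map_sum, map_zero] at h1
        rw [← h1]
        refine Finset.sum_congr rfl fun i hi => ?_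
        rw [pt_divX, map_add, map_smul, hlam _ (pt_mem A hA _ _ (ha i hi)), add_zero]
        rfl
      set u : ι → L κ := fun i => pt (q i0).divX (b i) - pt (q i).divX (b i0) with hu
      have huB : ∀ i ∈ s.erase i0, u i ∈ B := fun i hi =>
        B.sub_mem (pt_mem B hB _ _ (hb i (Finset.mem_of_mem_erase hi)))
          (pt_mem B hB _ _ (hb i0 hi0.1))
      have hb' : ∀ i, pt (q i0) (b i) - pt (q i) (b i0) =
          c • b i - (q i).coeff 0 • b i0 + ta (u i) := by
        intro i
        rw [pt_divX (q i0), pt_divX (q i), hu, map_sub]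
        abel
      refine ⟨c⁻¹ • (w - ∑ i ∈ s.erase i0, lam (a i) • u i), B.smul_mem _ (B.sub_mem hw
        (B.sum_mem fun i hi => B.smul_mem _ (huB i hi))), ?_⟩
      rw [map_smul, map_sub, ← hw', map_sum, ← Finset.sum_sub_distrib]
      have h6 : ∀ i, lam (a i) • (pt (q i0) (b i) - pt (q i) (b i0)) -
          ta (lam (a i) • u i) = c • (lam (a i) • b i) -
            ((q i).coeff 0 * lam (a i)) • b i0 := by
        intro i
        rw [hb' i, map_smul, smul_add, add_sub_cancel_right, smul_sub, smul_smul, smul_smul,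
          smul_smul, mul_comm c, mul_comm ((q i).coeff 0)]
      rw [Finset.sum_congr rfl fun i _ => h6 i, Finset.sum_sub_distrib, ← Finset.smul_sum,
        ← Finset.sum_smul]
      have h7 : ∑ i ∈ s.erase i0, (q i).coeff 0 * lam (a i) = - (c * lam (a i0)) := by
        have h3 := hsp fun i => (q i).coeff 0 * lam (a i)
        rw [hlam0] at h3
        exact (neg_eq_of_add_eq_zero_right h3.symm).symm
      rw [h7, hsp fun i => lam (a i) • b i, neg_smul, sub_neg_eq_add, smul_add, smul_smul,
        smul_smul, inv_mul_cancel₀ hc, one_smul, ← mul_assoc, inv_mul_cancel₀ hc, one_mul,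
        add_comm]

end Pool.Agent.T6.H56.TSG
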