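import Pool.Agent.T6.H56.TSG.ZetaE
import Pool.Agent.W574.LM.Node

set_option autoImplicit false

/-! # Statement of the module CUR -/

namespace Pool.Agent.T6.H56.TSG

open MvPolynomial Pool.Agent.W574.SM Pool.Agent.W574.LM

/-- Module CUR: the poles of the twisted zeta functions of plane curves are roots. -/
def StmCUR : Prop := ∀ (g H : MvPolynomial (Fin 2) ℂ) (b : Polynomial ℂ),
  IsLocEq H (fun _ : Fin 1 => g) b → constantCoeff H ≠ 0 →
  ∀ Z : ℕ → RatFunc ℂ, LocalZetaE (fun _ : Fin 1 => g) 0 1 0 1 Z →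
  ∀ (e : ℕ), 1 ≤ e → ∀ s₀ : ℂ, (Z e).denom.eval s₀ = 0 → b.eval s₀ = 0

end Pool.Agent.T6.H56.TSG
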